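import Mathlib

/-!
Oriented lines in normal form, heights, perpendicular vectors, transversals.
-/

set_option autoImplicit false

namespace Pool.Agent.H90Dz

variable {V : Type*} [NormedAddCommGroup V] [InnerProductSpace ℝ V]

/-- An oriented line in normal form: a unit direction and the point closest to the origin. -/
def IsLine (l : V × V) : Prop := ‖l.2‖ = 1 ∧ inner ℝ l.1 l.2 = 0

/-- height of a point along the line -/
noncomputable def ht (l : V × V) (x : V) : ℝ := inner ℝ x l.2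

/-- vector from the foot on the line to the point -/
noncomputable def cv (l : V × V) (x : V) : V := x - l.1 - ht l x • l.2

/-- the line is within distance `r` of all points of `T` -/
def Tr (l : V × V) (T : Finset V) (r : ℝ) : Prop := ∀ x ∈ T, ‖cv l x‖ ≤ r

/-- the order along the line is (weakly) consistent with the relation `R` on `T` -/
def Cons (R : V → V → Prop) (l : V × V) (T : Finset V) : Prop :=
  ∀ a ∈ T, ∀ b ∈ T, R a b → ht l a ≤ ht l b

lemma Tr.mono {l : V × V} {T T' : Finset V} {r : ℝ} (h : Tr l T r) (hs : T' ⊆ T) : Tr l T' r :=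
  fun x hx => h x (hs hx)

lemma Tr.mono_r {l : V × V} {T : Finset V} {r r' : ℝ} (h : Tr l T r) (hr : r ≤ r') : Tr l T r' :=
  fun x hx => (h x hx).trans hr

lemma Cons.mono {R : V → V → Prop} {l : V × V} {T T' : Finset V} (h : Cons R l T) (hs : T' ⊆ T) :
    Cons R l T' := fun a ha b hb => h a (hs ha) b (hs hb)

lemma inner_cv {l : V × V} (hl : IsLine l) (x : V) : inner ℝ (cv l x) l.2 = 0 := by
  unfold cv ht
  rw [inner_sub_left, inner_sub_left, inner_smul_left, hl.2, real_inner_self_eq_norm_sq, hl.1]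
  simp

lemma cv_sub (l : V × V) (x y : V) :
    cv l x - cv l y = x - y - (ht l x - ht l y) • l.2 := by
  unfold cv; rw [sub_smul]; abel

lemma dist_sq {l : V × V} (hl : IsLine l) (x y : V) :
    dist x y ^ 2 = (ht l x - ht l y) ^ 2 + ‖cv l x - cv l y‖ ^ 2 := by
  have h1 : x - y = (ht l x - ht l y) • l.2 + (cv l x - cv l y) := by rw [cv_sub]; abel
  have h2 : inner ℝ ((ht l x - ht l y) • l.2) (cv l x - cv l y) = 0 := by
    rw [inner_smul_left, inner_sub_right, real_inner_comm, inner_cv hl, real_inner_comm,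
      inner_cv hl]; simp
  rw [dist_eq_norm, h1, norm_add_sq_real, h2, norm_smul, hl.1]
  simp [sq_abs]

lemma cv_norm_sq {l : V × V} (hl : IsLine l) (x : V) :
    ‖cv l x‖ ^ 2 = ‖x - l.1‖ ^ 2 - (ht l x) ^ 2 := by
  have h1 : x - l.1 = ht l x • l.2 + cv l x := by unfold cv; abel
  have h2 : inner ℝ (ht l x • l.2) (cv l x) = 0 := by
    rw [inner_smul_left, real_inner_comm, inner_cv hl]; simp
  rw [h1, norm_add_sq_real, h2, norm_smul, hl.1]
  simp [sq_abs]

/-- the disjointness inequality -/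
lemma ht_sq_gt {l : V × V} (hl : IsLine l) {x y : V} {r : ℝ} (hr : 0 ≤ r)
    (hx : ‖cv l x‖ ≤ r) (hy : ‖cv l y‖ ≤ r) (hd : 2 * r < dist x y) :
    ‖cv l x + cv l y‖ ^ 2 < (ht l x - ht l y) ^ 2 := by
  have h1 := dist_sq hl x y
  have h2 : (2 * r) ^ 2 < dist x y ^ 2 := by
    apply pow_lt_pow_left₀ hd (by linarith) (by norm_num)
  have h3 := parallelogram_law_with_norm ℝ (cv l x) (cv l y)
  have h4 : ‖cv l x‖ ^ 2 ≤ r ^ 2 := pow_le_pow_left₀ (norm_nonneg _) hx 2
  have h5 : ‖cv l y‖ ^ 2 ≤ r ^ 2 := pow_le_pow_left₀ (norm_nonneg _) hy 2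
  nlinarith

lemma ht_ne {l : V × V} (hl : IsLine l) {x y : V} {r : ℝ} (hr : 0 ≤ r)
    (hx : ‖cv l x‖ ≤ r) (hy : ‖cv l y‖ ≤ r) (hd : 2 * r < dist x y) : ht l x ≠ ht l y := by
  intro h
  have := ht_sq_gt hl hr hx hy hd
  rw [h] at this
  have h2 : 0 ≤ ‖cv l x + cv l y‖ ^ 2 := by positivity
  linarith

end Pool.Agent.H90Dz
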