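import Mathlib

/-!
Points that lie in unit distance of two lines with half angle `θ`, `s = sin θ`, `c = cos θ`, in
coordinates: `x` along the bisector, `y` across it in the plane of the two directions, `z` the
rest; the lines are at heights `n` and `-n`.
-/

set_option autoImplicit false

namespace Pool.Agent.H90Dz

variable {V : Type*} [NormedAddCommGroup V] [InnerProductSpace ℝ V]

/-- triangle inequality in `ℝ × V` -/
lemma tri {a1 a2 P Q : ℝ} {v1 v2 : V} (hP : 0 < P) (hQ : 0 < Q) (h1 : a1 ^ 2 + ‖v1‖ ^ 2 < P ^ 2)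
    (h2 : a2 ^ 2 + ‖v2‖ ^ 2 < Q ^ 2) : (a1 + a2) ^ 2 + ‖v1 + v2‖ ^ 2 < (P + Q) ^ 2 := by
  have h3 : a1 * a2 + inner ℝ v1 v2 ≤ P * Q := by
    have h4 := real_inner_le_norm v1 v2
    have h5 : (a1 * a2 + ‖v1‖ * ‖v2‖) ^ 2 ≤ (P * Q) ^ 2 := by
      have h6 : (a1 * a2 + ‖v1‖ * ‖v2‖) ^ 2 ≤ (a1 ^ 2 + ‖v1‖ ^ 2) * (a2 ^ 2 + ‖v2‖ ^ 2) := by
        nlinarith [sq_nonneg (a1 * ‖v2‖ - a2 * ‖v1‖)]
      have h7 : (a1 ^ 2 + ‖v1‖ ^ 2) * (a2 ^ 2 + ‖v2‖ ^ 2) ≤ P ^ 2 * Q ^ 2 := by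
        gcongr
      nlinarith
    have h8 : |a1 * a2 + ‖v1‖ * ‖v2‖| ≤ |P * Q| := sq_le_sq.mp h5
    rw [abs_of_pos (mul_pos hP hQ)] at h8
    linarith [le_abs_self (a1 * a2 + ‖v1‖ * ‖v2‖)]
  rw [norm_add_sq_real]
  nlinarith

section swap

variable {s c x y ex ey : ℝ} {z η n : V}

/-- the basic estimates for a swapped pair with midpoint `(x, y, z)` and half difference
`(ex, ey, η)` -/
lemma swap_bounds (hs : 0 < s) (hc : 0 < c) (hsc : s ^ 2 + c ^ 2 = 1)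
    (h1p : (c * (y + ey) - s * (x + ex)) ^ 2 + ‖z + η - n‖ ^ 2 ≤ 1)
    (h1m : (c * (y - ey) - s * (x - ex)) ^ 2 + ‖z - η - n‖ ^ 2 ≤ 1)
    (h2p : (c * (y + ey) + s * (x + ex)) ^ 2 + ‖z + η + n‖ ^ 2 ≤ 1)
    (h2m : (c * (y - ey) + s * (x - ex)) ^ 2 + ‖z - η + n‖ ^ 2 ≤ 1)
    (hd : 1 < ex ^ 2 + ey ^ 2 + ‖η‖ ^ 2) (hsw : c * |ex| < s * ey) :
    s ^ 2 * x ^ 2 + ‖n‖ ^ 2 < s ^ 2 * ey ^ 2 ∧ c ^ 2 * y ^ 2 + ‖z‖ ^ 2 < s ^ 2 * ey ^ 2 ∧
      ex ^ 2 + ey ^ 2 + ‖η‖ ^ 2 ≤ 1 + s ^ 2 * ey ^ 2 ∧ c ^ 2 * ey ^ 2 ≤ 1 ∧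
      2 * c * ey * |x| ≤ 1 + s ^ 2 * ey ^ 2 - x ^ 2 + (s / c ^ 2) * ey ^ 2 := by
  -- parallelogram identities
  have e3 : (c * y - s * x) ^ 2 + ‖z - n‖ ^ 2 + (c * ey - s * ex) ^ 2 + ‖η‖ ^ 2 ≤ 1 := by
    have p1 : z + η - n = (z - n) + η := by abel
    have p2 : z - η - n = (z - n) - η := by abel
    rw [p1] at h1p; rw [p2] at h1m
    have p3 := parallelogram_law_with_norm ℝ (z - n) η
    linarith [(by ring : (c * (y + ey) - s * (x + ex)) ^ 2 + (c * (y - ey) - s * (x - ex)) ^ 2 =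
      2 * (c * y - s * x) ^ 2 + 2 * (c * ey - s * ex) ^ 2)]
  have e4 : (c * y + s * x) ^ 2 + ‖z + n‖ ^ 2 + (c * ey + s * ex) ^ 2 + ‖η‖ ^ 2 ≤ 1 := by
    have p1 : z + η + n = (z + n) + η := by abel
    have p2 : z - η + n = (z + n) - η := by abel
    rw [p1] at h2p; rw [p2] at h2m
    have p3 := parallelogram_law_with_norm ℝ (z + n) η
    linarith [(by ring : (c * (y + ey) + s * (x + ex)) ^ 2 + (c * (y - ey) + s * (x - ex)) ^ 2 =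
      2 * (c * y + s * x) ^ 2 + 2 * (c * ey + s * ex) ^ 2)]
  have e1 : (c * y - s * ex) ^ 2 + ‖z‖ ^ 2 + (c * ey - s * x) ^ 2 + ‖η - n‖ ^ 2 ≤ 1 := by
    have p1 : z + η - n = z + (η - n) := by abel
    have p2 : z - η + n = z - (η - n) := by abel
    rw [p1] at h1p; rw [p2] at h2m
    have p3 := parallelogram_law_with_norm ℝ z (η - n)
    linarith [(by ring : (c * (y + ey) - s * (x + ex)) ^ 2 + (c * (y - ey) + s * (x - ex)) ^ 2 =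
      2 * (c * y - s * ex) ^ 2 + 2 * (c * ey - s * x) ^ 2)]
  have e2 : (c * y + s * ex) ^ 2 + ‖z‖ ^ 2 + (c * ey + s * x) ^ 2 + ‖η + n‖ ^ 2 ≤ 1 := by
    have p1 : z + η + n = z + (η + n) := by abel
    have p2 : z - η - n = z - (η + n) := by abel
    rw [p1] at h2p; rw [p2] at h1m
    have p3 := parallelogram_law_with_norm ℝ z (η + n)
    linarith [(by ring : (c * (y + ey) + s * (x + ex)) ^ 2 + (c * (y - ey) - s * (x - ex)) ^ 2 =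
      2 * (c * y + s * ex) ^ 2 + 2 * (c * ey + s * x) ^ 2)]
  have hey : 0 < ey := by
    have h0 : 0 ≤ c * |ex| := by positivity
    have h1 : 0 < s * ey := lt_of_le_of_lt h0 hsw
    exact (mul_pos_iff_of_pos_left hs).mp h1
  have hp1 : 0 < s * ey - c * ex := by
    have : c * ex ≤ c * |ex| := mul_le_mul_of_nonneg_left (le_abs_self ex) hc.le
    linarith
  have hp2 : 0 < s * ey + c * ex := by
    have : c * (-|ex|) ≤ c * ex := mul_le_mul_of_nonneg_left (neg_abs_le ex) hc.le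
    linarith
  have hid1 : ex ^ 2 + ey ^ 2 = (c * ey - s * ex) ^ 2 + (s * ey + c * ex) ^ 2 := by
    have : (c * ey - s * ex) ^ 2 + (s * ey + c * ex) ^ 2 = (s ^ 2 + c ^ 2) * (ex ^ 2 + ey ^ 2) := by ring
    rw [this, hsc]; ring
  have hid2 : ex ^ 2 + ey ^ 2 = (c * ey + s * ex) ^ 2 + (s * ey - c * ex) ^ 2 := by
    have : (c * ey + s * ex) ^ 2 + (s * ey - c * ex) ^ 2 = (s ^ 2 + c ^ 2) * (ex ^ 2 + ey ^ 2) := by ring
    rw [this, hsc]; ring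
  have q3 : (c * y - s * x) ^ 2 + ‖z - n‖ ^ 2 < (s * ey + c * ex) ^ 2 := by linarith
  have q4 : (c * y + s * x) ^ 2 + ‖z + n‖ ^ 2 < (s * ey - c * ex) ^ 2 := by linarith
  have hsum : (s * ey + c * ex) + (s * ey - c * ex) = 2 * (s * ey) := by ring
  have ha : s ^ 2 * x ^ 2 + ‖n‖ ^ 2 < s ^ 2 * ey ^ 2 := by
    have q3' : (-(c * y - s * x)) ^ 2 + ‖-(z - n)‖ ^ 2 < (s * ey + c * ex) ^ 2 := by
      rw [neg_sq, norm_neg]; exact q3
    have t := tri hp2 hp1 q3' q4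
    rw [hsum] at t
    have r1 : -(c * y - s * x) + (c * y + s * x) = 2 * (s * x) := by ring
    have r2 : -(z - n) + (z + n) = (2 : ℝ) • n := by rw [two_smul]; abel
    rw [r1, r2, norm_smul, Real.norm_ofNat] at t
    have g1 : (2 * (s * x)) ^ 2 + (2 * ‖n‖) ^ 2 = 4 * (s ^ 2 * x ^ 2 + ‖n‖ ^ 2) := by ring
    have g2 : (2 * (s * ey)) ^ 2 = 4 * (s ^ 2 * ey ^ 2) := by ring
    rw [g1, g2] at t
    linarith
  have hb : c ^ 2 * y ^ 2 + ‖z‖ ^ 2 < s ^ 2 * ey ^ 2 := by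
    have t := tri hp2 hp1 q3 q4
    rw [hsum] at t
    have r1 : (c * y - s * x) + (c * y + s * x) = 2 * (c * y) := by ring
    have r2 : (z - n) + (z + n) = (2 : ℝ) • z := by rw [two_smul]; abel
    rw [r1, r2, norm_smul, Real.norm_ofNat] at t
    have g1 : (2 * (c * y)) ^ 2 + (2 * ‖z‖) ^ 2 = 4 * (c ^ 2 * y ^ 2 + ‖z‖ ^ 2) := by ring
    have g2 : (2 * (s * ey)) ^ 2 = 4 * (s ^ 2 * ey ^ 2) := by ring
    rw [g1, g2] at t
    linarith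
  have hn0 : 0 ≤ ‖z - n‖ ^ 2 := by positivity
  have hn1 : 0 ≤ ‖z + n‖ ^ 2 := by positivity
  have hη0 : 0 ≤ ‖η‖ ^ 2 := by positivity
  have hid3 : (c * ey - s * ex) ^ 2 + (c * ey + s * ex) ^ 2 = 2 * (c ^ 2 * ey ^ 2) + 2 * (s * ex) ^ 2 := by
    ring
  have hcey' : c ^ 2 * ey ^ 2 + ‖η‖ ^ 2 ≤ 1 := by
    linarith [sq_nonneg (c * y - s * x), sq_nonneg (c * y + s * x), sq_nonneg (s * ex)]
  have hcey : c ^ 2 * ey ^ 2 ≤ 1 := by linarith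
  refine ⟨ha, hb, ?_, ?_, ?_⟩
  · rcases le_total 0 ex with h | h
    · have h5 : (s * ey - c * ex) ^ 2 ≤ s ^ 2 * ey ^ 2 := by
        have h6 : 0 ≤ c * ex := mul_nonneg hc.le h
        rw [← mul_pow]
        exact pow_le_pow_left₀ hp1.le (by linarith) 2
      linarith [sq_nonneg (c * y + s * x)]
    · have h5 : (s * ey + c * ex) ^ 2 ≤ s ^ 2 * ey ^ 2 := by
        have h6 : c * ex ≤ 0 := mul_nonpos_of_nonneg_of_nonpos hc.le h
        rw [← mul_pow]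
        exact pow_le_pow_left₀ hp2.le (by linarith) 2
      linarith [sq_nonneg (c * y - s * x)]
  · exact hcey
  · -- the main estimate
    have hex2 : c ^ 2 * ex ^ 2 ≤ s ^ 2 * ey ^ 2 := by
      have h5 : (c * |ex|) ^ 2 ≤ (s * ey) ^ 2 := pow_le_pow_left₀ (by positivity) hsw.le 2
      rw [mul_pow, mul_pow, sq_abs] at h5
      exact h5
    have hη : ‖η‖ ^ 2 ≤ 1 - c ^ 2 * ey ^ 2 := by linarith
    have hs1 : s < 1 := by
      have : 0 < c ^ 2 := by positivity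
      nlinarith
    have hn2 : ‖n‖ ^ 2 ≤ s ^ 2 * ey ^ 2 - s ^ 2 * x ^ 2 := by linarith
    have hnn : 0 ≤ ‖n‖ ^ 2 := by positivity
    -- a common bound
    have hcommon : ∀ I : ℝ, 2 * s * c * ey * |x| + 2 * I + s ^ 2 * x ^ 2 + ‖n‖ ^ 2 ≤ ex ^ 2 + s ^ 2 * ey ^ 2 →
        -(‖η‖ * ‖n‖) ≤ I →
        2 * c * ey * |x| ≤ 1 + s ^ 2 * ey ^ 2 - x ^ 2 + (s / c ^ 2) * ey ^ 2 := by
      intro I hI hI2
      have h6 : 2 * (‖η‖ * ‖n‖) * s ≤ s ^ 2 * ‖η‖ ^ 2 + ‖n‖ ^ 2 := by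
        linarith [sq_nonneg (s * ‖η‖ - ‖n‖), (by ring : (s * ‖η‖ - ‖n‖) ^ 2 =
          s ^ 2 * ‖η‖ ^ 2 - 2 * (‖η‖ * ‖n‖) * s + ‖n‖ ^ 2)]
      have h7 : s * (2 * s * c * ey * |x|) ≤ s * ex ^ 2 + s * (s ^ 2 * ey ^ 2) + s ^ 2 * ‖η‖ ^ 2 +
          (1 - s) * ‖n‖ ^ 2 - s * (s ^ 2 * x ^ 2) := by
        have g1 : s * (2 * s * c * ey * |x| + 2 * I + s ^ 2 * x ^ 2 + ‖n‖ ^ 2) ≤
            s * (ex ^ 2 + s ^ 2 * ey ^ 2) := mul_le_mul_of_nonneg_left hI hs.le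
        have g2 : s * (-(‖η‖ * ‖n‖)) ≤ s * I := mul_le_mul_of_nonneg_left hI2 hs.le
        linarith
      have h8 : (1 - s) * ‖n‖ ^ 2 ≤ (1 - s) * (s ^ 2 * ey ^ 2 - s ^ 2 * x ^ 2) :=
        mul_le_mul_of_nonneg_left hn2 (by linarith)
      have h9 : s ^ 2 * ‖η‖ ^ 2 ≤ s ^ 2 * (1 - c ^ 2 * ey ^ 2) :=
        mul_le_mul_of_nonneg_left hη (by positivity)
      have hc2 : 0 < c ^ 2 := by positivity
      have h10 : ex ^ 2 ≤ s ^ 2 / c ^ 2 * ey ^ 2 := by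
        rw [div_mul_eq_mul_div, le_div_iff₀ hc2]; linarith
      have h11 : s * ex ^ 2 ≤ s * (s ^ 2 / c ^ 2 * ey ^ 2) := mul_le_mul_of_nonneg_left h10 hs.le
      have h12 : s ^ 2 * (2 * c * ey * |x|) ≤
          s ^ 2 * (1 + s ^ 2 * ey ^ 2 - x ^ 2 + (s / c ^ 2) * ey ^ 2) := by
        have h13 : s * (s ^ 2 / c ^ 2 * ey ^ 2) = s ^ 2 * ((s / c ^ 2) * ey ^ 2) := by
          field_simp
        have h14 : s ^ 2 * (1 - c ^ 2 * ey ^ 2) + s ^ 2 * ey ^ 2 = s ^ 2 * (1 + s ^ 2 * ey ^ 2) := by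
          have : c ^ 2 = 1 - s ^ 2 := by linarith
          rw [this]; ring
        linarith
      exact le_of_mul_le_mul_left h12 (by positivity)
    rcases le_total 0 x with h | h
    · apply hcommon (inner ℝ η n)
      · rw [norm_add_sq_real] at e2
        rw [abs_of_nonneg h]
        have g3 : (c * ey + s * x) ^ 2 = c ^ 2 * ey ^ 2 + 2 * s * c * ey * x + s ^ 2 * x ^ 2 := by ring
        have g4 : ey ^ 2 = s ^ 2 * ey ^ 2 + c ^ 2 * ey ^ 2 := by rw [← add_mul, hsc, one_mul]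
        linarith [sq_nonneg (c * y + s * ex), sq_nonneg ‖z‖]
      · have := abs_real_inner_le_norm η n
        linarith [neg_abs_le (inner ℝ η n)]
    · apply hcommon (-inner ℝ η n)
      · rw [norm_sub_sq_real] at e1
        rw [abs_of_nonpos h]
        have g3 : (c * ey - s * x) ^ 2 = c ^ 2 * ey ^ 2 + 2 * s * c * ey * -x + s ^ 2 * x ^ 2 := by ring
        have g4 : ey ^ 2 = s ^ 2 * ey ^ 2 + c ^ 2 * ey ^ 2 := by rw [← add_mul, hsc, one_mul]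
        linarith [sq_nonneg (c * y - s * ex), sq_nonneg ‖z‖]
      · have := real_inner_le_norm η n
        linarith

end swap

/-- the numerical conclusion for one swapped pair -/
lemma swap_x {s c x e : ℝ} (hs : 0 < s) (hc : 0 < c) (hsc : s ^ 2 + c ^ 2 = 1)
    (hs2 : s ^ 2 ≤ 0.0776) (he : 0 < e) (hx : 0 ≤ x) (ha : x ≤ e) (hd : c ^ 2 * e ^ 2 ≤ 1)
    (hmain : 2 * c * e * x ≤ 1 + s ^ 2 * e ^ 2 - x ^ 2 + (s / c ^ 2) * e ^ 2) :
    x ^ 2 ≤ 1 / 2 - (s ^ 2 / c ^ 2 + s ^ 2 / 2) * e ^ 2 := by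
  by_contra hcon
  push Not at hcon
  have hc2 : 0.9224 ≤ c ^ 2 := by linarith
  have hc' : 0.9604 ≤ c := by
    by_contra h; push Not at h
    nlinarith
  have hs' : s ≤ 0.2786 := by
    by_contra h; push Not at h
    nlinarith
  have he2 : e ^ 2 ≤ 1.0842 := by
    by_contra h; push Not at h
    nlinarith
  have k1 : s ^ 2 / c ^ 2 ≤ 0.08413 := by
    rw [div_le_iff₀ (by positivity)]; nlinarith
  have k2 : s / c ^ 2 ≤ 0.30204 := by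
    rw [div_le_iff₀ (by positivity)]; nlinarith
  have he2p : 0 < e ^ 2 := by positivity
  have k3 : (s ^ 2 / c ^ 2 + s ^ 2 / 2) * e ^ 2 ≤ 0.12293 * e ^ 2 := by
    apply mul_le_mul_of_nonneg_right _ he2p.le
    linarith
  have k4 : 1 / 2 - 0.12293 * e ^ 2 < x ^ 2 := by linarith
  have k5 : (s / c ^ 2) * e ^ 2 ≤ 0.30204 * e ^ 2 := mul_le_mul_of_nonneg_right k2 he2p.le
  have k6 : s ^ 2 * e ^ 2 ≤ 0.0776 * e ^ 2 := mul_le_mul_of_nonneg_right hs2 he2p.le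
  have k7 : 1.9208 * (e * x) ≤ 2 * c * e * x := by
    have : 0 ≤ e * x := mul_nonneg he.le hx
    nlinarith
  have k8 : x ^ 2 + 1.9208 * (e * x) ≤ 1 + 0.37964 * e ^ 2 := by linarith
  have k9 : 0.42 * e < x := by
    by_contra h; push Not at h
    have : x ^ 2 ≤ (0.42 * e) ^ 2 := pow_le_pow_left₀ hx h 2
    nlinarith
  have k10 : 0 < (x - 0.42 * e) * (1.5 * e - x) := mul_pos (by linarith) (by linarith)
  nlinarith [mul_nonneg he.le hx]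

end Pool.Agent.H90Dz
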