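import Pool.Agent.H90Dz.Coord

/-!
Configurations of points in unit distance of two lines.
-/

set_option autoImplicit false

namespace Pool.Agent.H90Dz

variable {V : Type*} [NormedAddCommGroup V] [InnerProductSpace ℝ V]

/-- coordinates of a point -/
structure Pt (V : Type*) where
  x : ℝ
  y : ℝ
  z : V

/-- in unit distance of both lines -/
def InB (s c : ℝ) (n : V) (P : Pt V) : Prop :=
  (c * P.y - s * P.x) ^ 2 + ‖P.z - n‖ ^ 2 ≤ 1 ∧ (c * P.y + s * P.x) ^ 2 + ‖P.z + n‖ ^ 2 ≤ 1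

/-- in distance more than two -/
def Far (P Q : Pt V) : Prop := 4 < (P.x - Q.x) ^ 2 + (P.y - Q.y) ^ 2 + ‖P.z - Q.z‖ ^ 2

lemma Far.symm {P Q : Pt V} (h : Far P Q) : Far Q P := by
  unfold Far at *
  rw [norm_sub_rev]; nlinarith

/-- swapped, `P` upper -/
def Sw (s c : ℝ) (P Q : Pt V) : Prop := c * |P.x - Q.x| < s * (P.y - Q.y)

lemma sw_bounds {s c : ℝ} {n : V} (hs : 0 < s) (hc : 0 < c) (hsc : s ^ 2 + c ^ 2 = 1) {P Q : Pt V}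
    (hP : InB s c n P) (hQ : InB s c n Q) (hF : Far P Q) (hS : Sw s c P Q) :
    s ^ 2 * ((P.x + Q.x) / 2) ^ 2 + ‖n‖ ^ 2 < s ^ 2 * ((P.y - Q.y) / 2) ^ 2 ∧
    c ^ 2 * ((P.y + Q.y) / 2) ^ 2 + ‖(1 / 2 : ℝ) • (P.z + Q.z)‖ ^ 2 < s ^ 2 * ((P.y - Q.y) / 2) ^ 2 ∧
    ((P.x - Q.x) / 2) ^ 2 + ((P.y - Q.y) / 2) ^ 2 + ‖(1 / 2 : ℝ) • (P.z - Q.z)‖ ^ 2 ≤
      1 + s ^ 2 * ((P.y - Q.y) / 2) ^ 2 ∧
    c ^ 2 * ((P.y - Q.y) / 2) ^ 2 ≤ 1 ∧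
    2 * c * ((P.y - Q.y) / 2) * |(P.x + Q.x) / 2| ≤
      1 + s ^ 2 * ((P.y - Q.y) / 2) ^ 2 - ((P.x + Q.x) / 2) ^ 2 +
        (s / c ^ 2) * ((P.y - Q.y) / 2) ^ 2 := by
  have z1 : (1 / 2 : ℝ) • (P.z + Q.z) + (1 / 2 : ℝ) • (P.z - Q.z) = P.z := by module
  have z2 : (1 / 2 : ℝ) • (P.z + Q.z) - (1 / 2 : ℝ) • (P.z - Q.z) = Q.z := by module
  have x1 : (P.x + Q.x) / 2 + (P.x - Q.x) / 2 = P.x := by ring
  have x2 : (P.x + Q.x) / 2 - (P.x - Q.x) / 2 = Q.x := by ring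
  have y1 : (P.y + Q.y) / 2 + (P.y - Q.y) / 2 = P.y := by ring
  have y2 : (P.y + Q.y) / 2 - (P.y - Q.y) / 2 = Q.y := by ring
  apply swap_bounds (n := n) hs hc hsc
  · rw [z1, x1, y1]; exact hP.1
  · rw [z2, x2, y2]; exact hQ.1
  · rw [z1, x1, y1]; exact hP.2
  · rw [z2, x2, y2]; exact hQ.2
  · rw [norm_smul, mul_pow]
    unfold Far at hF
    norm_num
    nlinarith
  · unfold Sw at hS
    rw [abs_div, abs_two]; linarith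

/-- summary for a swapped pair, unoriented -/
lemma sw_mid {s c : ℝ} {n : V} (hs : 0 < s) (hc : 0 < c) (hsc : s ^ 2 + c ^ 2 = 1) {P Q : Pt V}
    (hP : InB s c n P) (hQ : InB s c n Q) (hF : Far P Q) (hS : Sw s c P Q ∨ Sw s c Q P) :
    c ^ 2 * ((P.y + Q.y) / 2) ^ 2 + ‖(1 / 2 : ℝ) • (P.z + Q.z)‖ ^ 2 ≤ s ^ 2 * ((P.y - Q.y) / 2) ^ 2 ∧
    c ^ 2 * ((P.y - Q.y) / 2) ^ 2 ≤ 1 ∧
    c ^ 2 * ((P.x - Q.x) / 2) ^ 2 ≤ s ^ 2 * ((P.y - Q.y) / 2) ^ 2 := by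
  rcases hS with hS | hS
  · obtain ⟨_, h2, _, h4, _⟩ := sw_bounds hs hc hsc hP hQ hF hS
    refine ⟨h2.le, h4, ?_⟩
    have h5 : (c * |P.x - Q.x|) ^ 2 ≤ (s * (P.y - Q.y)) ^ 2 := pow_le_pow_left₀ (by positivity) (le_of_lt hS) 2
    rw [mul_pow, mul_pow, sq_abs] at h5
    nlinarith
  · obtain ⟨_, h2, _, h4, _⟩ := sw_bounds hs hc hsc hQ hP hF.symm hS
    have e1 : (Q.y - P.y) / 2 = -((P.y - Q.y) / 2) := by ring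
    rw [add_comm Q.y, add_comm Q.z, e1, neg_sq] at h2
    rw [e1, neg_sq] at h4
    refine ⟨h2.le, h4, ?_⟩
    have h5 : (c * |Q.x - P.x|) ^ 2 ≤ (s * (Q.y - P.y)) ^ 2 := pow_le_pow_left₀ (by positivity) (le_of_lt hS) 2
    rw [mul_pow, mul_pow, sq_abs] at h5
    nlinarith

/-- two swapped pairs that share a point -/
lemma no_shared {s c : ℝ} {n : V} (hs : 0 < s) (hc : 0 < c) (hsc : s ^ 2 + c ^ 2 = 1)
    (hs2 : s ^ 2 ≤ 0.0776) {P Q Q' : Pt V}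
    (hP : InB s c n P) (hQ : InB s c n Q) (hQ' : InB s c n Q') (hPQ : Far P Q) (hPQ' : Far P Q')
    (hQQ' : Far Q Q') (hS : Sw s c P Q ∨ Sw s c Q P) (hS' : Sw s c P Q' ∨ Sw s c Q' P) : False := by
  obtain ⟨a1, a2, a3⟩ := sw_mid hs hc hsc hP hQ hPQ hS
  obtain ⟨b1, b2, b3⟩ := sw_mid hs hc hsc hP hQ' hPQ' hS'
  have hc2 : 0.9224 ≤ c ^ 2 := by linarith
  set E1 := ((P.y - Q.y) / 2) ^ 2 with hE1
  set E2 := ((P.y - Q'.y) / 2) ^ 2 with hE2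
  have hE1n : 0 ≤ E1 := by positivity
  have hE2n : 0 ≤ E2 := by positivity
  have hE1' : E1 ≤ 1.0842 := by nlinarith
  have hE2' : E2 ≤ 1.0842 := by nlinarith
  have hsE1 : s ^ 2 * E1 ≤ 0.0776 * E1 := mul_le_mul_of_nonneg_right hs2 hE1n
  have hsE2 : s ^ 2 * E2 ≤ 0.0776 * E2 := mul_le_mul_of_nonneg_right hs2 hE2n
  -- the x part
  have x1 : ((P.x - Q.x) / 2) ^ 2 ≤ 0.0913 := by
    have := sq_nonneg ((P.x - Q.x) / 2)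
    nlinarith
  have x2 : ((P.x - Q'.x) / 2) ^ 2 ≤ 0.0913 := by
    have := sq_nonneg ((P.x - Q'.x) / 2)
    nlinarith
  have hx : (Q.x - Q'.x) ^ 2 ≤ 8 * ((P.x - Q.x) / 2) ^ 2 + 8 * ((P.x - Q'.x) / 2) ^ 2 := by
    nlinarith [sq_nonneg ((P.x - Q.x) + (P.x - Q'.x))]
  have y1 : ((P.y + Q.y) / 2) ^ 2 + ‖(1 / 2 : ℝ) • (P.z + Q.z)‖ ^ 2 ≤ 0.0913 := by
    have g1 : 0 ≤ ((P.y + Q.y) / 2) ^ 2 := by positivity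
    have g2 : 0 ≤ ‖(1 / 2 : ℝ) • (P.z + Q.z)‖ ^ 2 := by positivity
    nlinarith
  have y2 : ((P.y + Q'.y) / 2) ^ 2 + ‖(1 / 2 : ℝ) • (P.z + Q'.z)‖ ^ 2 ≤ 0.0913 := by
    have g1 : 0 ≤ ((P.y + Q'.y) / 2) ^ 2 := by positivity
    have g2 : 0 ≤ ‖(1 / 2 : ℝ) • (P.z + Q'.z)‖ ^ 2 := by positivity
    nlinarith
  have hy : (Q.y - Q'.y) ^ 2 ≤ 8 * ((P.y + Q.y) / 2) ^ 2 + 8 * ((P.y + Q'.y) / 2) ^ 2 := by
    nlinarith [sq_nonneg ((P.y + Q.y) + (P.y + Q'.y))]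
  have hz : ‖Q.z - Q'.z‖ ^ 2 ≤ 8 * ‖(1 / 2 : ℝ) • (P.z + Q.z)‖ ^ 2 +
      8 * ‖(1 / 2 : ℝ) • (P.z + Q'.z)‖ ^ 2 := by
    have e1 : Q.z - Q'.z = (2 : ℝ) • ((1 / 2 : ℝ) • (P.z + Q.z) - (1 / 2 : ℝ) • (P.z + Q'.z)) := by
      module
    rw [e1, norm_smul, Real.norm_ofNat, mul_pow]
    have p := parallelogram_law_with_norm ℝ ((1 / 2 : ℝ) • (P.z + Q.z)) ((1 / 2 : ℝ) • (P.z + Q'.z))
    have : 0 ≤ ‖(1 / 2 : ℝ) • (P.z + Q.z) + (1 / 2 : ℝ) • (P.z + Q'.z)‖ ^ 2 := by positivity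
    nlinarith
  unfold Far at hQQ'
  linarith

/-- estimate for the sum of the squares -/
lemma sw_sum {s c : ℝ} {n : V} (hs : 0 < s) (hc : 0 < c) (hsc : s ^ 2 + c ^ 2 = 1)
    (hs2 : s ^ 2 ≤ 0.0776) {P Q : Pt V}
    (hP : InB s c n P) (hQ : InB s c n Q) (hF : Far P Q) (hS : Sw s c P Q) :
    2 * (((P.x + Q.x) / 2) ^ 2 + ((P.y + Q.y) / 2) ^ 2 + ‖(1 / 2 : ℝ) • (P.z + Q.z)‖ ^ 2) +
      (((P.x - Q.x) / 2) ^ 2 + ((P.y - Q.y) / 2) ^ 2 + ‖(1 / 2 : ℝ) • (P.z - Q.z)‖ ^ 2) ≤ 2 := by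
  obtain ⟨h1, h2, h3, h4, h5⟩ := sw_bounds hs hc hsc hP hQ hF hS
  set x := (P.x + Q.x) / 2 with hx
  set e := (P.y - Q.y) / 2 with he
  have hepos : 0 < e := by
    have : 0 ≤ c * |P.x - Q.x| := by positivity
    have h6 : 0 < s * (P.y - Q.y) := lt_of_le_of_lt this hS
    have := (mul_pos_iff_of_pos_left hs).mp h6
    rw [he]; linarith
  have hxe : |x| ≤ e := by
    have h6 : s ^ 2 * x ^ 2 ≤ s ^ 2 * e ^ 2 := by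
      have : 0 ≤ ‖n‖ ^ 2 := by positivity
      linarith
    have h7 : x ^ 2 ≤ e ^ 2 := le_of_mul_le_mul_left h6 (by positivity)
    have h8 := sq_le_sq.mp h7
    rwa [abs_of_pos hepos] at h8
  have h5' : 2 * c * e * |x| ≤ 1 + s ^ 2 * e ^ 2 - |x| ^ 2 + (s / c ^ 2) * e ^ 2 := by
    rw [sq_abs]; exact h5
  have h6 := swap_x hs hc hsc hs2 hepos (abs_nonneg x) hxe h4 h5'
  rw [sq_abs] at h6
  have hc2 : 0 < c ^ 2 := by positivity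
  have hc1 : c ^ 2 ≤ 1 := by nlinarith [sq_nonneg s]
  have h7 : ((P.y + Q.y) / 2) ^ 2 + ‖(1 / 2 : ℝ) • (P.z + Q.z)‖ ^ 2 ≤ s ^ 2 / c ^ 2 * e ^ 2 := by
    rw [div_mul_eq_mul_div, le_div_iff₀ hc2]
    have g2 : 0 ≤ ‖(1 / 2 : ℝ) • (P.z + Q.z)‖ ^ 2 := by positivity
    nlinarith
  have h8 : (s ^ 2 / c ^ 2 + s ^ 2 / 2) * e ^ 2 = s ^ 2 / c ^ 2 * e ^ 2 + s ^ 2 * e ^ 2 / 2 := by ring
  linarith

/-- two disjoint swapped pairs -/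
lemma no_disjoint {s c : ℝ} {n : V} (hs : 0 < s) (hc : 0 < c) (hsc : s ^ 2 + c ^ 2 = 1)
    (hs2 : s ^ 2 ≤ 0.0776) {P Q P' Q' : Pt V}
    (hP : InB s c n P) (hQ : InB s c n Q) (hP' : InB s c n P') (hQ' : InB s c n Q')
    (hPQ : Far P Q) (hPQ' : Far P' Q') (h1 : Far P P') (h2 : Far P Q') (h3 : Far Q P')
    (h4 : Far Q Q') (hS : Sw s c P Q) (hS' : Sw s c P' Q') : False := by
  have a := sw_sum hs hc hsc hs2 hP hQ hPQ hS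
  have b := sw_sum hs hc hsc hs2 hP' hQ' hPQ' hS'
  unfold Far at h1 h2 h3 h4
  set z1 := (1 / 2 : ℝ) • (P.z + Q.z) with hz1
  set z2 := (1 / 2 : ℝ) • (P'.z + Q'.z) with hz2
  set η1 := (1 / 2 : ℝ) • (P.z - Q.z) with hη1
  set η2 := (1 / 2 : ℝ) • (P'.z - Q'.z) with hη2
  have e1 : P.z - P'.z = (z1 - z2 + η1) - η2 := by rw [hz1, hz2, hη1, hη2]; module
  have e2 : P.z - Q'.z = (z1 - z2 + η1) + η2 := by rw [hz1, hz2, hη1, hη2]; module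
  have e3 : Q.z - P'.z = (z1 - z2 - η1) - η2 := by rw [hz1, hz2, hη1, hη2]; module
  have e4 : Q.z - Q'.z = (z1 - z2 - η1) + η2 := by rw [hz1, hz2, hη1, hη2]; module
  rw [e1] at h1; rw [e2] at h2; rw [e3] at h3; rw [e4] at h4
  have p1 := parallelogram_law_with_norm ℝ (z1 - z2 + η1) η2
  have p2 := parallelogram_law_with_norm ℝ (z1 - z2 - η1) η2
  have p3 := parallelogram_law_with_norm ℝ (z1 - z2) η1
  have p4 := parallelogram_law_with_norm ℝ z1 z2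
  have p5 : 0 ≤ ‖z1 + z2‖ ^ 2 := by positivity
  have hX : (P.x - P'.x) ^ 2 + (P.x - Q'.x) ^ 2 + (Q.x - P'.x) ^ 2 + (Q.x - Q'.x) ^ 2 =
      4 * ((P.x + Q.x) / 2 - (P'.x + Q'.x) / 2) ^ 2 + 4 * ((P.x - Q.x) / 2) ^ 2 +
        4 * ((P'.x - Q'.x) / 2) ^ 2 := by ring
  have hY : (P.y - P'.y) ^ 2 + (P.y - Q'.y) ^ 2 + (Q.y - P'.y) ^ 2 + (Q.y - Q'.y) ^ 2 =
      4 * ((P.y + Q.y) / 2 - (P'.y + Q'.y) / 2) ^ 2 + 4 * ((P.y - Q.y) / 2) ^ 2 +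
        4 * ((P'.y - Q'.y) / 2) ^ 2 := by ring
  have hX2 : ((P.x + Q.x) / 2 - (P'.x + Q'.x) / 2) ^ 2 ≤ 2 * ((P.x + Q.x) / 2) ^ 2 +
      2 * ((P'.x + Q'.x) / 2) ^ 2 := by nlinarith [sq_nonneg ((P.x + Q.x) / 2 + (P'.x + Q'.x) / 2)]
  have hY2 : ((P.y + Q.y) / 2 - (P'.y + Q'.y) / 2) ^ 2 ≤ 2 * ((P.y + Q.y) / 2) ^ 2 +
      2 * ((P'.y + Q'.y) / 2) ^ 2 := by nlinarith [sq_nonneg ((P.y + Q.y) / 2 + (P'.y + Q'.y) / 2)]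
  linarith

end Pool.Agent.H90Dz
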