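import Pool.Agent.H90Dz.Coord2

/-!
A bound for the angle of two lines that both meet many disjoint unit balls.
-/

set_option autoImplicit false

namespace Pool.Agent.H90Dz

variable {V : Type*} [NormedAddCommGroup V] [InnerProductSpace ℝ V]

lemma three_reals {a b c : ℝ} (ha : 1.25 ≤ a) (hab : a ≤ b) (hbc : b ≤ c) (hc : c ≤ 3.59)
    (h1 : 0.16825 * (a ^ 2 + b ^ 2 - 2) < (b - a) ^ 2)
    (h2 : 0.16825 * (b ^ 2 + c ^ 2 - 2) < (c - b) ^ 2) : False := by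
  have hb : 2.04 < b := by
    by_contra h; push Not at h
    obtain ⟨u, rfl⟩ : ∃ u, b = a + u := ⟨b - a, by ring⟩
    have hu0 : 0 ≤ u := by linarith
    have hu1 : u ≤ 0.79 := by linarith
    nlinarith [mul_nonneg hu0 (by linarith : (0 : ℝ) ≤ 0.79 - u),
      mul_nonneg hu0 (by linarith : (0 : ℝ) ≤ a - 1.25), mul_nonneg (by linarith : (0 : ℝ) ≤ a - 1.25) (by linarith : (0 : ℝ) ≤ a - 1.25)]
  obtain ⟨v, rfl⟩ : ∃ v, c = b + v := ⟨c - b, by ring⟩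
  have hv0 : 0 ≤ v := by linarith
  have hv1 : v ≤ 1.55 := by linarith
  nlinarith [mul_nonneg hv0 (by linarith : (0 : ℝ) ≤ 1.55 - v),
    mul_nonneg hv0 (by linarith : (0 : ℝ) ≤ b - 2.04), mul_nonneg (by linarith : (0 : ℝ) ≤ b - 2.04) (by linarith : (0 : ℝ) ≤ b - 2.04)]

lemma inB_avg {s c : ℝ} {n : V} {P : Pt V} (hP : InB s c n P) :
    s ^ 2 * P.x ^ 2 + c ^ 2 * P.y ^ 2 + ‖P.z‖ ^ 2 ≤ 1 := by
  obtain ⟨h1, h2⟩ := hP
  have p := parallelogram_law_with_norm ℝ P.z n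
  have : 0 ≤ ‖n‖ ^ 2 := by positivity
  nlinarith

lemma inB_le {s c : ℝ} {n : V} {P : Pt V} (hP : InB s c n P) :
    c * P.y + s * P.x ≤ 1 := by
  obtain ⟨h1, h2⟩ := hP
  have : 0 ≤ ‖P.z + n‖ ^ 2 := by positivity
  have h3 : (c * P.y + s * P.x) ^ 2 ≤ 1 := by linarith
  nlinarith

lemma pair_x {s c : ℝ} {n : V} (hsc : s ^ 2 + c ^ 2 = 1) (hc : 0 < c) {P Q : Pt V}
    (hP : InB s c n P) (hQ : InB s c n Q) (hF : Far P Q) :
    2 * s ^ 2 * (P.x ^ 2 + Q.x ^ 2 - 2) < c ^ 2 * (P.x - Q.x) ^ 2 := by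
  have h1 := inB_avg hP
  have h2 := inB_avg hQ
  unfold Far at hF
  have p := parallelogram_law_with_norm ℝ P.z Q.z
  have h3 : 0 ≤ ‖P.z + Q.z‖ ^ 2 := by positivity
  have h4 : 0 ≤ (P.y + Q.y) ^ 2 := by positivity
  have hc2 : 0 < c ^ 2 := by positivity
  have hc1 : c ^ 2 ≤ 1 := by nlinarith [sq_nonneg s]
  have h5 : c ^ 2 * 4 < c ^ 2 * ((P.x - Q.x) ^ 2 + (P.y - Q.y) ^ 2 + ‖P.z - Q.z‖ ^ 2) :=
    mul_lt_mul_of_pos_left hF hc2
  have h6 : c ^ 2 * ‖P.z - Q.z‖ ^ 2 ≤ ‖P.z - Q.z‖ ^ 2 := by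
    have : 0 ≤ ‖P.z - Q.z‖ ^ 2 := by positivity
    nlinarith
  have h7 : c ^ 2 * (P.y - Q.y) ^ 2 = 2 * (c ^ 2 * P.y ^ 2) + 2 * (c ^ 2 * Q.y ^ 2) -
      c ^ 2 * (P.y + Q.y) ^ 2 := by ring
  have h8 : 0 ≤ c ^ 2 * (P.y + Q.y) ^ 2 := by positivity
  have h9 : 2 * s ^ 2 * (P.x ^ 2 + Q.x ^ 2 - 2) = 2 * (s ^ 2 * P.x ^ 2) + 2 * (s ^ 2 * Q.x ^ 2) - 4 * s ^ 2 := by ring
  nlinarith

/-- small product of sine and cosine -/
lemma big_h {s c : ℝ} {n : V} (hsc : s ^ 2 + c ^ 2 = 1) (hle : s ≤ c) (hs : 0 < s) {P : Pt V}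
    (hP : InB s c n P) (hh : 8 < (c * P.x + s * P.y) ^ 2) : s ^ 2 < 0.1128 := by
  have h1 := inB_avg hP
  have h2 : 0 ≤ ‖P.z‖ ^ 2 := by positivity
  have hc : 0 < c := lt_of_lt_of_le hs hle
  have h3 : (s * c) ^ 2 * (c * P.x + s * P.y) ^ 2 = (c ^ 2 * (s * P.x) + s ^ 2 * (c * P.y)) ^ 2 := by ring
  have h4 : (c ^ 2 * (s * P.x) + s ^ 2 * (c * P.y)) ^ 2 ≤
      (c ^ 4 + s ^ 4) * ((s * P.x) ^ 2 + (c * P.y) ^ 2) := by
    nlinarith [sq_nonneg (c ^ 2 * (c * P.y) - s ^ 2 * (s * P.x))]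
  have h5 : (c ^ 4 + s ^ 4) * ((s * P.x) ^ 2 + (c * P.y) ^ 2) ≤ c ^ 4 + s ^ 4 := by
    have : (s * P.x) ^ 2 + (c * P.y) ^ 2 ≤ 1 := by nlinarith
    have h6 : 0 ≤ c ^ 4 + s ^ 4 := by positivity
    nlinarith
  have h6 : c ^ 4 + s ^ 4 = 1 - 2 * (s * c) ^ 2 := by
    have : c ^ 2 = 1 - s ^ 2 := by linarith
    have h7 : c ^ 4 = (1 - s ^ 2) ^ 2 := by rw [← this]; ring
    have h8 : (s * c) ^ 2 = s ^ 2 * (1 - s ^ 2) := by rw [← this]; ring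
    rw [h7, h8]; ring
  have h7 : 0 < (s * c) ^ 2 := by positivity
  have h8 : (s * c) ^ 2 * 8 < (s * c) ^ 2 * (c * P.x + s * P.y) ^ 2 := mul_lt_mul_of_pos_left hh h7
  have h9 : (s * c) ^ 2 < 0.1 := by linarith
  have h10 : (s * c) ^ 2 = s ^ 2 * (1 - s ^ 2) := by
    have : c ^ 2 = 1 - s ^ 2 := by linarith
    rw [← this]; ring
  have h11 : s ^ 2 ≤ 1 / 2 := by
    have : s ^ 2 ≤ c ^ 2 := pow_le_pow_left₀ hs.le hle 2
    linarith
  by_contra h; push Not at h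
  rw [h10] at h9
  nlinarith

lemma x_low {s c : ℝ} {n : V} (hsc : s ^ 2 + c ^ 2 = 1) (hs : 0 < s) (hc : 0 < c)
    (hs1 : 0.0776 < s ^ 2) (hs2 : s ^ 2 < 0.1128) {P : Pt V}
    (hP : InB s c n P) (hh : √2 < c * P.x + s * P.y) : 1.25 ≤ P.x := by
  by_contra hx; push Not at hx
  have h1 := inB_le hP
  have hsl : 0.2785 < s := by
    by_contra h; push Not at h; nlinarith
  have hsu : s < 0.3359 := by
    by_contra h; push Not at h; nlinarith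
  have h2 : √2 * c < P.x * (1 - 2 * s ^ 2) + s := by
    have h3 : √2 * c < (c * P.x + s * P.y) * c := mul_lt_mul_of_pos_right hh hc
    have h4 : s * (c * P.y + s * P.x) ≤ s * 1 := mul_le_mul_of_nonneg_left h1 hs.le
    have h5 : c ^ 2 = 1 - s ^ 2 := by linarith
    have h6 : (c * P.x + s * P.y) * c = c ^ 2 * P.x + s * (c * P.y) := by ring
    rw [h6, h5] at h3
    nlinarith
  have h3 : √2 * c < 1.25 * (1 - 2 * s ^ 2) + s := by
    have : 0 < 1 - 2 * s ^ 2 := by linarith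
    nlinarith
  have h4 : (√2 * c) ^ 2 < (1.25 * (1 - 2 * s ^ 2) + s) ^ 2 :=
    pow_lt_pow_left₀ h3 (by positivity) (by norm_num)
  rw [mul_pow, Real.sq_sqrt (by norm_num)] at h4
  have h5 : c ^ 2 = 1 - s ^ 2 := by linarith
  rw [h5] at h4
  -- 2 (1 - s²) < (1.25 + s - 2.5 s²)² is false on the interval
  have h6 : 1.25 * (1 - 2 * s ^ 2) + s ≤ 1.3348 := by nlinarith
  have h7 : (1.25 * (1 - 2 * s ^ 2) + s) ≤ 1.3348 - 0.4 * (s - 0.2785) := by nlinarith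
  have h8 : 0 < 1.25 * (1 - 2 * s ^ 2) + s := by nlinarith
  have h9 : (1.25 * (1 - 2 * s ^ 2) + s) ^ 2 ≤ (1.3348 - 0.4 * (s - 0.2785)) ^ 2 :=
    pow_le_pow_left₀ h8.le h7 2
  nlinarith

/-- three points far out force a small angle -/
lemma th_core {s c : ℝ} {n : V} (hsc : s ^ 2 + c ^ 2 = 1) (hs : 0 < s) (hle : s ≤ c)
    {P Q S : Pt V} (hP : InB s c n P) (hQ : InB s c n Q) (hS : InB s c n S)
    (hPQ : Far P Q) (hPS : Far P S) (hQS : Far Q S)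
    (h1 : √2 < c * P.x + s * P.y) (h2 : √2 < c * Q.x + s * Q.y) (h3 : √2 < c * S.x + s * S.y)
    (hbig : s ^ 2 < 0.1128) : s ^ 2 ≤ 0.0776 := by
  by_contra hcon; push Not at hcon
  have hc : 0 < c := lt_of_lt_of_le hs hle
  have x1 := x_low hsc hs hc hcon hbig hP h1
  have x2 := x_low hsc hs hc hcon hbig hQ h2
  have x3 := x_low hsc hs hc hcon hbig hS h3
  have hup : ∀ R : Pt V, InB s c n R → R.x ≤ 3.59 := by
    intro R hR
    have h4 := inB_avg hR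
    have h5 : s ^ 2 * R.x ^ 2 ≤ 1 := by
      have : 0 ≤ ‖R.z‖ ^ 2 := by positivity
      have : 0 ≤ c ^ 2 * R.y ^ 2 := by positivity
      linarith
    by_contra h; push Not at h
    nlinarith
  have hpair : ∀ A B : Pt V, InB s c n A → InB s c n B → Far A B → 1.25 ≤ A.x → 1.25 ≤ B.x →
      0.16825 * (A.x ^ 2 + B.x ^ 2 - 2) < (B.x - A.x) ^ 2 := by
    intro A B hA hB hAB hxA hxB
    have h4 := pair_x hsc hc hA hB hAB
    have h5 : 0 < A.x ^ 2 + B.x ^ 2 - 2 := by nlinarith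
    have h6 : c ^ 2 < 0.9224 := by linarith
    have h7 : 0.9224 * (0.16825 * (A.x ^ 2 + B.x ^ 2 - 2)) ≤ 2 * s ^ 2 * (A.x ^ 2 + B.x ^ 2 - 2) := by
      nlinarith
    have h8 : c ^ 2 * (A.x - B.x) ^ 2 ≤ 0.9224 * (B.x - A.x) ^ 2 := by
      have : (A.x - B.x) ^ 2 = (B.x - A.x) ^ 2 := by ring
      rw [this]
      exact mul_le_mul_of_nonneg_right h6.le (sq_nonneg _)
    linarith
  have key : ∀ A B C : Pt V, InB s c n A → InB s c n B → InB s c n C → Far A B → Far B C →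
      1.25 ≤ A.x → 1.25 ≤ B.x → 1.25 ≤ C.x → A.x ≤ B.x → B.x ≤ C.x → False := by
    intro A B C hA hB hC hAB hBC a1 a2 a3 a4 a5
    exact three_reals a1 a4 a5 (hup C hC) (hpair A B hA hB hAB a1 a2) (hpair B C hB hC hBC a2 a3)
  rcases le_total P.x Q.x with u | u <;> rcases le_total Q.x S.x with v | v <;>
    rcases le_total P.x S.x with w | w
  · exact key P Q S hP hQ hS hPQ hQS x1 x2 x3 u v
  · exact key P Q S hP hQ hS hPQ hQS x1 x2 x3 u v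
  · exact key P S Q hP hS hQ hPS hQS.symm x1 x3 x2 w v
  · exact key S P Q hS hP hQ hPS.symm hPQ x3 x1 x2 w u
  · exact key Q P S hQ hP hS hPQ.symm hPS x2 x1 x3 u w
  · exact key Q S P hQ hS hP hQS hPS.symm x2 x3 x1 v w
  · exact key S Q P hS hQ hP hQS.symm hPQ.symm x3 x2 x1 v u
  · exact key S Q P hS hQ hP hQS.symm hPQ.symm x3 x2 x1 v u

/-- planar: the upper corner region has diameter less than two -/
lemma top_region {s c : ℝ} (hsc : s ^ 2 + c ^ 2 = 1) (hs : 0 < s) (hc : 0 < c) (hs4 : s ^ 2 < 1 / 4)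
    {x y x' y' : ℝ} (h1 : c * y + s * |x| ≤ 1) (h2 : c * y' + s * |x'| ≤ 1)
    (h3 : 2 * c ^ 2 - 1 ≤ c * y) (h4 : 2 * c ^ 2 - 1 ≤ c * y') :
    (x - x') ^ 2 + (y - y') ^ 2 < 4 := by
  -- put a = 1 - c y, b = 1 - c y'
  set a := 1 - c * y with ha
  set b := 1 - c * y' with hb
  have ha0 : 0 ≤ a := by have : 0 ≤ s * |x| := by positivity
                         linarith
  have hb0 : 0 ≤ b := by have : 0 ≤ s * |x'| := by positivity
                         linarith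
  have ha1 : a ≤ 2 * s ^ 2 := by linarith
  have hb1 : b ≤ 2 * s ^ 2 := by linarith
  have hx : s * |x| ≤ a := by linarith
  have hx' : s * |x'| ≤ b := by linarith
  have h5 : s * |x - x'| ≤ a + b := by
    have : |x - x'| ≤ |x| + |x'| := abs_sub x x'
    nlinarith
  have h6 : s ^ 2 * (x - x') ^ 2 ≤ (a + b) ^ 2 := by
    have h7 : (s * |x - x'|) ^ 2 ≤ (a + b) ^ 2 := pow_le_pow_left₀ (by positivity) h5 2
    rwa [mul_pow, sq_abs] at h7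
  have h7 : c ^ 2 * (y - y') ^ 2 = (a - b) ^ 2 := by rw [ha, hb]; ring
  have hc2 : 0 < c ^ 2 := by positivity
  have hs2 : 0 < s ^ 2 := by positivity
  -- s²c² dist² ≤ c² (a+b)² + s² (a-b)² = a² + b² + 2(c²-s²)ab ≤ 8 s⁴ (1 + c² - s²)= 16 s⁴ c²
  have h8 : s ^ 2 * c ^ 2 * ((x - x') ^ 2 + (y - y') ^ 2) ≤ c ^ 2 * (a + b) ^ 2 + s ^ 2 * (a - b) ^ 2 := by
    rw [← h7]
    nlinarith
  have h9 : c ^ 2 * (a + b) ^ 2 + s ^ 2 * (a - b) ^ 2 = a ^ 2 + b ^ 2 + 2 * (c ^ 2 - s ^ 2) * (a * b) := by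
    have : c ^ 2 = 1 - s ^ 2 := by linarith
    rw [this]; ring
  have h10 : a ^ 2 ≤ (2 * s ^ 2) ^ 2 := pow_le_pow_left₀ ha0 ha1 2
  have h11 : b ^ 2 ≤ (2 * s ^ 2) ^ 2 := pow_le_pow_left₀ hb0 hb1 2
  have h12 : a * b ≤ (2 * s ^ 2) * (2 * s ^ 2) := mul_le_mul ha1 hb1 hb0 (by positivity)
  have h13 : 0 < c ^ 2 - s ^ 2 := by linarith
  have h14 : 2 * (c ^ 2 - s ^ 2) * (a * b) ≤ 2 * (c ^ 2 - s ^ 2) * ((2 * s ^ 2) * (2 * s ^ 2)) :=
    mul_le_mul_of_nonneg_left h12 (by linarith)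
  have h15 : s ^ 2 * c ^ 2 * ((x - x') ^ 2 + (y - y') ^ 2) ≤ s ^ 2 * c ^ 2 * (16 * s ^ 2) := by
    have : (2 * s ^ 2) ^ 2 + (2 * s ^ 2) ^ 2 + 2 * (c ^ 2 - s ^ 2) * ((2 * s ^ 2) * (2 * s ^ 2)) =
        s ^ 2 * c ^ 2 * (16 * s ^ 2) := by
      have : c ^ 2 = 1 - s ^ 2 := by linarith
      rw [this]; ring
    linarith
  have h16 := le_of_mul_le_mul_left h15 (by positivity)
  linarith

/-- planar: points in the same quarter of the rhombus are close -/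
lemma quarter {s c : ℝ} (hsc : s ^ 2 + c ^ 2 = 1) (hs : 0 < s) (hle : s ≤ c) (hs4 : 1 / 4 ≤ s ^ 2)
    {x y x' y' : ℝ} (ha : |(c * y - s * x) - (c * y' - s * x')| ≤ 1)
    (hb : |(c * y + s * x) - (c * y' + s * x')| ≤ 1) : (x - x') ^ 2 + (y - y') ^ 2 ≤ 4 := by
  have hc : 0 < c := lt_of_lt_of_le hs hle
  set A := (c * y - s * x) - (c * y' - s * x') with hA
  set B := (c * y + s * x) - (c * y' + s * x') with hB
  have h1 : 2 * s * (x - x') = B - A := by rw [hA, hB]; ring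
  have h2 : 2 * c * (y - y') = B + A := by rw [hA, hB]; ring
  have ha2 : A ^ 2 ≤ 1 := by rw [← sq_abs]; nlinarith [abs_nonneg A]
  have hb2 : B ^ 2 ≤ 1 := by rw [← sq_abs]; nlinarith [abs_nonneg B]
  have hc4 : 1 / 2 ≤ c ^ 2 := by
    have : s ^ 2 ≤ c ^ 2 := pow_le_pow_left₀ hs.le hle 2
    linarith
  have h3 : (x - x') ^ 2 ≤ (B - A) ^ 2 := by
    have : (2 * s * (x - x')) ^ 2 = 4 * s ^ 2 * (x - x') ^ 2 := by ring
    rw [← h1, this]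
    nlinarith [sq_nonneg (x - x')]
  have h4 : 2 * (y - y') ^ 2 ≤ (B + A) ^ 2 := by
    have : (2 * c * (y - y')) ^ 2 = 4 * c ^ 2 * (y - y') ^ 2 := by ring
    rw [← h2, this]
    nlinarith [sq_nonneg (y - y')]
  nlinarith [sq_nonneg (A + B)]

end Pool.Agent.H90Dz
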