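import Pool.Agent.H90Dz.Basic
import Pool.Agent.H90Dz.Coord3

/-!
Coordinates adapted to two non-parallel lines.
-/

set_option autoImplicit false

namespace Pool.Agent.H90Dz

open Module

variable {V : Type*} [NormedAddCommGroup V] [InnerProductSpace ℝ V]

/-- the part orthogonal to `e1`, `e2` -/
noncomputable def perp (e1 e2 v : V) : V := v - (inner ℝ v e1 : ℝ) • e1 - (inner ℝ v e2 : ℝ) • e2

lemma perp_sub (e1 e2 v w : V) : perp e1 e2 (v - w) = perp e1 e2 v - perp e1 e2 w := by
  unfold perp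
  simp only [inner_sub_left, sub_smul]
  abel

lemma perp_add (e1 e2 v w : V) : perp e1 e2 (v + w) = perp e1 e2 v + perp e1 e2 w := by
  unfold perp
  simp only [inner_add_left, add_smul]
  abel

section

variable {e1 e2 : V}

lemma perp_inner1 (h1 : ‖e1‖ = 1) (h12 : inner ℝ e1 e2 = 0) (v : V) :
    inner ℝ (perp e1 e2 v) e1 = 0 := by
  unfold perp
  have h21 : inner ℝ e2 e1 = (0 : ℝ) := by rw [real_inner_comm]; exact h12
  simp only [inner_sub_left, inner_smul_left, real_inner_self_eq_norm_sq, h1, h21]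
  simp

lemma perp_inner2 (h2 : ‖e2‖ = 1) (h12 : inner ℝ e1 e2 = 0) (v : V) :
    inner ℝ (perp e1 e2 v) e2 = 0 := by
  unfold perp
  simp only [inner_sub_left, inner_smul_left, real_inner_self_eq_norm_sq, h2, h12]
  simp

lemma norm_sq_perp (h1 : ‖e1‖ = 1) (h2 : ‖e2‖ = 1) (h12 : inner ℝ e1 e2 = 0) (v : V) :
    ‖v‖ ^ 2 = (inner ℝ v e1) ^ 2 + (inner ℝ v e2) ^ 2 + ‖perp e1 e2 v‖ ^ 2 := by
  have hv : v = (inner ℝ v e1 : ℝ) • e1 + (inner ℝ v e2 : ℝ) • e2 + perp e1 e2 v := by
    unfold perp; abel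
  have p1 := perp_inner1 h1 h12 v
  have p2 := perp_inner2 h2 h12 v
  conv_lhs => rw [hv]
  rw [norm_add_sq_real, norm_add_sq_real, norm_smul, norm_smul, h1, h2, inner_add_left,
    inner_smul_left, inner_smul_left, inner_smul_left, inner_smul_right, h12,
    real_inner_comm _ e1, p1, real_inner_comm _ e2, p2]
  simp [sq_abs]

lemma perp_eq_zero [FiniteDimensional ℝ V] (hfin : finrank ℝ V = 2) (h1 : ‖e1‖ = 1) (h2 : ‖e2‖ = 1)
    (h12 : inner ℝ e1 e2 = 0) (v : V) : perp e1 e2 v = 0 := by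
  have hon : Orthonormal ℝ ![e1, e2] := by
    rw [orthonormal_iff_ite]
    have h21 : inner ℝ e2 e1 = (0 : ℝ) := by rw [real_inner_comm]; exact h12
    intro i j
    fin_cases i <;> fin_cases j <;> simp [h1, h2, h12, h21]
  have hspan : Submodule.span ℝ (Set.range ![e1, e2]) = ⊤ := by
    apply Submodule.eq_top_of_finrank_eq
    rw [finrank_span_eq_card hon.linearIndependent, hfin]
    simp
  have hmem : ∀ w : V, inner ℝ (perp e1 e2 v) w = (0 : ℝ) := by
    intro w
    have hw : w ∈ Submodule.span ℝ (Set.range ![e1, e2]) := by rw [hspan]; trivial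
    induction hw using Submodule.span_induction with
    | mem x hx =>
      obtain ⟨i, rfl⟩ := hx
      fin_cases i
      · exact perp_inner1 h1 h12 v
      · exact perp_inner2 h2 h12 v
    | zero => simp
    | add x y _ _ hx hy => rw [inner_add_right, hx, hy, add_zero]
    | smul a x _ hx => rw [inner_smul_right, hx, mul_zero]
  exact inner_self_eq_zero.mp (hmem _)

end

lemma exists_coords [FiniteDimensional ℝ V] {l l' : V × V} (hl : IsLine l) (hl' : IsLine l')
    (h0 : 0 ≤ inner ℝ l.2 l'.2) (h1 : inner ℝ l.2 l'.2 < (1 : ℝ)) :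
    ∃ (s c : ℝ) (n : V) (f : V → Pt V) (k k' : ℝ), 0 < s ∧ s ≤ c ∧ s ^ 2 + c ^ 2 = 1 ∧
      (∀ X, ‖cv l X‖ ^ 2 = (c * (f X).y - s * (f X).x) ^ 2 + ‖(f X).z - n‖ ^ 2) ∧
      (∀ X, ‖cv l' X‖ ^ 2 = (c * (f X).y + s * (f X).x) ^ 2 + ‖(f X).z + n‖ ^ 2) ∧
      (∀ X Y, dist X Y ^ 2 = ((f X).x - (f Y).x) ^ 2 + ((f X).y - (f Y).y) ^ 2 +
        ‖(f X).z - (f Y).z‖ ^ 2) ∧
      (∀ X, ht l X = c * (f X).x + s * (f X).y + k) ∧
      (∀ X, ht l' X = c * (f X).x - s * (f X).y + k') ∧
      (finrank ℝ V = 2 → (∀ X, (f X).z = 0) ∧ n = 0) := by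
  obtain ⟨p, u⟩ := l
  obtain ⟨p', u'⟩ := l'
  obtain ⟨hu, hpu⟩ := hl
  obtain ⟨hu', hpu'⟩ := hl'
  simp only at hu hpu hu' hpu' h0 h1
  set κ : ℝ := inner ℝ u u' with hκ
  have huu : inner ℝ u u = (1 : ℝ) := by rw [real_inner_self_eq_norm_sq, hu]; norm_num
  have huu' : inner ℝ u' u' = (1 : ℝ) := by rw [real_inner_self_eq_norm_sq, hu']; norm_num
  have hκ' : inner ℝ u' u = κ := by rw [real_inner_comm]
  set c := √((1 + κ) / 2) with hc
  set s := √((1 - κ) / 2) with hs
  have hc2 : c ^ 2 = (1 + κ) / 2 := Real.sq_sqrt (by linarith)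
  have hs2 : s ^ 2 = (1 - κ) / 2 := Real.sq_sqrt (by linarith)
  have hcpos : 0 < c := Real.sqrt_pos.mpr (by linarith)
  have hspos : 0 < s := Real.sqrt_pos.mpr (by linarith)
  have hle : s ≤ c := Real.sqrt_le_sqrt (by linarith)
  set e1 : V := (1 / (2 * c)) • (u + u') with he1
  set e2 : V := (1 / (2 * s)) • (u - u') with he2
  have hn1 : ‖e1‖ = 1 := by
    have : ‖e1‖ ^ 2 = 1 := by
      rw [he1, norm_smul, mul_pow, norm_add_sq_real, hu, hu', ← hκ, Real.norm_eq_abs, sq_abs,
        div_pow, mul_pow, hc2]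
      field_simp
      ring
    nlinarith [norm_nonneg e1]
  have hn2 : ‖e2‖ = 1 := by
    have : ‖e2‖ ^ 2 = 1 := by
      have hne : 1 - κ ≠ 0 := by linarith
      rw [he2, norm_smul, mul_pow, norm_sub_sq_real, hu, hu', ← hκ, Real.norm_eq_abs, sq_abs,
        div_pow, mul_pow, hs2]
      field_simp
      ring
    nlinarith [norm_nonneg e2]
  have h12 : inner ℝ e1 e2 = (0 : ℝ) := by
    rw [he1, he2, inner_smul_left, inner_smul_right, inner_add_left, inner_sub_right,
      inner_sub_right, huu, huu', hκ', ← hκ]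
    simp
  have hue : u = c • e1 + s • e2 := by
    rw [he1, he2, smul_smul, smul_smul]
    have a1 : c * (1 / (2 * c)) = 1 / 2 := by field_simp
    have a2 : s * (1 / (2 * s)) = 1 / 2 := by field_simp
    rw [a1, a2]; module
  have hue' : u' = c • e1 - s • e2 := by
    rw [he1, he2, smul_smul, smul_smul]
    have a1 : c * (1 / (2 * c)) = 1 / 2 := by field_simp
    have a2 : s * (1 / (2 * s)) = 1 / 2 := by field_simp
    rw [a1, a2]; module
  clear_value e1 e2
  set g : ℝ := -s * inner ℝ p e1 + c * inner ℝ p e2 with hg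
  set g' : ℝ := s * inner ℝ p' e1 + c * inner ℝ p' e2 with hg'
  set b : ℝ := (g + g') / (2 * c) with hb
  set a : ℝ := (g' - g) / (2 * s) with ha
  have hab1 : -s * a + c * b = g := by rw [ha, hb]; field_simp; ring
  have hab2 : s * a + c * b = g' := by rw [ha, hb]; field_simp; ring
  set n : V := (1 / 2 : ℝ) • (perp e1 e2 p - perp e1 e2 p') with hn
  set w : V := (1 / 2 : ℝ) • (perp e1 e2 p + perp e1 e2 p') with hw
  refine ⟨s, c, n, fun X => ⟨inner ℝ X e1 - a, inner ℝ X e2 - b, perp e1 e2 X - w⟩,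
    c * a + s * b, c * a - s * b, hspos, hle, by rw [hc2, hs2]; ring, ?_, ?_, ?_, ?_, ?_, ?_⟩
  · intro X
    have h2 := cv_norm_sq (l := (p, u)) ⟨hu, hpu⟩ X
    simp only at h2
    have h3 := norm_sq_perp hn1 hn2 h12 (X - p)
    have h4 : ht (p, u) X = c * inner ℝ (X - p) e1 + s * inner ℝ (X - p) e2 := by
      have h5 : ht (p, u) X = inner ℝ (X - p) u := by
        unfold ht; rw [inner_sub_left, hpu, sub_zero]
      rw [h5]
      conv_lhs => rw [hue]
      rw [inner_add_right, inner_smul_right, inner_smul_right]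
    have h5 : perp e1 e2 X - w - n = perp e1 e2 (X - p) := by
      rw [perp_sub, hw, hn]; module
    simp only
    rw [h2, h3, h4, h5]
    have h6 : c * (inner ℝ X e2 - b) - s * (inner ℝ X e1 - a) =
        c * inner ℝ (X - p) e2 - s * inner ℝ (X - p) e1 := by
      rw [inner_sub_left, inner_sub_left]
      linarith [hab1]
    rw [h6]
    have h7 : c ^ 2 = 1 - s ^ 2 := by rw [hc2, hs2]; ring
    ring_nf
    rw [h7]; ring
  · intro X
    have h2 := cv_norm_sq (l := (p', u')) ⟨hu', hpu'⟩ X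
    simp only at h2
    have h3 := norm_sq_perp hn1 hn2 h12 (X - p')
    have h4 : ht (p', u') X = c * inner ℝ (X - p') e1 - s * inner ℝ (X - p') e2 := by
      have h5 : ht (p', u') X = inner ℝ (X - p') u' := by
        unfold ht; rw [inner_sub_left, hpu', sub_zero]
      rw [h5]
      conv_lhs => rw [hue']
      rw [inner_sub_right, inner_smul_right, inner_smul_right]
    have h5 : perp e1 e2 X - w + n = perp e1 e2 (X - p') := by
      rw [perp_sub, hw, hn]; module
    simp only
    rw [h2, h3, h4, h5]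
    have h6 : c * (inner ℝ X e2 - b) + s * (inner ℝ X e1 - a) =
        c * inner ℝ (X - p') e2 + s * inner ℝ (X - p') e1 := by
      rw [inner_sub_left, inner_sub_left]
      linarith [hab2]
    rw [h6]
    have h7 : c ^ 2 = 1 - s ^ 2 := by rw [hc2, hs2]; ring
    ring_nf
    rw [h7]; ring
  · intro X Y
    rw [dist_eq_norm, norm_sq_perp hn1 hn2 h12 (X - Y), perp_sub, inner_sub_left, inner_sub_left]
    simp only
    have e1' : perp e1 e2 X - w - (perp e1 e2 Y - w) = perp e1 e2 X - perp e1 e2 Y := by abel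
    rw [e1']
    ring
  · intro X
    unfold ht
    simp only
    conv_lhs => rw [hue]
    rw [inner_add_right, inner_smul_right, inner_smul_right]
    ring
  · intro X
    unfold ht
    simp only
    conv_lhs => rw [hue']
    rw [inner_sub_right, inner_smul_right, inner_smul_right]
    ring
  · intro hfin
    have hz : ∀ v, perp e1 e2 v = 0 := perp_eq_zero hfin hn1 hn2 h12
    constructor
    · intro X; simp only; rw [hz, hw, hz, hz]; simp
    · rw [hn, hz, hz]; simp

end Pool.Agent.H90Dz
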