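import Pool.Agent.H90Dz.Pin

/-!
A weak form of the Hadwiger type theorem: a family that is minimal without a line transversal in
a prescribed order has at most `2 d + 1` members.
-/

set_option autoImplicit false

namespace Pool.Agent.H90Dz

open Module

variable {V : Type*} [NormedAddCommGroup V] [InnerProductSpace ℝ V] [FiniteDimensional ℝ V]

theorem hadwiger [DecidableEq V] {T : Finset V} (hd : 2 ≤ finrank ℝ V) {R : V → V → Prop}
    (hR : ∀ a ∈ T, ∀ b ∈ T, a ≠ b → R a b ∨ R b a) {r : ℝ}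
    (hdist : ∀ a ∈ T, ∀ b ∈ T, a ≠ b → 2 * r < dist a b)
    (h1 : ¬ ∃ l, IsLine l ∧ Cons R l T ∧ Tr l T r)
    (h2 : ∀ C ∈ T, ∃ l, IsLine l ∧ Cons R l (T.erase C) ∧ Tr l (T.erase C) r) :
    T.card ≤ 2 * finrank ℝ V + 1 := by
  by_contra hcon
  push Not at hcon
  have hne : ∀ C ∈ T, (T.erase C).Nonempty := fun C hC => by
    rw [← Finset.card_pos, Finset.card_erase_of_mem hC]; omega
  have hopt : ∀ C : V, ∃ lρ : (V × V) × ℝ, C ∈ T → 0 ≤ lρ.2 ∧ lρ.2 ≤ r ∧ IsLine lρ.1 ∧
      Cons R lρ.1 (T.erase C) ∧ Tr lρ.1 (T.erase C) lρ.2 ∧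
      ∀ l', IsLine l' → Cons R l' (T.erase C) → ∃ x ∈ T.erase C, lρ.2 ≤ ‖cv l' x‖ := by
    intro C
    by_cases hC : C ∈ T
    · obtain ⟨l, ρ, h⟩ := exists_opt (hne C hC) (h2 C hC)
      exact ⟨(l, ρ), fun _ => h⟩
    · exact ⟨((0, 0), 0), fun h => absurd h hC⟩
  choose F hF using hopt
  have hTne : T.Nonempty := by rw [← Finset.card_pos]; omega
  obtain ⟨C₁, hC₁, hmax⟩ := T.exists_max_image (fun C => (F C).2) hTne
  obtain ⟨g1, g2, g3, g4, g5, g6⟩ := hF C₁ hC₁
  have hcardE : (T.erase C₁).card = T.card - 1 := Finset.card_erase_of_mem hC₁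
  obtain ⟨H, hH, hHc, hHu⟩ := pin (T := T.erase C₁) (by omega) hd
    (fun a ha b hb => hR a (Finset.mem_of_mem_erase ha) b (Finset.mem_of_mem_erase hb)) g3 g4 g1 g5
    (fun a ha b hb hab => by
      have := hdist a (Finset.mem_of_mem_erase ha) b (Finset.mem_of_mem_erase hb) hab
      linarith) g6
  -- two further elements
  have hcard2 : 1 < (T \ (insert C₁ H)).card := by
    have h3 := Finset.le_card_sdiff (insert C₁ H) T
    have h4 := Finset.card_insert_le C₁ H
    omega
  obtain ⟨C, hC, C', hC', hCC'⟩ := Finset.one_lt_card.mp hcard2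
  rw [Finset.mem_sdiff, Finset.mem_insert] at hC hC'
  push Not at hC hC'
  have hsame : ∀ D ∈ T, D ≠ C₁ → D ∉ H → (F D).1 = (F C₁).1 := by
    intro D hD hD1 hDH
    obtain ⟨k1, k2, k3, k4, k5, k6⟩ := hF D hD
    have hsub : H ⊆ T.erase D := by
      intro x hx
      exact Finset.mem_erase.mpr ⟨fun h => hDH (h ▸ hx), Finset.mem_of_mem_erase (hH hx)⟩
    exact hHu _ k3 (k4.mono hsub) ((k5.mono hsub).mono_r (hmax D hD))
  have s1 := hsame C hC.1 hC.2.1 hC.2.2
  have s2 := hsame C' hC'.1 hC'.2.1 hC'.2.2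
  refine h1 ⟨(F C₁).1, g3, ?_, ?_⟩
  · intro a ha b hb hab
    by_cases e1 : C₁ = a ∨ C₁ = b
    · by_cases e2 : C = a ∨ C = b
      · have e3 : C' ≠ a ∧ C' ≠ b := by
          constructor
          · rintro rfl
            rcases e1 with e1 | e1
            · exact hC'.2.1 e1.symm
            · rcases e2 with e2 | e2
              · exact hCC' e2
              · exact hC.2.1 (e2.trans e1.symm)
          · rintro rfl
            rcases e1 with e1 | e1
            · rcases e2 with e2 | e2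
              · exact hC.2.1 (e2.trans e1.symm)
              · exact hCC' e2
            · exact hC'.2.1 e1.symm
        have := (hF C' hC'.1).2.2.2.1
        rw [s2] at this
        exact this a (Finset.mem_erase.mpr ⟨e3.1.symm, ha⟩) b (Finset.mem_erase.mpr ⟨e3.2.symm, hb⟩) hab
      · push Not at e2
        have := (hF C hC.1).2.2.2.1
        rw [s1] at this
        exact this a (Finset.mem_erase.mpr ⟨e2.1.symm, ha⟩) b (Finset.mem_erase.mpr ⟨e2.2.symm, hb⟩) hab
    · push Not at e1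
      exact g4 a (Finset.mem_erase.mpr ⟨e1.1.symm, ha⟩) b (Finset.mem_erase.mpr ⟨e1.2.symm, hb⟩) hab
  · intro x hx
    by_cases e1 : x = C₁
    · have h3 := (hF C hC.1).2.2.2.2.1 x
        (Finset.mem_erase.mpr ⟨fun h => hC.2.1 (h.symm.trans e1), hx⟩)
      rw [s1] at h3
      exact h3.trans (hF C hC.1).2.1
    · exact (g5 x (Finset.mem_erase.mpr ⟨e1, hx⟩)).trans g2

end Pool.Agent.H90Dz
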