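import Pool.Agent.H90Dz.Star

/-!
The Helly number for line transversals of disjoint unit balls is at most `4 d - 1`.
-/

set_option autoImplicit false

namespace Pool.Agent.H90Dz

open Module

variable {V : Type*} [NormedAddCommGroup V] [InnerProductSpace ℝ V]
variable [FiniteDimensional ℝ V]

/-- the transversals of a critical family are finitely many -/
lemma finite_lines {G : Finset V} (hd : 2 ≤ finrank ℝ V) (hG : 2 ≤ G.card)
    (hdist : ∀ x ∈ G, ∀ y ∈ G, x ≠ y → 2 < dist x y)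
    (hmin : ∀ l, IsLine l → ∃ x ∈ G, 1 ≤ ‖cv l x‖) :
    {l : V × V | IsLine l ∧ Tr l G 1}.Finite := by
  classical
  have hdist' : ∀ x ∈ G, ∀ y ∈ G, x ≠ y → 2 * (1 : ℝ) < dist x y := fun x hx y hy h => by
    have := hdist x hx y hy h; linarith
  set F : V × V → Finset (V × V) := fun l => (G ×ˢ G).filter fun p => ht l p.1 < ht l p.2 with hF
  apply Set.Finite.of_finite_image (f := F)
  · apply ((G ×ˢ G).powerset.finite_toSet).subset
    rintro _ ⟨l, _, rfl⟩
    rw [Finset.mem_coe, Finset.mem_powerset]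
    exact Finset.filter_subset _ _
  · intro l hl l' hl' heq
    obtain ⟨hl1, hl2⟩ := hl
    obtain ⟨hl1', hl2'⟩ := hl'
    have hne : ∀ x ∈ G, ∀ y ∈ G, x ≠ y → ht l x ≠ ht l y := fun x hx y hy hxy =>
      ht_ne hl1 zero_le_one (hl2 x hx) (hl2 y hy) (hdist' x hx y hy hxy)
    obtain ⟨H, hH, _, hu⟩ := pin (T := G) hG hd (R := fun a b => ht l a < ht l b)
      (fun a ha b hb hab => lt_or_gt_of_ne (hne a ha b hb hab)) hl1
      (fun a _ b _ hab => le_of_lt hab) zero_le_one hl2 hdist' (fun l' h _ => hmin l' h)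
    symm
    apply hu l' hl1' _ (hl2'.mono hH)
    intro a ha b hb hab
    have h1 : (a, b) ∈ F l := by
      rw [hF]; simp only [Finset.mem_filter, Finset.mem_product]
      exact ⟨⟨hH ha, hH hb⟩, hab⟩
    have h2 : F l = F l' := heq
    rw [h2, hF] at h1
    simp only [Finset.mem_filter] at h1
    exact h1.2.le

/-- removing a point that does not matter keeps the family critical -/
lemma still_critical [DecidableEq V] {G : Finset V} {C : V} (hCG : C ∈ G) (hne : (G.erase C).Nonempty)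
    (hmin : ∀ l, IsLine l → ∃ x ∈ G, 1 ≤ ‖cv l x‖)
    (hC : ∀ l, IsLine l → Tr l (G.erase C) 1 → Tr l G 1) :
    ∀ l, IsLine l → ∃ x ∈ G.erase C, 1 ≤ ‖cv l x‖ := by
  intro l hl
  by_contra hno
  push Not at hno
  have htr : Tr l G 1 := hC l hl (fun x hx => (hno x hx).le)
  obtain ⟨x, hx, hx1⟩ := hmin l hl
  have hxC : x = C := by
    by_contra h
    exact absurd (hno x (Finset.mem_erase.mpr ⟨h, hx⟩)) (not_lt.mpr hx1)
  subst hxC
  set c := cv l x with hc
  have hc1 : ‖c‖ = 1 := le_antisymm (htr x hCG) hx1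
  obtain ⟨y, hy, hmax⟩ := Finset.exists_max_image (G.erase x) (fun z => ‖cv l z‖) hne
  set ε := 1 - ‖cv l y‖ with hε
  have hεpos : 0 < ε := by have := hno y hy; rw [hε]; linarith
  set l' : V × V := (l.1 - ε • c, l.2) with hl'
  have hline : IsLine l' := by
    refine ⟨hl.1, ?_⟩
    rw [hl']; simp only
    rw [inner_sub_left, inner_smul_left, hl.2, hc, inner_cv hl]; simp
  have hcv : ∀ z, cv l' z = cv l z + ε • c := by
    intro z
    have : ht l' z = ht l z := rfl
    unfold cv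
    rw [this, hl']
    simp only
    abel
  have htr' : Tr l' (G.erase x) 1 := by
    intro z hz
    rw [hcv]
    calc ‖cv l z + ε • c‖ ≤ ‖cv l z‖ + ‖ε • c‖ := norm_add_le _ _
      _ = ‖cv l z‖ + ε := by rw [norm_smul, hc1, mul_one, Real.norm_eq_abs, abs_of_pos hεpos]
      _ ≤ ‖cv l y‖ + ε := by gcongr; exact hmax z hz
      _ = 1 := by rw [hε]; ring
  have h1 := hC l' hline htr' x hCG
  rw [hcv, ← hc] at h1
  have h2 : c + ε • c = (1 + ε) • c := by rw [add_smul, one_smul]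
  rw [h2, norm_smul, hc1, mul_one, Real.norm_eq_abs, abs_of_pos (by linarith)] at h1
  linarith

/-- the main theorem at critical radius one -/
theorem helly_crit {S : Finset V} (hd : 2 ≤ finrank ℝ V)
    (hdist : ∀ x ∈ S, ∀ y ∈ S, x ≠ y → 2 < dist x y)
    (hT : ∀ T ⊆ S, T.card + 1 ≤ 4 * finrank ℝ V → ∃ l, IsLine l ∧ Tr l T 1)
    (hcrit : ∃ G ⊆ S, G.card + 1 ≤ 4 * finrank ℝ V ∧ ∀ l, IsLine l → ∃ x ∈ G, 1 ≤ ‖cv l x‖) :
    ∃ l, IsLine l ∧ Tr l S 1 := by
  classical
  by_cases hS : S.card + 1 ≤ 4 * finrank ℝ V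
  · exact hT S (Finset.Subset.refl _) hS
  push Not at hS
  set 𝒢 := S.powerset.filter fun G => G.card + 1 ≤ 4 * finrank ℝ V ∧ 2 ≤ G.card ∧
    ∀ l, IsLine l → ∃ x ∈ G, 1 ≤ ‖cv l x‖ with h𝒢
  have hGne : 𝒢.Nonempty := by
    obtain ⟨G₀, hG₀, hG₀c, hG₀m⟩ := hcrit
    -- extend G₀ to a set of size 4 d - 1
    obtain ⟨G₁, h1, h2, h3⟩ := Finset.exists_subsuperset_card_eq hG₀ (n := 4 * finrank ℝ V - 1)
      (by omega) (by omega)
    refine ⟨G₁, ?_⟩
    rw [h𝒢, Finset.mem_filter, Finset.mem_powerset]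
    refine ⟨h2, by omega, by omega, fun l hl => ?_⟩
    obtain ⟨x, hx, hx1⟩ := hG₀m l hl
    exact ⟨x, h1 hx, hx1⟩
  obtain ⟨G, hG, hmin⟩ := Finset.exists_min_image 𝒢
    (fun G => {l : V × V | IsLine l ∧ Tr l G 1}.ncard) hGne
  rw [h𝒢, Finset.mem_filter, Finset.mem_powerset] at hG
  obtain ⟨hGS, hGc, hG2, hGm⟩ := hG
  have hGdist : ∀ x ∈ G, ∀ y ∈ G, x ≠ y → 2 < dist x y := fun x hx y hy =>
    hdist x (hGS hx) y (hGS hy)
  -- a smaller set with the same transversals
  have hsmall : ∃ G' ⊆ G, G'.card + 2 ≤ 4 * finrank ℝ V ∧ 1 ≤ G'.card ∧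
      (∀ l, IsLine l → ∃ x ∈ G', 1 ≤ ‖cv l x‖) ∧
      ∀ l, IsLine l → Tr l G' 1 → Tr l G 1 := by
    by_cases hGc' : G.card + 1 = 4 * finrank ℝ V
    · obtain ⟨C, hC, hCl⟩ := star hd hGc' hGdist (hT G hGS hGc) hGm
      have hcE : (G.erase C).card = G.card - 1 := Finset.card_erase_of_mem hC
      refine ⟨G.erase C, Finset.erase_subset _ _, by omega, by omega, ?_, hCl⟩
      exact still_critical hC (by rw [← Finset.card_pos]; omega) hGm hCl
    · exact ⟨G, Finset.Subset.refl _, by omega, by omega, hGm, fun _ _ h => h⟩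
  obtain ⟨G', hG'G, hG'c, hG'1, hG'm, hG'l⟩ := hsmall
  obtain ⟨l, hl, hltr⟩ := hT G hGS hGc
  refine ⟨l, hl, ?_⟩
  intro B hB
  by_cases hBG : B ∈ G
  · exact hltr B hBG
  set G'' := insert B G' with hG''
  have hBG' : B ∉ G' := fun h => hBG (hG'G h)
  have hcard'' : G''.card = G'.card + 1 := Finset.card_insert_of_notMem hBG'
  have hG''S : G'' ⊆ S := by
    intro x hx
    rw [hG'', Finset.mem_insert] at hx
    rcases hx with rfl | hx
    · exact hB
    · exact hGS (hG'G hx)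
  have hmem : G'' ∈ 𝒢 := by
    rw [h𝒢, Finset.mem_filter, Finset.mem_powerset]
    refine ⟨hG''S, by omega, by omega, fun l hl => ?_⟩
    obtain ⟨x, hx, hx1⟩ := hG'm l hl
    exact ⟨x, Finset.mem_insert_of_mem hx, hx1⟩
  have hle := hmin G'' hmem
  have hsub : {l : V × V | IsLine l ∧ Tr l G'' 1} ⊆ {l : V × V | IsLine l ∧ Tr l G 1} := by
    rintro l ⟨h1, h2⟩
    exact ⟨h1, hG'l l h1 (h2.mono (Finset.subset_insert _ _))⟩
  have hfin := finite_lines hd hG2 hGdist hGm
  have heq := Set.eq_of_subset_of_ncard_le hsub hle hfin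
  have hlm : l ∈ {l : V × V | IsLine l ∧ Tr l G'' 1} := by
    rw [heq]; exact ⟨hl, hltr⟩
  exact hlm.2 B (Finset.mem_insert_self _ _)

/-- scaling of a line -/
def scl (r : ℝ) (l : V × V) : V × V := (r • l.1, l.2)

omit [FiniteDimensional ℝ V] in
lemma scl_isLine {r : ℝ} {l : V × V} (hl : IsLine l) : IsLine (scl r l) :=
  ⟨hl.1, by unfold scl; simp only [inner_smul_left]; rw [hl.2]; simp⟩

omit [FiniteDimensional ℝ V] in
lemma cv_scl (r : ℝ) (l : V × V) (x : V) : cv (scl r l) (r • x) = r • cv l x := by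
  unfold cv ht scl
  simp only [inner_smul_left, smul_sub, smul_smul]
  simp

/-- **Theorem.** For disjoint unit balls in dimension `d ≥ 2`, if every `4 d - 1` of them have a
line transversal then they all have one. -/
theorem helly {S : Finset V} (hd : 2 ≤ finrank ℝ V)
    (hdist : ∀ x ∈ S, ∀ y ∈ S, x ≠ y → 2 < dist x y)
    (hT : ∀ T ⊆ S, T.card + 1 ≤ 4 * finrank ℝ V → ∃ l, IsLine l ∧ Tr l T 1) :
    ∃ l, IsLine l ∧ Tr l S 1 := by
  classical
  by_cases hS : S.card + 1 ≤ 4 * finrank ℝ V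
  · exact hT S (Finset.Subset.refl _) hS
  push Not at hS
  -- optimal radii
  have hopt : ∀ T : Finset V, ∃ lρ : (V × V) × ℝ, T ⊆ S → T.card + 1 ≤ 4 * finrank ℝ V →
      T.Nonempty → 0 ≤ lρ.2 ∧ lρ.2 ≤ 1 ∧ IsLine lρ.1 ∧ Tr lρ.1 T lρ.2 ∧
      ∀ l', IsLine l' → ∃ x ∈ T, lρ.2 ≤ ‖cv l' x‖ := by
    intro T
    by_cases h : T ⊆ S ∧ T.card + 1 ≤ 4 * finrank ℝ V ∧ T.Nonempty
    · obtain ⟨l, hl, htr⟩ := hT T h.1 h.2.1
      obtain ⟨l', ρ, h1, h2, h3, _, h5, h6⟩ := exists_opt h.2.2 (R := fun _ _ => False)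
        ⟨l, hl, fun _ _ _ _ h => absurd h (by simp), htr⟩
      exact ⟨(l', ρ), fun _ _ _ => ⟨h1, h2, h3, h5, fun l'' hl'' =>
        h6 l'' hl'' (fun _ _ _ _ h => absurd h (by simp))⟩⟩
    · refine ⟨((0, 0), 0), fun h1 h2 h3 => absurd ⟨h1, h2, h3⟩ h⟩
  choose F hF using hopt
  set 𝒯 := S.powerset.filter fun T => T.card + 1 ≤ 4 * finrank ℝ V ∧ T.Nonempty with h𝒯
  have hTne : 𝒯.Nonempty := by
    obtain ⟨x, hx⟩ : S.Nonempty := by rw [← Finset.card_pos]; omega
    refine ⟨{x}, ?_⟩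
    rw [h𝒯, Finset.mem_filter, Finset.mem_powerset]
    refine ⟨Finset.singleton_subset_iff.mpr hx, ?_, Finset.singleton_nonempty x⟩
    rw [Finset.card_singleton]; omega
  obtain ⟨T₀, hT₀, hmax⟩ := Finset.exists_max_image 𝒯 (fun T => (F T).2) hTne
  rw [h𝒯, Finset.mem_filter, Finset.mem_powerset] at hT₀
  obtain ⟨hT₀S, hT₀c, hT₀n⟩ := hT₀
  obtain ⟨g1, g2, g3, g4, g5⟩ := hF T₀ hT₀S hT₀c hT₀n
  set r := (F T₀).2 with hr
  have hall : ∀ T ⊆ S, T.card + 1 ≤ 4 * finrank ℝ V → T.Nonempty → ∃ l, IsLine l ∧ Tr l T r := by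
    intro T h1 h2 h3
    obtain ⟨_, _, k3, k4, _⟩ := hF T h1 h2 h3
    refine ⟨(F T).1, k3, k4.mono_r (hmax T ?_)⟩
    rw [h𝒯, Finset.mem_filter, Finset.mem_powerset]
    exact ⟨h1, h2, h3⟩
  rcases g1.lt_or_eq with hr0 | hr0
  · -- scale
    set S' := S.image fun x => r⁻¹ • x with hS'
    have hrinv : 0 < r⁻¹ := inv_pos.mpr hr0
    have hinj : Function.Injective fun x : V => r⁻¹ • x := smul_right_injective V hrinv.ne'
    obtain ⟨l, hl, htr⟩ := helly_crit (S := S') hd (by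
        intro x hx y hy hxy
        obtain ⟨x, hx', rfl⟩ := Finset.mem_image.mp hx
        obtain ⟨y, hy', rfl⟩ := Finset.mem_image.mp hy
        have hne : x ≠ y := by rintro rfl; exact hxy rfl
        have h1 := hdist x hx' y hy' hne
        rw [dist_smul₀, Real.norm_eq_abs, abs_of_pos hrinv]
        have h2 : 1 ≤ r⁻¹ := (one_le_inv₀ hr0).mpr g2
        nlinarith) (by
        intro T hTS hTc
        rcases T.eq_empty_or_nonempty with rfl | hTn
        · exact ⟨(F T₀).1, g3, fun x hx => absurd hx (Finset.notMem_empty x)⟩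
        set T' := T.image fun x => r • x with hT'
        have h1 : T' ⊆ S := by
          intro y hy
          obtain ⟨x, hx, rfl⟩ := Finset.mem_image.mp hy
          obtain ⟨z, hz, rfl⟩ := Finset.mem_image.mp (hTS hx)
          simpa [smul_smul, hr0.ne'] using hz
        obtain ⟨l, hl, htr⟩ := hall T' h1 (by
          have : T'.card ≤ T.card := Finset.card_image_le
          omega) (hTn.image _)
        refine ⟨scl r⁻¹ l, scl_isLine hl, fun x hx => ?_⟩
        have h2 := htr (r • x) (Finset.mem_image_of_mem _ hx)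
        have h3 : x = r⁻¹ • (r • x) := by rw [smul_smul, inv_mul_cancel₀ hr0.ne', one_smul]
        rw [h3, cv_scl, norm_smul, Real.norm_eq_abs, abs_of_pos hrinv]
        rw [inv_mul_le_iff₀ hr0, mul_one]
        exact h2) (by
        refine ⟨T₀.image fun x => r⁻¹ • x, Finset.image_subset_image hT₀S, ?_, ?_⟩
        · have := Finset.card_image_le (s := T₀) (f := fun x => r⁻¹ • x)
          omega
        · intro l hl
          obtain ⟨x, hx, hx1⟩ := g5 (scl r l) (scl_isLine hl)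
          refine ⟨r⁻¹ • x, Finset.mem_image_of_mem _ hx, ?_⟩
          have h3 : x = r • (r⁻¹ • x) := by rw [smul_smul, mul_inv_cancel₀ hr0.ne', one_smul]
          rw [h3, cv_scl, norm_smul, Real.norm_eq_abs, abs_of_pos hr0] at hx1
          by_contra h
          push Not at h
          nlinarith)
    refine ⟨scl r l, scl_isLine hl, fun x hx => ?_⟩
    have h2 := htr (r⁻¹ • x) (Finset.mem_image_of_mem _ hx)
    have h3 : x = r • (r⁻¹ • x) := by rw [smul_smul, mul_inv_cancel₀ hr0.ne', one_smul]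
    rw [h3, cv_scl, norm_smul, Real.norm_eq_abs, abs_of_pos hr0]
    nlinarith [norm_nonneg (cv l (r⁻¹ • x))]
  · -- all collinear
    rw [← hr0] at hall
    obtain ⟨x, hx, y, hy, hxy⟩ := Finset.one_lt_card.mp (by omega : 1 < S.card)
    have hv : y - x ≠ 0 := sub_ne_zero.mpr hxy.symm
    refine ⟨nf x (y - x), nf_isLine x hv, fun z hz => ?_⟩
    obtain ⟨l, hl, htr⟩ := hall {x, y, z} (by
      intro w hw
      simp only [Finset.mem_insert, Finset.mem_singleton] at hw
      rcases hw with rfl | rfl | rfl <;> assumption) (by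
      have : ({x, y, z} : Finset V).card ≤ 3 := Finset.card_le_three
      omega) ⟨x, by simp⟩
    have h1 : cv l x = 0 := norm_le_zero_iff.mp (htr x (by simp))
    have h2 : cv l y = 0 := norm_le_zero_iff.mp (htr y (by simp))
    have h3 : cv l z = 0 := norm_le_zero_iff.mp (htr z (by simp))
    have e1 : y - x = (ht l y - ht l x) • l.2 := by
      have := cv_sub l y x
      rw [h1, h2, sub_zero] at this
      exact (sub_eq_zero.mp this.symm)
    have e2 : z - x = (ht l z - ht l x) • l.2 := by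
      have := cv_sub l z x
      rw [h1, h3, sub_zero] at this
      exact (sub_eq_zero.mp this.symm)
    have hne : ht l y - ht l x ≠ 0 := by
      intro h; rw [h, zero_smul] at e1; exact hv e1
    have h4 := cv_nf_norm_le x hv z ((ht l z - ht l x) / (ht l y - ht l x))
    have h5 : z - (x + ((ht l z - ht l x) / (ht l y - ht l x)) • (y - x)) = 0 := by
      rw [e1, smul_smul, div_mul_cancel₀ _ hne, ← e2]; abel
    rw [h5, norm_zero] at h4
    linarith

/-- the same with lines given by a point and a direction -/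
theorem helly' {S : Finset V} (hd : 2 ≤ finrank ℝ V)
    (hdist : ∀ x ∈ S, ∀ y ∈ S, x ≠ y → 2 < dist x y)
    (hT : ∀ T ⊆ S, T.card + 1 ≤ 4 * finrank ℝ V →
      ∃ p v : V, v ≠ 0 ∧ ∀ c ∈ T, ∃ t : ℝ, dist (p + t • v) c ≤ 1) :
    ∃ p v : V, v ≠ 0 ∧ ∀ c ∈ S, ∃ t : ℝ, dist (p + t • v) c ≤ 1 := by
  obtain ⟨l, hl, htr⟩ := helly hd hdist (fun T hTS hTc => by
    obtain ⟨p, v, hv, h⟩ := hT T hTS hTc
    refine ⟨nf p v, nf_isLine p hv, fun x hx => ?_⟩
    obtain ⟨t, ht⟩ := h x hx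
    refine (cv_nf_norm_le p hv x t).trans ?_
    rw [← dist_eq_norm, dist_comm]; exact ht)
  refine ⟨l.1, l.2, ?_, fun c hc => ⟨ht l c, ?_⟩⟩
  · intro h
    have := hl.1
    rw [h, norm_zero] at this
    norm_num at this
  · rw [dist_comm, dist_eq_norm]
    have : c - (l.1 + ht l c • l.2) = cv l c := by unfold cv; abel
    rw [this]; exact htr c hc

end Pool.Agent.H90Dz
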