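import Pool.Agent.H90Dz.Unique

/-!
Existence of optimal lines, the stationarity condition at an optimal line, and the pinning lemma:
an optimal line is already the unique line of a subfamily of at most `2 d - 1` points.
-/

set_option autoImplicit false

namespace Pool.Agent.H90Dz

open Filter Topology

variable {V : Type*} [NormedAddCommGroup V] [InnerProductSpace ℝ V]

/-- normal form of the line through `p` with direction `v` -/
noncomputable def nf (p v : V) : V × V :=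
  (p - (inner ℝ p ((1 / ‖v‖) • v)) • ((1 / ‖v‖) • v), (1 / ‖v‖) • v)

lemma nf_isLine (p : V) {v : V} (hv : v ≠ 0) : IsLine (nf p v) := by
  have hv' : ‖v‖ ≠ 0 := norm_ne_zero_iff.mpr hv
  have h1 : ‖(1 / ‖v‖) • v‖ = 1 := by
    rw [norm_smul, norm_div, norm_one, norm_norm]; field_simp
  refine ⟨h1, ?_⟩
  unfold nf
  simp only
  rw [inner_sub_left, inner_smul_left, real_inner_self_eq_norm_sq, h1]
  simp

lemma ht_nf (p v x : V) : ht (nf p v) x = inner ℝ x v / ‖v‖ := by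
  unfold ht nf
  simp only [inner_smul_right]
  field_simp

lemma cv_nf (p v x : V) :
    cv (nf p v) x = (x - p) - (inner ℝ (x - p) ((1 / ‖v‖) • v)) • ((1 / ‖v‖) • v) := by
  unfold cv ht nf
  simp only
  rw [inner_sub_left, sub_smul]
  abel

lemma cv_nf_norm_le (p : V) {v : V} (hv : v ≠ 0) (x : V) (t : ℝ) :
    ‖cv (nf p v) x‖ ≤ ‖x - (p + t • v)‖ := by
  have hl := nf_isLine p hv
  have hv' : ‖v‖ ≠ 0 := norm_ne_zero_iff.mpr hv
  set u := (1 / ‖v‖) • v with hu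
  have hun : ‖u‖ = 1 := hl.1
  have hvu : v = ‖v‖ • u := by rw [hu, smul_smul, mul_one_div_cancel hv', one_smul]
  have h1 : x - (p + t • v) = cv (nf p v) x + (inner ℝ (x - p) u - t * ‖v‖) • u := by
    rw [cv_nf, ← hu]
    conv_lhs => rw [hvu]
    rw [smul_smul, sub_smul]; abel
  have h2 : inner ℝ (cv (nf p v) x) ((inner ℝ (x - p) u - t * ‖v‖) • u) = 0 := by
    rw [inner_smul_right]
    have := inner_cv hl x
    have h3 : (nf p v).2 = u := rfl
    rw [h3] at this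
    rw [this, mul_zero]
  have h3 : ‖x - (p + t • v)‖ ^ 2 = ‖cv (nf p v) x‖ ^ 2 +
      ‖(inner ℝ (x - p) u - t * ‖v‖) • u‖ ^ 2 := by
    rw [h1, norm_add_sq_real, h2]; ring
  apply le_of_sq_le_sq _ (norm_nonneg _)
  rw [h3]
  have : 0 ≤ ‖(inner ℝ (x - p) u - t * ‖v‖) • u‖ ^ 2 := by positivity
  linarith

lemma cv_nf_exists (p : V) {v : V} (hv : v ≠ 0) (x : V) :
    ∃ t : ℝ, ‖x - (p + t • v)‖ = ‖cv (nf p v) x‖ := by
  have hv' : ‖v‖ ≠ 0 := norm_ne_zero_iff.mpr hv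
  refine ⟨(inner ℝ (x - p) ((1 / ‖v‖) • v)) / ‖v‖, ?_⟩
  rw [cv_nf]
  congr 1
  rw [smul_smul, mul_one_div]
  abel

section opt

variable [FiniteDimensional ℝ V]

lemma cont_cv (x : V) : Continuous fun l : V × V => cv l x := by
  unfold cv ht; fun_prop

/-- existence of an optimal line -/
lemma exists_opt {T : Finset V} (hT : T.Nonempty) {R : V → V → Prop} {ρ₀ : ℝ}
    (h : ∃ l, IsLine l ∧ Cons R l T ∧ Tr l T ρ₀) :
    ∃ l ρ, 0 ≤ ρ ∧ ρ ≤ ρ₀ ∧ IsLine l ∧ Cons R l T ∧ Tr l T ρ ∧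
      ∀ l', IsLine l' → Cons R l' T → ∃ x ∈ T, ρ ≤ ‖cv l' x‖ := by
  classical
  set K : Set (V × V) := {l | IsLine l ∧ Cons R l T ∧ Tr l T ρ₀} with hK
  have hclosed : IsClosed K := by
    have e1 : K = ({l | ‖l.2‖ = 1} ∩ {l | inner ℝ l.1 l.2 = 0}) ∩
        ((⋂ a ∈ T, ⋂ b ∈ T, ⋂ (_ : R a b), {l | ht l a ≤ ht l b}) ∩
          ⋂ x ∈ T, {l | ‖cv l x‖ ≤ ρ₀}) := by
      ext l
      simp only [hK, IsLine, Cons, Tr, Set.mem_ofPred_eq, Set.mem_inter_iff, Set.mem_iInter]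
    rw [e1]
    apply IsClosed.inter
    · apply IsClosed.inter
      · exact isClosed_eq (by fun_prop) continuous_const
      · exact isClosed_eq (by fun_prop) continuous_const
    · apply IsClosed.inter
      · refine isClosed_iInter fun a => isClosed_iInter fun _ => isClosed_iInter fun b =>
          isClosed_iInter fun _ => isClosed_iInter fun _ => isClosed_le ?_ ?_
        · unfold ht; fun_prop
        · unfold ht; fun_prop
      · refine isClosed_iInter fun x => isClosed_iInter fun _ => isClosed_le ?_ continuous_const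
        exact (cont_cv x).norm
  obtain ⟨x₀, hx₀⟩ := hT
  have hbdd : Bornology.IsBounded K := by
    refine (Metric.isBounded_iff_subset_closedBall (0 : V × V)).mpr
      ⟨max (ρ₀ + 2 * ‖x₀‖) 1, fun l hl => ?_⟩
    obtain ⟨h1, _, h3⟩ := hl
    rw [mem_closedBall_zero_iff, Prod.norm_def]
    apply max_le_max
    · have h4 := h3 x₀ hx₀
      have h5 : l.1 = x₀ - ht l x₀ • l.2 - cv l x₀ := by unfold cv; abel
      have h6 : |ht l x₀| ≤ ‖x₀‖ := by
        unfold ht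
        have := abs_real_inner_le_norm x₀ l.2
        rwa [h1.1, mul_one] at this
      calc ‖l.1‖ = ‖x₀ - ht l x₀ • l.2 - cv l x₀‖ := by rw [← h5]
        _ ≤ ‖x₀ - ht l x₀ • l.2‖ + ‖cv l x₀‖ := norm_sub_le _ _
        _ ≤ ‖x₀‖ + ‖ht l x₀ • l.2‖ + ‖cv l x₀‖ := by gcongr; exact norm_sub_le _ _
        _ ≤ ‖x₀‖ + ‖x₀‖ + ρ₀ := by
            rw [norm_smul, h1.1, mul_one, Real.norm_eq_abs]; gcongr
        _ = _ := by ring
    · exact h1.1.le
  have hcomp : IsCompact K := Metric.isCompact_of_isClosed_isBounded hclosed hbdd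
  have hf : ContinuousOn (fun l : V × V => T.sup' ⟨x₀, hx₀⟩ fun x => ‖cv l x‖) K := by
    apply Continuous.continuousOn
    exact Continuous.finset_sup'_apply _ fun x _ => (cont_cv x).norm
  obtain ⟨l, hlK, hmin⟩ := hcomp.exists_isMinOn h hf
  refine ⟨l, T.sup' ⟨x₀, hx₀⟩ fun x => ‖cv l x‖, ?_, ?_, hlK.1, hlK.2.1, ?_, ?_⟩
  · exact (norm_nonneg _).trans (Finset.le_sup' (fun x => ‖cv l x‖) hx₀)
  · exact Finset.sup'_le _ _ fun x hx => hlK.2.2 x hx
  · intro x hx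
    exact Finset.le_sup' (fun x => ‖cv l x‖) hx
  · intro l' h1 h2
    obtain ⟨y, hy, hy2⟩ := Finset.exists_mem_eq_sup' ⟨x₀, hx₀⟩ fun x => ‖cv l' x‖
    by_cases h3 : Tr l' T ρ₀
    · have h4 : l' ∈ K := ⟨h1, h2, h3⟩
      have h5 := hmin h4
      simp only [Set.mem_ofPred_eq] at h5
      exact ⟨y, hy, by rw [← hy2]; exact h5⟩
    · unfold Tr at h3
      push Not at h3
      obtain ⟨x, hx, h4⟩ := h3
      refine ⟨x, hx, le_trans ?_ h4.le⟩
      exact Finset.sup'_le _ _ fun x hx => hlK.2.2 x hx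

/-- at an optimal line there is no first-order improvement -/
lemma no_improve {T : Finset V} {R : V → V → Prop} {l : V × V} (hl : IsLine l) {ρ : ℝ}
    (hρ : 0 ≤ ρ) (htr : Tr l T ρ)
    (hstrict : ∀ a ∈ T, ∀ b ∈ T, R a b → a ≠ b → ht l a < ht l b)
    (hmin : ∀ l', IsLine l' → Cons R l' T → ∃ x ∈ T, ρ ≤ ‖cv l' x‖)
    (a b : V) (hab : ∀ x ∈ T, ‖cv l x‖ = ρ → 0 < inner ℝ (cv l x) (a + ht l x • b)) : False := by
  classical
  -- distances decrease
  have h1 : ∀ x ∈ T, ∀ᶠ ε : ℝ in 𝓝[>] 0, ‖cv l x - ε • (a + ht l x • b)‖ < ρ := by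
    intro x hx
    set c := cv l x
    set z := a + ht l x • b
    have hexp : ∀ ε : ℝ, ‖c - ε • z‖ ^ 2 = ‖c‖ ^ 2 - ε * (2 * inner ℝ c z - ε * ‖z‖ ^ 2) := by
      intro ε
      rw [norm_sub_sq_real, inner_smul_right, norm_smul, mul_pow, Real.norm_eq_abs, sq_abs]; ring
    rcases lt_or_eq_of_le (htr x hx) with h | h
    · have hc : ContinuousAt (fun ε : ℝ => ‖c - ε • z‖) 0 := by fun_prop
      have h2 : ‖c - (0 : ℝ) • z‖ < ρ := by simpa using h
      have h3 : ∀ᶠ ε : ℝ in 𝓝 0, ‖c - ε • z‖ < ρ := hc.eventually (gt_mem_nhds h2) |> fun h => h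
      exact h3.filter_mono nhdsWithin_le_nhds
    · have h4 := hab x hx h
      have hc : ContinuousAt (fun ε : ℝ => 2 * inner ℝ c z - ε * ‖z‖ ^ 2) 0 := by fun_prop
      have h5 : ∀ᶠ ε : ℝ in 𝓝 0, 0 < 2 * inner ℝ c z - ε * ‖z‖ ^ 2 := by
        apply hc.eventually (lt_mem_nhds _)
        simp only [zero_mul, sub_zero]
        have : 0 < inner ℝ c z := h4
        linarith
      have h6 := h5.filter_mono (nhdsWithin_le_nhds (s := Set.Ioi (0 : ℝ)))
      filter_upwards [h6, self_mem_nhdsWithin] with ε h7 h8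
      have h9 : ‖c - ε • z‖ ^ 2 < ρ ^ 2 := by
        rw [hexp]
        have hh : ‖c‖ = ρ := h
        rw [hh]
        have : 0 < ε * (2 * inner ℝ c z - ε * ‖z‖ ^ 2) := mul_pos h8 h7
        linarith
      exact lt_of_pow_lt_pow_left₀ 2 hρ h9
  have h2 : ∀ x ∈ T, ∀ y ∈ T, R x y →
      ∀ᶠ ε : ℝ in 𝓝[>] 0, inner ℝ x (l.2 + ε • b) ≤ inner ℝ y (l.2 + ε • b) := by
    intro x hx y hy hR
    by_cases hxy : x = y
    · subst hxy; exact Eventually.of_forall fun _ => le_rfl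
    · have h3 := hstrict x hx y hy hR hxy
      have hc : ContinuousAt (fun ε : ℝ => inner ℝ y (l.2 + ε • b) - inner ℝ x (l.2 + ε • b)) 0 := by
        fun_prop
      have h5 : ∀ᶠ ε : ℝ in 𝓝 0, 0 < inner ℝ y (l.2 + ε • b) - inner ℝ x (l.2 + ε • b) := by
        apply hc.eventually (lt_mem_nhds _)
        simp only [zero_smul, add_zero]
        unfold ht at h3
        linarith
      have h6 := h5.filter_mono (nhdsWithin_le_nhds (s := Set.Ioi (0 : ℝ)))
      filter_upwards [h6] with ε h7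
      linarith
  have h3 : ∀ᶠ ε : ℝ in 𝓝[>] 0, l.2 + ε • b ≠ 0 := by
    have hc : ContinuousAt (fun ε : ℝ => l.2 + ε • b) 0 := by fun_prop
    have h4 : l.2 + (0 : ℝ) • b ≠ 0 := by
      simp only [zero_smul, add_zero]
      intro h; have := hl.1; rw [h, norm_zero] at this; norm_num at this
    have h5 : ∀ᶠ ε : ℝ in 𝓝 0, l.2 + ε • b ≠ 0 := hc.eventually_ne h4
    exact h5.filter_mono nhdsWithin_le_nhds
  have h1' : ∀ᶠ ε : ℝ in 𝓝[>] 0, ∀ x ∈ T, ‖cv l x - ε • (a + ht l x • b)‖ < ρ :=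
    (Filter.eventually_all_finset T).mpr h1
  have h2' : ∀ᶠ ε : ℝ in 𝓝[>] 0, ∀ x ∈ T, ∀ y ∈ T, R x y →
      inner ℝ x (l.2 + ε • b) ≤ inner ℝ y (l.2 + ε • b) := by
    refine (Filter.eventually_all_finset T).mpr fun x hx =>
      (Filter.eventually_all_finset T).mpr fun y hy => ?_
    by_cases hR : R x y
    · filter_upwards [h2 x hx y hy hR] with ε h _ using h
    · exact Eventually.of_forall fun _ h => absurd h hR
  obtain ⟨ε, ⟨hε1, hε2⟩, hε3⟩ := ((h1'.and h2').and h3).exists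
  set l' := nf (l.1 + ε • a) (l.2 + ε • b) with hl'
  obtain ⟨x, hx, hx2⟩ := hmin l' (nf_isLine _ hε3) (by
    intro x hx y hy hR
    rw [hl', ht_nf, ht_nf]
    exact div_le_div_of_nonneg_right (hε2 x hx y hy hR) (norm_nonneg _))
  have h4 := cv_nf_norm_le (l.1 + ε • a) hε3 x (ht l x)
  have h5 : x - (l.1 + ε • a + ht l x • (l.2 + ε • b)) = cv l x - ε • (a + ht l x • b) := by
    unfold cv; module
  rw [h5] at h4
  have := hε1 x hx
  linarith

end opt

end Pool.Agent.H90Dz
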