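import Mathlib

/-!
A real inequality: strict concavity of the angle function of two disjoint equal balls, as the
height of the slicing plane varies, and its consequence for two balls and two lines.
-/

set_option autoImplicit false

namespace Pool.Agent.H90Dz

open Real Set

/-- The algebraic heart. -/
lemma key_alg {p q a b e Q : ℝ} (hp : 0 < p) (hq : 0 < q) (he : 0 < e)
    (hQ : e * (p - q) ^ 2 + (a + b) ^ 2 < e * Q) :
    p * q * (p + q) * (a * q + b * p) ^ 2 <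
      ((e * p ^ 2 + a ^ 2) * q ^ 3 + (e * q ^ 2 + b ^ 2) * p ^ 3) * Q := by
  set A2 := e * p ^ 2 + a ^ 2 with hA2
  set B2 := e * q ^ 2 + b ^ 2 with hB2
  set S2 := e * (p - q) ^ 2 + (a + b) ^ 2 with hS2
  have hA2p : 0 < A2 := by positivity
  have hB2p : 0 < B2 := by positivity
  have hD : 0 ≤ e * (a * q + b * p) ^ 2 := by positivity
  have h1 : e * (a * q + b * p) ^ 2 ≤ A2 * S2 := by
    have : A2 * S2 - e * (a * q + b * p) ^ 2 = (e * p * (p - q) + a * (a + b)) ^ 2 := by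
      rw [hA2, hS2]; ring
    nlinarith [sq_nonneg (e * p * (p - q) + a * (a + b))]
  have h2 : e * (a * q + b * p) ^ 2 ≤ B2 * S2 := by
    have : B2 * S2 - e * (a * q + b * p) ^ 2 = (e * q * (q - p) + b * (a + b)) ^ 2 := by
      rw [hB2, hS2]; ring
    nlinarith [sq_nonneg (e * q * (q - p) + b * (a + b))]
  have h3 : p * q * (p + q) ≤ p ^ 3 + q ^ 3 := by nlinarith [mul_nonneg (add_pos hp hq).le (sq_nonneg (p - q))]
  have h4 : p * q * (p + q) * (e * (a * q + b * p) ^ 2) ≤ (A2 * q ^ 3 + B2 * p ^ 3) * S2 := by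
    calc p * q * (p + q) * (e * (a * q + b * p) ^ 2)
        ≤ (p ^ 3 + q ^ 3) * (e * (a * q + b * p) ^ 2) := mul_le_mul_of_nonneg_right h3 hD
      _ = q ^ 3 * (e * (a * q + b * p) ^ 2) + p ^ 3 * (e * (a * q + b * p) ^ 2) := by ring
      _ ≤ q ^ 3 * (A2 * S2) + p ^ 3 * (B2 * S2) := by
          gcongr
      _ = _ := by ring
  have h5 : (A2 * q ^ 3 + B2 * p ^ 3) * S2 < (A2 * q ^ 3 + B2 * p ^ 3) * (e * Q) := by
    apply mul_lt_mul_of_pos_left hQ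
    positivity
  have h6 : e * (p * q * (p + q) * (a * q + b * p) ^ 2) < e * ((A2 * q ^ 3 + B2 * p ^ 3) * Q) := by
    calc e * (p * q * (p + q) * (a * q + b * p) ^ 2)
        = p * q * (p + q) * (e * (a * q + b * p) ^ 2) := by ring
      _ ≤ _ := h4
      _ < _ := h5
      _ = _ := by ring
  exact lt_of_mul_lt_mul_left h6 he.le

section pair

variable {p0 q0 e ν μ H φ : ℝ}

/-- squared half-chord -/
noncomputable def F (p0 ν e : ℝ) (τ : ℝ) : ℝ := p0 ^ 2 + 2 * τ * ν - τ ^ 2 * e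

lemma F_pos (hp : 0 < p0) (he : 0 < e) (h1 : 0 ≤ p0 ^ 2 + 2 * ν - e) {τ : ℝ}
    (h0 : 0 ≤ τ) (hτ : τ < 1) : 0 < F p0 ν e τ := by
  have : F p0 ν e τ = (1 - τ) * p0 ^ 2 + τ * (p0 ^ 2 + 2 * ν - e) + τ * (1 - τ) * e := by
    unfold F; ring
  rw [this]
  have h2 : 0 < (1 - τ) * p0 ^ 2 := mul_pos (by linarith) (by positivity)
  have h3 : 0 ≤ τ * (p0 ^ 2 + 2 * ν - e) := mul_nonneg h0 h1
  have h4 : 0 ≤ τ * (1 - τ) * e := mul_nonneg (mul_nonneg h0 (by linarith)) he.le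
  linarith

lemma F_nonneg (hp : 0 < p0) (he : 0 < e) (h1 : 0 ≤ p0 ^ 2 + 2 * ν - e) {τ : ℝ}
    (h0 : 0 ≤ τ) (hτ : τ ≤ 1) : 0 ≤ F p0 ν e τ := by
  have : F p0 ν e τ = (1 - τ) * p0 ^ 2 + τ * (p0 ^ 2 + 2 * ν - e) + τ * (1 - τ) * e := by
    unfold F; ring
  rw [this]
  have h2 : 0 ≤ (1 - τ) * p0 ^ 2 := mul_nonneg (by linarith) (by positivity)
  have h3 : 0 ≤ τ * (p0 ^ 2 + 2 * ν - e) := mul_nonneg h0 h1
  have h4 : 0 ≤ τ * (1 - τ) * e := mul_nonneg (mul_nonneg h0 (by linarith)) he.le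
  linarith

lemma F_deriv (τ : ℝ) : HasDerivAt (F p0 ν e) (2 * (ν - τ * e)) τ := by
  unfold F
  have h1 : HasDerivAt (fun τ : ℝ => p0 ^ 2 + 2 * τ * ν - τ ^ 2 * e)
      (0 + 2 * 1 * ν - (2 * τ ^ (2 - 1) * 1) * e) τ := by
    apply HasDerivAt.sub
    · apply HasDerivAt.add
      · exact hasDerivAt_const _ _
      · exact ((hasDerivAt_id τ).const_mul 2).mul_const ν
    · exact (((hasDerivAt_id τ).pow 2).mul_const e)
  convert h1 using 1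
  norm_num
  ring

lemma R_deriv (hF : 0 < F p0 ν e φ) :
    HasDerivAt (fun τ => √(F p0 ν e τ)) ((ν - φ * e) / √(F p0 ν e φ)) φ := by
  have := (F_deriv (p0 := p0) (ν := ν) (e := e) φ).sqrt hF.ne'
  convert this using 1
  field_simp

noncomputable def Qf (p0 q0 e ν μ H : ℝ) (τ : ℝ) : ℝ :=
  H ^ 2 + (p0 + q0) ^ 2 - (√(F p0 ν e τ) + √(F q0 μ e τ)) ^ 2

lemma Q_key (hF1 : 0 ≤ F p0 ν e φ) (hF2 : 0 ≤ F q0 μ e φ)
    (hdis : e * (p0 - q0) ^ 2 + (ν + μ) ^ 2 < e * H ^ 2) :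
    e * (√(F p0 ν e φ) - √(F q0 μ e φ)) ^ 2 + ((ν - φ * e) + (μ - φ * e)) ^ 2 <
      e * Qf p0 q0 e ν μ H φ := by
  have h1 := Real.sq_sqrt hF1
  have h2 := Real.sq_sqrt hF2
  unfold Qf
  set r1 := √(F p0 ν e φ)
  set r2 := √(F q0 μ e φ)
  have h3 : r1 ^ 2 + r2 ^ 2 = p0 ^ 2 + q0 ^ 2 + 2 * φ * (ν + μ) - 2 * φ ^ 2 * e := by
    rw [h1, h2]; unfold F; ring
  have h4 : e * (H ^ 2 + (p0 + q0) ^ 2 - (r1 + r2) ^ 2) -
      (e * (r1 - r2) ^ 2 + ((ν - φ * e) + (μ - φ * e)) ^ 2) =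
      (e * H ^ 2 - (e * (p0 - q0) ^ 2 + (ν + μ) ^ 2)) +
        (e * (2 * p0 ^ 2 + 2 * q0 ^ 2) - 2 * e * (r1 ^ 2 + r2 ^ 2) + 4 * φ * e * (ν + μ)
          - 4 * φ ^ 2 * e ^ 2) := by ring
  rw [h3] at h4
  nlinarith [h4]

lemma Q_pos (hF1 : 0 ≤ F p0 ν e φ) (hF2 : 0 ≤ F q0 μ e φ) (he : 0 < e)
    (hdis : e * (p0 - q0) ^ 2 + (ν + μ) ^ 2 < e * H ^ 2) :
    0 < Qf p0 q0 e ν μ H φ := by
  have h := Q_key hF1 hF2 hdis
  have h2 : 0 < e * Qf p0 q0 e ν μ H φ := lt_of_le_of_lt (by positivity) h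
  exact (mul_pos_iff_of_pos_left he).mp h2

noncomputable def Bf (p0 q0 e ν μ H : ℝ) (τ : ℝ) : ℝ :=
  ((ν - τ * e) / √(F p0 ν e τ) + (μ - τ * e) / √(F q0 μ e τ)) / √(Qf p0 q0 e ν μ H τ)


lemma Q_deriv (hF1 : 0 < F p0 ν e φ) (hF2 : 0 < F q0 μ e φ) :
    HasDerivAt (Qf p0 q0 e ν μ H) (-(2 * (√(F p0 ν e φ) + √(F q0 μ e φ)) *
      ((ν - φ * e) / √(F p0 ν e φ) + (μ - φ * e) / √(F q0 μ e φ)))) φ := by
  unfold Qf
  have h := ((R_deriv hF1).add (R_deriv hF2)).pow 2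
  have h2 := h.const_sub (H ^ 2 + (p0 + q0) ^ 2)
  refine HasDerivAt.congr_deriv h2 ?_
  simp

lemma frac_deriv (hF1 : 0 < F p0 ν e φ) :
    HasDerivAt (fun τ => (ν - τ * e) / √(F p0 ν e τ))
      (-((e * √(F p0 ν e φ) ^ 2 + (ν - φ * e) ^ 2) / √(F p0 ν e φ) ^ 3)) φ := by
  have hs : 0 < √(F p0 ν e φ) := Real.sqrt_pos.mpr hF1
  have h1 : HasDerivAt (fun τ : ℝ => ν - τ * e) (-e) φ := by
    have := ((hasDerivAt_id φ).mul_const e).const_sub ν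
    simpa using this
  have h := h1.div (R_deriv hF1) hs.ne'
  refine HasDerivAt.congr_deriv h ?_
  field_simp
  ring

lemma B_deriv (hF1 : 0 < F p0 ν e φ) (hF2 : 0 < F q0 μ e φ) (hQ : 0 < Qf p0 q0 e ν μ H φ) :
    HasDerivAt (Bf p0 q0 e ν μ H)
      (((-((e * √(F p0 ν e φ) ^ 2 + (ν - φ * e) ^ 2) / √(F p0 ν e φ) ^ 3) +
        -((e * √(F q0 μ e φ) ^ 2 + (μ - φ * e) ^ 2) / √(F q0 μ e φ) ^ 3)) *
          √(Qf p0 q0 e ν μ H φ) -
        ((ν - φ * e) / √(F p0 ν e φ) + (μ - φ * e) / √(F q0 μ e φ)) *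
          (-(2 * (√(F p0 ν e φ) + √(F q0 μ e φ)) *
      ((ν - φ * e) / √(F p0 ν e φ) + (μ - φ * e) / √(F q0 μ e φ))) /
        (2 * √(Qf p0 q0 e ν μ H φ)))) / √(Qf p0 q0 e ν μ H φ) ^ 2) φ := by
  unfold Bf
  exact ((frac_deriv hF1).add (frac_deriv hF2)).div ((Q_deriv hF1 hF2).sqrt hQ.ne')
    (Real.sqrt_pos.mpr hQ).ne'

lemma B_deriv_neg (hF1 : 0 < F p0 ν e φ) (hF2 : 0 < F q0 μ e φ) (he : 0 < e)
    (hdis : e * (p0 - q0) ^ 2 + (ν + μ) ^ 2 < e * H ^ 2) :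
    (((-((e * √(F p0 ν e φ) ^ 2 + (ν - φ * e) ^ 2) / √(F p0 ν e φ) ^ 3) +
        -((e * √(F q0 μ e φ) ^ 2 + (μ - φ * e) ^ 2) / √(F q0 μ e φ) ^ 3)) *
          √(Qf p0 q0 e ν μ H φ) -
        ((ν - φ * e) / √(F p0 ν e φ) + (μ - φ * e) / √(F q0 μ e φ)) *
          (-(2 * (√(F p0 ν e φ) + √(F q0 μ e φ)) *
      ((ν - φ * e) / √(F p0 ν e φ) + (μ - φ * e) / √(F q0 μ e φ))) /
        (2 * √(Qf p0 q0 e ν μ H φ)))) / √(Qf p0 q0 e ν μ H φ) ^ 2) < 0 := by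
  have hQ := Q_pos hF1.le hF2.le he hdis
  have hk := Q_key hF1.le hF2.le hdis
  set p := √(F p0 ν e φ) with hp
  set q := √(F q0 μ e φ) with hq
  set Q := Qf p0 q0 e ν μ H φ with hQd
  set a := ν - φ * e
  set b := μ - φ * e
  have hp0 : 0 < p := Real.sqrt_pos.mpr hF1
  have hq0 : 0 < q := Real.sqrt_pos.mpr hF2
  have hs : 0 < √Q := Real.sqrt_pos.mpr hQ
  have hsq : √Q ^ 2 = Q := Real.sq_sqrt hQ.le
  have hmain := key_alg hp0 hq0 he hk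
  have e0 : ∀ s : ℝ, 0 < s → (((-((e * p ^ 2 + a ^ 2) / p ^ 3) + -((e * q ^ 2 + b ^ 2) / q ^ 3)) * s -
        (a / p + b / q) * (-(2 * (p + q) * (a / p + b / q)) / (2 * s))) / s ^ 2) =
      (p * q * (p + q) * (a * q + b * p) ^ 2 -
        ((e * p ^ 2 + a ^ 2) * q ^ 3 + (e * q ^ 2 + b ^ 2) * p ^ 3) * s ^ 2) /
        (p ^ 3 * q ^ 3 * s ^ 3) := by
    intro s hs
    field_simp
    ring
  have e1 := e0 √Q hs
  rw [hsq] at e1
  have e2 : (((-((e * p ^ 2 + a ^ 2) / p ^ 3) + -((e * q ^ 2 + b ^ 2) / q ^ 3)) * √Q -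
        (a / p + b / q) * (-(2 * (p + q) * (a / p + b / q)) / (2 * √Q))) / √Q ^ 2) =
      (p * q * (p + q) * (a * q + b * p) ^ 2 -
        ((e * p ^ 2 + a ^ 2) * q ^ 3 + (e * q ^ 2 + b ^ 2) * p ^ 3) * Q) /
        (p ^ 3 * q ^ 3 * √Q ^ 3) := by
    rw [hsq]; exact e1
  rw [e2]
  apply div_neg_of_neg_of_pos
  · linarith
  · positivity

lemma F_cont : Continuous (F p0 ν e) := by unfold F; fun_prop

lemma Q_cont : Continuous (Qf p0 q0 e ν μ H) := by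
  unfold Qf
  have h1 : Continuous (F p0 ν e) := F_cont
  have h2 : Continuous (F q0 μ e) := F_cont
  fun_prop

/-- strict monotonicity of the derivative -/
lemma B_lt (hp : 0 < p0) (hq : 0 < q0) (he : 0 < e)
    (h1 : 0 ≤ p0 ^ 2 + 2 * ν - e) (h2 : 0 ≤ q0 ^ 2 + 2 * μ - e)
    (hdis : e * (p0 - q0) ^ 2 + (ν + μ) ^ 2 < e * H ^ 2) {ξ : ℝ} (h0 : 0 < ξ) (hξ : ξ < 1) :
    Bf p0 q0 e ν μ H ξ < Bf p0 q0 e ν μ H 0 := by
  have hF1 : ∀ τ ∈ Icc 0 ξ, 0 < F p0 ν e τ := fun τ hτ => F_pos hp he h1 hτ.1 (by linarith [hτ.2])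
  have hF2 : ∀ τ ∈ Icc 0 ξ, 0 < F q0 μ e τ := fun τ hτ => F_pos hq he h2 hτ.1 (by linarith [hτ.2])
  have hQ : ∀ τ ∈ Icc 0 ξ, 0 < Qf p0 q0 e ν μ H τ := fun τ hτ =>
    Q_pos (hF1 τ hτ).le (hF2 τ hτ).le he hdis
  obtain ⟨η, hη, h3⟩ := exists_hasDerivAt_eq_slope (Bf p0 q0 e ν μ H) _ h0
    (fun τ hτ => (B_deriv (hF1 τ hτ) (hF2 τ hτ) (hQ τ hτ)).continuousAt.continuousWithinAt)
    (fun τ hτ => B_deriv (hF1 τ (Ioo_subset_Icc_self hτ)) (hF2 τ (Ioo_subset_Icc_self hτ))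
      (hQ τ (Ioo_subset_Icc_self hτ)))
  have h4 := B_deriv_neg (hF1 η (Ioo_subset_Icc_self hη)) (hF2 η (Ioo_subset_Icc_self hη)) he hdis
  rw [h3] at h4
  have h5 : 0 < ξ - 0 := by linarith
  have h6 : Bf p0 q0 e ν μ H ξ - Bf p0 q0 e ν μ H 0 < 0 := by
    by_contra h7
    push Not at h7
    exact absurd h4 (not_lt.mpr (div_nonneg h7 h5.le))
  linarith

noncomputable def Af (p0 q0 e ν μ H : ℝ) (τ : ℝ) : ℝ :=
  arcsin ((√(F p0 ν e τ) + √(F q0 μ e τ)) / √(H ^ 2 + (p0 + q0) ^ 2))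

lemma A_deriv (hp : 0 < p0) (hq : 0 < q0) (hF1 : 0 < F p0 ν e φ) (hF2 : 0 < F q0 μ e φ)
    (hQ : 0 < Qf p0 q0 e ν μ H φ) :
    HasDerivAt (Af p0 q0 e ν μ H) (Bf p0 q0 e ν μ H φ) φ := by
  have hd : 0 < H ^ 2 + (p0 + q0) ^ 2 := by positivity
  have hd' : 0 < √(H ^ 2 + (p0 + q0) ^ 2) := Real.sqrt_pos.mpr hd
  have hdsq : √(H ^ 2 + (p0 + q0) ^ 2) ^ 2 = H ^ 2 + (p0 + q0) ^ 2 := Real.sq_sqrt hd.le
  have hs1 : 0 < √(F p0 ν e φ) := Real.sqrt_pos.mpr hF1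
  have hs2 : 0 < √(F q0 μ e φ) := Real.sqrt_pos.mpr hF2
  have hQ' : (√(F p0 ν e φ) + √(F q0 μ e φ)) ^ 2 < √(H ^ 2 + (p0 + q0) ^ 2) ^ 2 := by
    rw [hdsq]; unfold Qf at hQ; linarith
  have hlt : √(F p0 ν e φ) + √(F q0 μ e φ) < √(H ^ 2 + (p0 + q0) ^ 2) :=
    lt_of_pow_lt_pow_left₀ 2 hd'.le hQ'
  have hne1 : (√(F p0 ν e φ) + √(F q0 μ e φ)) / √(H ^ 2 + (p0 + q0) ^ 2) ≠ 1 := by
    rw [ne_eq, div_eq_one_iff_eq hd'.ne']; exact hlt.ne
  have hne2 : (√(F p0 ν e φ) + √(F q0 μ e φ)) / √(H ^ 2 + (p0 + q0) ^ 2) ≠ -1 := by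
    have : 0 < (√(F p0 ν e φ) + √(F q0 μ e φ)) / √(H ^ 2 + (p0 + q0) ^ 2) := by positivity
    linarith
  have h := (Real.hasDerivAt_arcsin hne2 hne1).comp φ
    (((R_deriv hF1).add (R_deriv hF2)).div_const (√(H ^ 2 + (p0 + q0) ^ 2)))
  unfold Af
  refine HasDerivAt.congr_deriv h ?_
  unfold Bf
  have e1 : 1 - ((√(F p0 ν e φ) + √(F q0 μ e φ)) / √(H ^ 2 + (p0 + q0) ^ 2)) ^ 2 =
      Qf p0 q0 e ν μ H φ / (H ^ 2 + (p0 + q0) ^ 2) := by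
    rw [div_pow, hdsq]
    unfold Qf
    field_simp
  rw [e1, Real.sqrt_div hQ.le]
  have : 0 < √(Qf p0 q0 e ν μ H φ) := Real.sqrt_pos.mpr hQ
  field_simp

lemma A_concave (hp : 0 < p0) (hq : 0 < q0) (he : 0 < e)
    (h1 : 0 ≤ p0 ^ 2 + 2 * ν - e) (h2 : 0 ≤ q0 ^ 2 + 2 * μ - e)
    (hdis : e * (p0 - q0) ^ 2 + (ν + μ) ^ 2 < e * H ^ 2) :
    Af p0 q0 e ν μ H 1 < Af p0 q0 e ν μ H 0 + Bf p0 q0 e ν μ H 0 := by
  have hcont : Continuous (Af p0 q0 e ν μ H) := by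
    unfold Af
    have h1 : Continuous (F p0 ν e) := F_cont
    have h2 : Continuous (F q0 μ e) := F_cont
    apply Real.continuous_arcsin.comp
    fun_prop
  obtain ⟨ξ, hξ, h3⟩ := exists_hasDerivAt_eq_slope (Af p0 q0 e ν μ H) (Bf p0 q0 e ν μ H)
    (zero_lt_one) hcont.continuousOn
    (fun τ hτ => A_deriv hp hq (F_pos hp he h1 hτ.1.le hτ.2) (F_pos hq he h2 hτ.1.le hτ.2)
      (Q_pos (F_pos hp he h1 hτ.1.le hτ.2).le (F_pos hq he h2 hτ.1.le hτ.2).le he hdis))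
  have h4 := B_lt hp hq he h1 h2 hdis hξ.1 hξ.2
  rw [h3] at h4
  simp only [sub_zero, div_one] at h4
  linarith

/-- **Pair lemma.** -/
theorem pair_lemma (hp : 0 < p0) (hq : 0 < q0) (he : 0 < e) (hH : H ≠ 0)
    (h1 : 0 ≤ p0 ^ 2 + 2 * ν - e) (h2 : 0 ≤ q0 ^ 2 + 2 * μ - e)
    (hdis : e * (p0 - q0) ^ 2 + (ν + μ) ^ 2 < e * H ^ 2)
    (hφ0 : 0 < φ) (hφ1 : φ < π)
    (htr : H * sin φ + (p0 + q0) * cos φ ≤ √(p0 ^ 2 + 2 * ν - e) + √(q0 ^ 2 + 2 * μ - e))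
    (hord : 0 < H → 0 < H * cos φ - (p0 + q0) * sin φ) :
    φ * H < ν / p0 + μ / q0 := by
  have hconc := A_concave hp hq he h1 h2 hdis
  have hd : 0 < H ^ 2 + (p0 + q0) ^ 2 := by positivity
  set d := √(H ^ 2 + (p0 + q0) ^ 2) with hdd
  have hd' : 0 < d := Real.sqrt_pos.mpr hd
  have hdsq : d ^ 2 = H ^ 2 + (p0 + q0) ^ 2 := Real.sq_sqrt hd.le
  have hF10 : F p0 ν e 0 = p0 ^ 2 := by unfold F; ring
  have hF20 : F q0 μ e 0 = q0 ^ 2 := by unfold F; ring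
  have hF11 : F p0 ν e 1 = p0 ^ 2 + 2 * ν - e := by unfold F; ring
  have hF21 : F q0 μ e 1 = q0 ^ 2 + 2 * μ - e := by unfold F; ring
  have hA0 : Af p0 q0 e ν μ H 0 = arcsin ((p0 + q0) / d) := by
    unfold Af
    rw [hF10, hF20, Real.sqrt_sq hp.le, Real.sqrt_sq hq.le]
  have hQ0 : Qf p0 q0 e ν μ H 0 = H ^ 2 := by
    unfold Qf
    rw [hF10, hF20, Real.sqrt_sq hp.le, Real.sqrt_sq hq.le]; ring
  have hB0 : Bf p0 q0 e ν μ H 0 = (ν / p0 + μ / q0) / |H| := by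
    unfold Bf
    rw [hF10, hF20, Real.sqrt_sq hp.le, Real.sqrt_sq hq.le, hQ0, Real.sqrt_sq_eq_abs]; simp
  set A0 := arcsin ((p0 + q0) / d) with hA0d
  set A1 := Af p0 q0 e ν μ H 1 with hA1d
  have hQ1 : 0 < Qf p0 q0 e ν μ H 1 := Q_pos (by rw [hF11]; exact h1) (by rw [hF21]; exact h2) he hdis
  have hN1 : (√(p0 ^ 2 + 2 * ν - e) + √(q0 ^ 2 + 2 * μ - e)) ^ 2 < d ^ 2 := by
    rw [hdsq]; unfold Qf at hQ1; rw [hF11, hF21] at hQ1; linarith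
  have hN1' : √(p0 ^ 2 + 2 * ν - e) + √(q0 ^ 2 + 2 * μ - e) < d :=
    lt_of_pow_lt_pow_left₀ 2 hd'.le hN1
  have hsinA1 : d * sin A1 = √(p0 ^ 2 + 2 * ν - e) + √(q0 ^ 2 + 2 * μ - e) := by
    rw [hA1d]; unfold Af
    rw [hF11, hF21, Real.sin_arcsin, ← hdd]
    · field_simp
    · have : 0 ≤ (√(p0 ^ 2 + 2 * ν - e) + √(q0 ^ 2 + 2 * μ - e)) / √(H ^ 2 + (p0 + q0) ^ 2) := by positivity
      linarith
    · rw [div_le_one hd']; exact hN1'.le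
  have hA1mem : A1 ∈ Icc (-(π / 2)) (π / 2) := by
    rw [hA1d]; unfold Af; exact Real.arcsin_mem_Icc _
  have hpd : p0 + q0 ≤ d := by
    apply le_of_sq_le_sq _ hd'.le |> fun h => h
    rw [hdsq]; nlinarith [sq_nonneg H]
  have hsinA0 : d * sin A0 = p0 + q0 := by
    rw [hA0d, Real.sin_arcsin]
    · field_simp
    · have : 0 ≤ (p0 + q0) / d := by positivity
      linarith
    · rw [div_le_one hd']; exact hpd
  have hcosA0 : d * cos A0 = |H| := by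
    rw [hA0d, Real.cos_arcsin]
    have : 1 - ((p0 + q0) / d) ^ 2 = H ^ 2 / d ^ 2 := by
      rw [div_pow, hdsq]; field_simp; ring
    rw [this, Real.sqrt_div (sq_nonneg H), Real.sqrt_sq hd'.le, Real.sqrt_sq_eq_abs]
    field_simp
  have hA0pos : 0 < A0 := by
    rw [hA0d]; apply Real.arcsin_pos.mpr; positivity
  have hA0le : A0 ≤ π / 2 := Real.arcsin_le_pi_div_two _
  have hHabs : 0 < |H| := abs_pos.mpr hH
  rw [hA0, hB0] at hconc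
  rcases lt_or_gt_of_ne hH with hneg | hpos
  · -- H < 0
    have habs : |H| = -H := abs_of_neg hneg
    have h5 : A0 - φ ≤ A1 := by
      by_cases hc : -(π / 2) ≤ A0 - φ
      · have h6 : sin (A0 - φ) ≤ sin A1 := by
          have : d * sin (A0 - φ) ≤ d * sin A1 := by
            rw [hsinA1, Real.sin_sub]
            calc d * (sin A0 * cos φ - cos A0 * sin φ) = (d * sin A0) * cos φ - (d * cos A0) * sin φ := by ring
              _ = (p0 + q0) * cos φ - |H| * sin φ := by rw [hsinA0, hcosA0]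
              _ = H * sin φ + (p0 + q0) * cos φ := by rw [habs]; ring
              _ ≤ _ := htr
          exact le_of_mul_le_mul_left this hd'
        by_contra h7
        push Not at h7
        exact absurd h6 (not_le.mpr (Real.strictMonoOn_sin hA1mem ⟨hc, by linarith⟩ h7))
      · push Not at hc
        linarith [hA1mem.1]
    have h6 : -φ < (ν / p0 + μ / q0) / |H| := by linarith
    rw [lt_div_iff₀ hHabs, habs] at h6
    linarith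
  · have habs : |H| = H := abs_of_pos hpos
    have h5 : A0 + φ ≤ A1 := by
      have hcpos : 0 < cos (A0 + φ) := by
        have : 0 < d * cos (A0 + φ) := by
          rw [Real.cos_add]
          calc 0 < H * cos φ - (p0 + q0) * sin φ := hord hpos
            _ = (d * cos A0) * cos φ - (d * sin A0) * sin φ := by rw [hsinA0, hcosA0, habs]
            _ = _ := by ring
        exact (mul_pos_iff_of_pos_left hd').mp this
      have hlt : A0 + φ < π / 2 := by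
        by_contra h7
        push Not at h7
        have := Real.cos_nonpos_of_pi_div_two_le_of_le h7 (by linarith)
        linarith
      have h6 : sin (A0 + φ) ≤ sin A1 := by
        have : d * sin (A0 + φ) ≤ d * sin A1 := by
          rw [hsinA1, Real.sin_add]
          calc d * (sin A0 * cos φ + cos A0 * sin φ) = (d * sin A0) * cos φ + (d * cos A0) * sin φ := by ring
            _ = (p0 + q0) * cos φ + |H| * sin φ := by rw [hsinA0, hcosA0]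
            _ = H * sin φ + (p0 + q0) * cos φ := by rw [habs]; ring
            _ ≤ _ := htr
        exact le_of_mul_le_mul_left this hd'
      by_contra h7
      push Not at h7
      exact absurd h6 (not_le.mpr (Real.strictMonoOn_sin hA1mem ⟨by linarith [Real.pi_pos], hlt.le⟩ h7))
    have h6 : φ < (ν / p0 + μ / q0) / |H| := by linarith
    rw [lt_div_iff₀ hHabs, habs] at h6
    exact h6

end pair

end Pool.Agent.H90Dz
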