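import Pool.Agent.H90Dz.Frame

/-!
Two lines that meet nine common disjoint unit balls (five in the plane) swap at most one pair.
-/

set_option autoImplicit false

namespace Pool.Agent.H90Dz

open Module

variable {V : Type*} [NormedAddCommGroup V] [InnerProductSpace ℝ V]

/-- three points on a line transversal span more than `√2` -/
lemma triple_V {l : V × V} (hl : IsLine l) {a b c : V} (ha : ‖cv l a‖ ≤ 1) (hb : ‖cv l b‖ ≤ 1)
    (hc : ‖cv l c‖ ≤ 1) (hab : 2 < dist a b) (hbc : 2 < dist b c) (hac : 2 < dist a c)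
    (h1 : ht l a < ht l b) (h2 : ht l b < ht l c) : √2 < ht l c - ht l a := by
  have g1 := ht_sq_gt hl zero_le_one ha hb (by linarith)
  have g2 := ht_sq_gt hl zero_le_one hb hc (by linarith)
  have k1 : ‖cv l a + cv l b‖ < ht l b - ht l a := by
    have : ‖cv l a + cv l b‖ ^ 2 < (ht l b - ht l a) ^ 2 := by nlinarith
    exact lt_of_pow_lt_pow_left₀ 2 (by linarith) this
  have k2 : ‖cv l b + cv l c‖ < ht l c - ht l b := by
    have : ‖cv l b + cv l c‖ ^ 2 < (ht l c - ht l b) ^ 2 := by nlinarith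
    exact lt_of_pow_lt_pow_left₀ 2 (by linarith) this
  have k3 : ‖cv l a - cv l c‖ ≤ ‖cv l a + cv l b‖ + ‖cv l b + cv l c‖ := by
    have : cv l a - cv l c = (cv l a + cv l b) - (cv l b + cv l c) := by abel
    rw [this]; exact norm_sub_le _ _
  have k4 : ‖cv l a - cv l c‖ < ht l c - ht l a := by linarith
  have k5 := dist_sq hl a c
  have k6 : (2 : ℝ) ^ 2 < dist a c ^ 2 := pow_lt_pow_left₀ hac (by norm_num) (by norm_num)
  have k7 : ‖cv l a - cv l c‖ ^ 2 < (ht l c - ht l a) ^ 2 :=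
    pow_lt_pow_left₀ k4 (norm_nonneg _) (by norm_num)
  have k8 : 2 < (ht l c - ht l a) ^ 2 := by nlinarith
  rw [← Real.sqrt_sq (by linarith : 0 ≤ ht l c - ht l a)]
  exact Real.sqrt_lt_sqrt (by norm_num) k8

lemma sort3 (f : V → ℝ) {a b c : V} (hab : f a ≠ f b) (hac : f a ≠ f c) (hbc : f b ≠ f c) :
    ∃ x y z : V, (x = a ∨ x = b ∨ x = c) ∧ (y = a ∨ y = b ∨ y = c) ∧ (z = a ∨ z = b ∨ z = c) ∧
      f x < f y ∧ f y < f z := by
  rcases lt_or_gt_of_ne hab with h1 | h1 <;> rcases lt_or_gt_of_ne hac with h2 | h2 <;>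
    rcases lt_or_gt_of_ne hbc with h3 | h3
  · exact ⟨a, b, c, by simp, by simp, by simp, h1, h3⟩
  · exact ⟨a, c, b, by simp, by simp, by simp, h2, h3⟩
  · exact absurd (h1.trans h3) (not_lt.mpr h2.le)
  · exact ⟨c, a, b, by simp, by simp, by simp, h2, h1⟩
  · exact ⟨b, a, c, by simp, by simp, by simp, h1, h2⟩
  · exact absurd (h3.trans h1) (not_lt.mpr h2.le)
  · exact ⟨b, c, a, by simp, by simp, by simp, h3, h2⟩
  · exact ⟨c, b, a, by simp, by simp, by simp, h3, h1⟩

/-- among three points of the family some two have heights that differ by more than `√2` -/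
lemma triple_ext {l : V × V} (hl : IsLine l) {M : Finset V} (htr : Tr l M 1)
    (hdist : ∀ x ∈ M, ∀ y ∈ M, x ≠ y → 2 < dist x y) {a b c : V} (ha : a ∈ M) (hb : b ∈ M)
    (hc : c ∈ M) (hab : a ≠ b) (hac : a ≠ c) (hbc : b ≠ c) :
    ∃ x z : V, (x = a ∨ x = b ∨ x = c) ∧ (z = a ∨ z = b ∨ z = c) ∧ √2 < ht l z - ht l x := by
  have hne : ∀ x ∈ M, ∀ y ∈ M, x ≠ y → ht l x ≠ ht l y := fun x hx y hy hxy =>
    ht_ne hl zero_le_one (htr x hx) (htr y hy) (by have := hdist x hx y hy hxy; linarith)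
  obtain ⟨x, y, z, hx, hy, hz, h1, h2⟩ := sort3 (ht l) (hne a ha b hb hab) (hne a ha c hc hac)
    (hne b hb c hc hbc)
  have mem : ∀ w : V, (w = a ∨ w = b ∨ w = c) → w ∈ M := by
    rintro w (rfl | rfl | rfl) <;> assumption
  have hxM := mem x hx
  have hyM := mem y hy
  have hzM := mem z hz
  have n1 : x ≠ y := by rintro rfl; exact lt_irrefl _ h1
  have n2 : y ≠ z := by rintro rfl; exact lt_irrefl _ h2
  have n3 : x ≠ z := by rintro rfl; exact lt_asymm h1 h2
  exact ⟨x, z, hx, hz, triple_V hl (htr x hxM) (htr y hyM) (htr z hzM) (hdist x hxM y hyM n1)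
    (hdist y hyM z hzM n2) (hdist x hxM z hzM n3) h1 h2⟩

lemma small_card [DecidableEq V] {l : V × V} (hl : IsLine l) {M : Finset V} (htr : Tr l M 1)
    (hdist : ∀ x ∈ M, ∀ y ∈ M, x ≠ y → 2 < dist x y) {N : Finset V} (hN : N ⊆ M) (lo : ℝ)
    (h : ∀ x ∈ N, lo ≤ ht l x ∧ ht l x ≤ lo + √2) : N.card ≤ 2 := by
  by_contra hcon
  push Not at hcon
  obtain ⟨a, b, c, ha, hb, hc, hab, hac, hbc⟩ := Finset.two_lt_card_iff.mp hcon
  obtain ⟨x, z, hx, hz, hxz⟩ := triple_ext hl htr hdist (hN ha) (hN hb) (hN hc) hab hac hbc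
  have mem : ∀ w : V, (w = a ∨ w = b ∨ w = c) → w ∈ N := by
    rintro w (rfl | rfl | rfl) <;> assumption
  have h1 := h x (mem x hx)
  have h2 := h z (mem z hz)
  linarith

/-- the angle bound for nine points -/
lemma angle_nine [DecidableEq V] {l l' : V × V} (hl : IsLine l) {M : Finset V} (hM : 9 ≤ M.card)
    (htr : Tr l M 1) (htr' : Tr l' M 1)
    (hdist : ∀ x ∈ M, ∀ y ∈ M, x ≠ y → 2 < dist x y)
    {s c : ℝ} {n : V} {f : V → Pt V} {k : ℝ} (hs : 0 < s) (hle : s ≤ c) (hsc : s ^ 2 + c ^ 2 = 1)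
    (f1 : ∀ X, ‖cv l X‖ ^ 2 = (c * (f X).y - s * (f X).x) ^ 2 + ‖(f X).z - n‖ ^ 2)
    (f2 : ∀ X, ‖cv l' X‖ ^ 2 = (c * (f X).y + s * (f X).x) ^ 2 + ‖(f X).z + n‖ ^ 2)
    (f3 : ∀ X Y, dist X Y ^ 2 = ((f X).x - (f Y).x) ^ 2 + ((f X).y - (f Y).y) ^ 2 +
        ‖(f X).z - (f Y).z‖ ^ 2)
    (f4 : ∀ X, ht l X = c * (f X).x + s * (f X).y + k) : s ^ 2 ≤ 0.0776 := by
  have hIn : ∀ X ∈ M, InB s c n (f X) := fun X hX => by
    refine ⟨?_, ?_⟩
    · rw [← f1]; exact pow_le_one₀ (norm_nonneg _) (htr X hX)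
    · rw [← f2]; exact pow_le_one₀ (norm_nonneg _) (htr' X hX)
  have hFar : ∀ X ∈ M, ∀ Y ∈ M, X ≠ Y → Far (f X) (f Y) := fun X hX Y hY hXY => by
    unfold Far
    rw [← f3]
    have := hdist X hX Y hY hXY
    nlinarith
  have hsqrt : 0 < √(2 : ℝ) := Real.sqrt_pos.mpr (by norm_num)
  have hsq2 : √(2 : ℝ) ^ 2 = 2 := Real.sq_sqrt (by norm_num)
  set Tp := M.filter fun X => √2 < ht l X - k with hTp
  set Tm := M.filter fun X => ht l X - k < -√2 with hTm
  set N1 := M.filter fun X => -√2 + k ≤ ht l X ∧ ht l X ≤ -√2 + k + √2 with hN1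
  set N2 := M.filter fun X => k ≤ ht l X ∧ ht l X ≤ k + √2 with hN2
  have c1 : N1.card ≤ 2 := small_card hl htr hdist (Finset.filter_subset _ _) (-√2 + k)
    fun x hx => (Finset.mem_filter.mp hx).2
  have c2 : N2.card ≤ 2 := small_card hl htr hdist (Finset.filter_subset _ _) k
    fun x hx => (Finset.mem_filter.mp hx).2
  have hcov : M ⊆ (Tp ∪ Tm) ∪ (N1 ∪ N2) := by
    intro X hX
    simp only [Finset.mem_union, hTp, hTm, hN1, hN2, Finset.mem_filter]
    by_cases a1 : √2 < ht l X - k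
    · exact Or.inl (Or.inl ⟨hX, a1⟩)
    by_cases a2 : ht l X - k < -√2
    · exact Or.inl (Or.inr ⟨hX, a2⟩)
    push Not at a1 a2
    rcases le_total (ht l X) k with a3 | a3
    · exact Or.inr (Or.inl ⟨hX, by linarith, by linarith⟩)
    · exact Or.inr (Or.inr ⟨hX, a3, by linarith⟩)
  have hcard := Finset.card_le_card hcov
  have hc3 := Finset.card_union_le (Tp ∪ Tm) (N1 ∪ N2)
  have hc4 := Finset.card_union_le Tp Tm
  have hc5 := Finset.card_union_le N1 N2
  rcases (by omega : 2 < Tp.card ∨ 2 < Tm.card) with h3 | h3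
  · obtain ⟨P, Q, R, hP, hQ, hR, hPQ, hPR, hQR⟩ := Finset.two_lt_card_iff.mp h3
    have mP := Finset.mem_filter.mp hP
    have mQ := Finset.mem_filter.mp hQ
    have mR := Finset.mem_filter.mp hR
    obtain ⟨x, z, hx, hz, hxz⟩ := triple_ext hl htr hdist mP.1 mQ.1 mR.1 hPQ hPR hQR
    have mem : ∀ w : V, (w = P ∨ w = Q ∨ w = R) → w ∈ Tp := by
      rintro w (rfl | rfl | rfl) <;> assumption
    have hx' := Finset.mem_filter.mp (mem x hx)
    have hz' := Finset.mem_filter.mp (mem z hz)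
    have hzk : ht l z - k = c * (f z).x + s * (f z).y := by rw [f4]; ring
    have hbig : s ^ 2 < 0.1128 := by
      apply big_h hsc hle hs (hIn z hz'.1)
      rw [← hzk]
      have : 2 * √2 < ht l z - k := by linarith [hx'.2]
      nlinarith
    have e : ∀ X, c * (f X).x + s * (f X).y = ht l X - k := fun X => by rw [f4]; ring
    exact th_core hsc hs hle (hIn P mP.1) (hIn Q mQ.1) (hIn R mR.1) (hFar P mP.1 Q mQ.1 hPQ)
      (hFar P mP.1 R mR.1 hPR) (hFar Q mQ.1 R mR.1 hQR) (by rw [e]; exact mP.2)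
      (by rw [e]; exact mQ.2) (by rw [e]; exact mR.2) hbig
  · obtain ⟨P, Q, R, hP, hQ, hR, hPQ, hPR, hQR⟩ := Finset.two_lt_card_iff.mp h3
    have mP := Finset.mem_filter.mp hP
    have mQ := Finset.mem_filter.mp hQ
    have mR := Finset.mem_filter.mp hR
    obtain ⟨x, z, hx, hz, hxz⟩ := triple_ext hl htr hdist mP.1 mQ.1 mR.1 hPQ hPR hQR
    have mem : ∀ w : V, (w = P ∨ w = Q ∨ w = R) → w ∈ Tm := by
      rintro w (rfl | rfl | rfl) <;> assumption
    have hx' := Finset.mem_filter.mp (mem x hx)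
    have hz' := Finset.mem_filter.mp (mem z hz)
    have hxk : ht l x - k = c * (f x).x + s * (f x).y := by rw [f4]; ring
    have hbig : s ^ 2 < 0.1128 := by
      apply big_h hsc hle hs (hIn x hx'.1)
      rw [← hxk]
      have : ht l x - k < -(2 * √2) := by linarith [hz'.2]
      nlinarith
    -- reflect
    set g : V → Pt V := fun X => ⟨-(f X).x, -(f X).y, (f X).z⟩ with hg
    have hIn' : ∀ X ∈ M, InB s c n (g X) := by
      intro X hX
      obtain ⟨i1, i2⟩ := hIn X hX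
      refine ⟨?_, ?_⟩
      · simp only [hg]
        have : (c * -(f X).y - s * -(f X).x) ^ 2 = (c * (f X).y - s * (f X).x) ^ 2 := by ring
        rw [this]; exact i1
      · simp only [hg]
        have : (c * -(f X).y + s * -(f X).x) ^ 2 = (c * (f X).y + s * (f X).x) ^ 2 := by ring
        rw [this]; exact i2
    have hFar' : ∀ X ∈ M, ∀ Y ∈ M, X ≠ Y → Far (g X) (g Y) := by
      intro X hX Y hY hXY
      have := hFar X hX Y hY hXY
      unfold Far at *
      simp only [hg]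
      have e : (-(f X).x - -(f Y).x) ^ 2 + (-(f X).y - -(f Y).y) ^ 2 =
        ((f X).x - (f Y).x) ^ 2 + ((f X).y - (f Y).y) ^ 2 := by ring
      rw [e]; exact this
    have e : ∀ X, c * (g X).x + s * (g X).y = -(ht l X - k) := fun X => by
      simp only [hg]; rw [f4]; ring
    exact th_core hsc hs hle (hIn' P mP.1) (hIn' Q mQ.1) (hIn' R mR.1) (hFar' P mP.1 Q mQ.1 hPQ)
      (hFar' P mP.1 R mR.1 hPR) (hFar' Q mQ.1 R mR.1 hQR) (by rw [e]; linarith [mP.2])
      (by rw [e]; linarith [mQ.2]) (by rw [e]; linarith [mR.2]) hbig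

/-- **At most one swapped pair.** -/
theorem gp [DecidableEq V] [FiniteDimensional ℝ V] {l l' : V × V} (hl : IsLine l) (hl' : IsLine l')
    (h0 : 0 ≤ inner ℝ l.2 l'.2) {M : Finset V}
    (hM : 9 ≤ M.card ∨ (finrank ℝ V = 2 ∧ 5 ≤ M.card)) (htr : Tr l M 1) (htr' : Tr l' M 1)
    (hdist : ∀ x ∈ M, ∀ y ∈ M, x ≠ y → 2 < dist x y) {a b a' b' : V} (ha : a ∈ M) (hb : b ∈ M)
    (ha' : a' ∈ M) (hb' : b' ∈ M) (h1 : ht l a < ht l b) (h2 : ht l' b < ht l' a)
    (h3 : ht l a' < ht l b') (h4 : ht l' b' < ht l' a') : a = a' ∧ b = b' := by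
  have hκle : inner ℝ l.2 l'.2 ≤ (1 : ℝ) := by
    have := real_inner_le_norm l.2 l'.2
    rwa [hl.1, hl'.1, one_mul] at this
  rcases hκle.lt_or_eq with hκ | hκ
  swap
  · exfalso
    have hu : l.2 = l'.2 := (inner_eq_one_iff_of_norm_eq_one hl.1 hl'.1).mp hκ
    unfold ht at h1 h2
    rw [hu] at h1
    linarith
  obtain ⟨s, c, n, f, k, k', hs, hle, hsc, f1, f2, f3, f4, f5, f6⟩ := exists_coords hl hl' h0 hκ
  have hc : 0 < c := lt_of_lt_of_le hs hle
  have hIn : ∀ X ∈ M, InB s c n (f X) := fun X hX => by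
    refine ⟨?_, ?_⟩
    · rw [← f1]; exact pow_le_one₀ (norm_nonneg _) (htr X hX)
    · rw [← f2]; exact pow_le_one₀ (norm_nonneg _) (htr' X hX)
  have hFar : ∀ X ∈ M, ∀ Y ∈ M, X ≠ Y → Far (f X) (f Y) := fun X hX Y hY hXY => by
    unfold Far
    rw [← f3]
    have := hdist X hX Y hY hXY
    nlinarith
  have hSw : ∀ X Y, ht l X < ht l Y → ht l' Y < ht l' X → Sw s c (f Y) (f X) := by
    intro X Y g1 g2
    rw [f4, f4] at g1
    rw [f5, f5] at g2
    unfold Sw
    have : c * |(f Y).x - (f X).x| = |c * ((f Y).x - (f X).x)| := by rw [abs_mul, abs_of_pos hc]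
    rw [this, abs_lt]
    constructor <;> linarith
  have s1 := hSw a b h1 h2
  have s2 := hSw a' b' h3 h4
  have nab : a ≠ b := by rintro rfl; exact lt_irrefl _ h1
  have nab' : a' ≠ b' := by rintro rfl; exact lt_irrefl _ h3
  rcases hM with hM | ⟨hfin, hM⟩
  · have hs2 : s ^ 2 ≤ 0.0776 := angle_nine hl hM htr htr' hdist hs hle hsc f1 f2 f3 f4
    by_cases e1 : a = a'
    · subst e1
      refine ⟨rfl, ?_⟩
      by_contra e2
      exact no_shared hs hc hsc hs2 (hIn a ha) (hIn b hb) (hIn b' hb') (hFar a ha b hb nab)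
        (hFar a ha b' hb' nab') (hFar b hb b' hb' e2) (Or.inr s1) (Or.inr s2)
    by_cases e2 : b = b'
    · subst e2
      exfalso
      exact no_shared hs hc hsc hs2 (hIn b hb) (hIn a ha) (hIn a' ha') (hFar b hb a ha nab.symm)
        (hFar b hb a' ha' nab'.symm) (hFar a ha a' ha' e1) (Or.inl s1) (Or.inl s2)
    exfalso
    by_cases e3 : a = b'
    · subst e3
      have e4 : b ≠ a' := by
        rintro rfl; exact lt_asymm h1 h3
      exact no_shared hs hc hsc hs2 (hIn a ha) (hIn b hb) (hIn a' ha') (hFar a ha b hb nab)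
        (hFar a ha a' ha' e1) (hFar b hb a' ha' e4) (Or.inr s1) (Or.inl s2)
    by_cases e4 : b = a'
    · subst e4
      exact no_shared hs hc hsc hs2 (hIn b hb) (hIn a ha) (hIn b' hb') (hFar b hb a ha nab.symm)
        (hFar b hb b' hb' e2) (hFar a ha b' hb' e3) (Or.inl s1) (Or.inr s2)
    exact no_disjoint hs hc hsc hs2 (hIn b hb) (hIn a ha) (hIn b' hb') (hIn a' ha')
      (hFar b hb a ha nab.symm) (hFar b' hb' a' ha' nab'.symm) (hFar b hb b' hb' e2)
      (hFar b hb a' ha' e4) (hFar a ha b' hb' e3) (hFar a ha a' ha' e1) s1 s2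
  · obtain ⟨hz, hn⟩ := f6 hfin
    have hb1 : ∀ X ∈ M, |c * (f X).y - s * (f X).x| ≤ 1 := by
      intro X hX
      have h := (hIn X hX).1
      rw [hz, hn] at h
      simp only [sub_zero, norm_zero, ne_eq, OfNat.ofNat_ne_zero, not_false_eq_true, zero_pow,
        add_zero] at h
      exact abs_le_one_iff_mul_self_le_one.mpr (by nlinarith)
    have hb2 : ∀ X ∈ M, |c * (f X).y + s * (f X).x| ≤ 1 := by
      intro X hX
      have h := (hIn X hX).2
      rw [hz, hn] at h
      simp only [add_zero, norm_zero, ne_eq, OfNat.ofNat_ne_zero, not_false_eq_true, zero_pow] at h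
      exact abs_le_one_iff_mul_self_le_one.mpr (by nlinarith)
    have hFar2 : ∀ X ∈ M, ∀ Y ∈ M, X ≠ Y → 4 < ((f X).x - (f Y).x) ^ 2 + ((f X).y - (f Y).y) ^ 2 := by
      intro X hX Y hY hXY
      have := hFar X hX Y hY hXY
      unfold Far at this
      rw [hz, hz] at this
      simpa using this
    have hs4 : s ^ 2 < 1 / 4 := by
      by_contra hcon
      push Not at hcon
      classical
      have hpig := Finset.exists_ne_map_eq_of_card_lt_of_maps_to
        (s := M) (t := (Finset.univ : Finset (Bool × Bool)))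
        (f := fun X => (decide (0 ≤ c * (f X).y - s * (f X).x), decide (0 ≤ c * (f X).y + s * (f X).x)))
        (by simp; omega) (fun X _ => Finset.mem_univ _)
      obtain ⟨X, hX, Y, hY, hXY, heq⟩ := hpig
      rw [Prod.mk.injEq] at heq
      obtain ⟨q1, q2⟩ := heq
      have g1 := abs_le.mp (hb1 X hX)
      have g2 := abs_le.mp (hb1 Y hY)
      have g3 := abs_le.mp (hb2 X hX)
      have g4 := abs_le.mp (hb2 Y hY)
      have r1 : |(c * (f X).y - s * (f X).x) - (c * (f Y).y - s * (f Y).x)| ≤ 1 := by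
        rw [decide_eq_decide] at q1
        by_cases hq : 0 ≤ c * (f X).y - s * (f X).x
        · have := q1.mp hq
          rw [abs_le]; constructor <;> linarith
        · have h5 : ¬ 0 ≤ c * (f Y).y - s * (f Y).x := fun h => hq (q1.mpr h)
          push Not at hq h5
          rw [abs_le]; constructor <;> linarith
      have r2 : |(c * (f X).y + s * (f X).x) - (c * (f Y).y + s * (f Y).x)| ≤ 1 := by
        rw [decide_eq_decide] at q2
        by_cases hq : 0 ≤ c * (f X).y + s * (f X).x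
        · have := q2.mp hq
          rw [abs_le]; constructor <;> linarith
        · have h5 : ¬ 0 ≤ c * (f Y).y + s * (f Y).x := fun h => hq (q2.mpr h)
          push Not at hq h5
          rw [abs_le]; constructor <;> linarith
      have h5 := quarter hsc hs hle hcon r1 r2
      have h6 := hFar2 X hX Y hY hXY
      linarith
    -- upper and lower points
    have habs : ∀ X ∈ M, c * (f X).y + s * |(f X).x| ≤ 1 ∧ c * (-(f X).y) + s * |(f X).x| ≤ 1 := by
      intro X hX
      have g1 := abs_le.mp (hb1 X hX)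
      have g3 := abs_le.mp (hb2 X hX)
      rcases abs_cases (f X).x with ⟨h, _⟩ | ⟨h, _⟩ <;> rw [h] <;> constructor <;> linarith
    have hup : ∀ X ∈ M, ∀ Y ∈ M, X ≠ Y → Sw s c (f Y) (f X) →
        2 * c ^ 2 - 1 ≤ c * (f Y).y ∧ 2 * c ^ 2 - 1 ≤ c * (-(f X).y) := by
      intro X hX Y hY hXY hS
      have h5 := hFar2 X hX Y hY hXY
      unfold Sw at hS
      have h6 : (c * |(f Y).x - (f X).x|) ^ 2 ≤ (s * ((f Y).y - (f X).y)) ^ 2 :=
        pow_le_pow_left₀ (by positivity) hS.le 2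
      rw [mul_pow, mul_pow, sq_abs] at h6
      have hd : 0 < (f Y).y - (f X).y := by
        have h7 : 0 ≤ c * |(f Y).x - (f X).x| := by positivity
        have h8 : 0 < s * ((f Y).y - (f X).y) := lt_of_le_of_lt h7 hS
        exact (mul_pos_iff_of_pos_left hs).mp h8
      have hc2 : 0 < c ^ 2 := by positivity
      have h7 : (2 * c) ^ 2 < ((f Y).y - (f X).y) ^ 2 := by
        have h8 : c ^ 2 * 4 < c ^ 2 * (((f X).x - (f Y).x) ^ 2 + ((f X).y - (f Y).y) ^ 2) :=
          mul_lt_mul_of_pos_left h5 hc2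
        have h9 : ((f Y).y - (f X).y) ^ 2 = s ^ 2 * ((f Y).y - (f X).y) ^ 2 +
            c ^ 2 * ((f Y).y - (f X).y) ^ 2 := by rw [← add_mul, hsc, one_mul]
        have h10 : ((f X).x - (f Y).x) ^ 2 = ((f Y).x - (f X).x) ^ 2 := by ring
        have h11 : ((f X).y - (f Y).y) ^ 2 = ((f Y).y - (f X).y) ^ 2 := by ring
        rw [h10, h11] at h8
        linarith
      have h8 : 2 * c < (f Y).y - (f X).y := lt_of_pow_lt_pow_left₀ 2 hd.le h7
      have h9 : c * (2 * c) < c * ((f Y).y - (f X).y) := mul_lt_mul_of_pos_left h8 hc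
      have g1 := habs X hX
      have g2 := habs Y hY
      have g3 : 0 ≤ s * |(f X).x| := by positivity
      have g4 : 0 ≤ s * |(f Y).x| := by positivity
      constructor <;> nlinarith
    obtain ⟨u1, u2⟩ := hup a ha b hb nab s1
    obtain ⟨v1, v2⟩ := hup a' ha' b' hb' nab' s2
    constructor
    · by_contra hne
      have h5 := top_region hsc hs hc hs4 (habs a ha).2 (habs a' ha').2 u2 v2
      have h6 := hFar2 a ha a' ha' hne
      nlinarith
    · by_contra hne
      have h5 := top_region hsc hs hc hs4 (habs b hb).1 (habs b' hb').1 u1 v1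
      have h6 := hFar2 b hb b' hb' hne
      linarith

end Pool.Agent.H90Dz
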