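import Pool.Agent.H90Dz.Opt

/-!
The pinning lemma.
-/

set_option autoImplicit false

namespace Pool.Agent.H90Dz

open Module

variable {V : Type*} [NormedAddCommGroup V] [InnerProductSpace ℝ V] [FiniteDimensional ℝ V]

/-- the kernel of `(a, b) ↦ (⟪a, u⟫, ⟪b, u⟫)` has dimension `2 d - 2` -/
lemma finrank_perp {u : V} (hu : ‖u‖ = 1) :
    finrank ℝ (LinearMap.ker (((innerₛₗ ℝ u).prodMap (innerₛₗ ℝ u)) : V × V →ₗ[ℝ] ℝ × ℝ)) + 2 =
      2 * finrank ℝ V := by
  set f : V × V →ₗ[ℝ] ℝ × ℝ := (innerₛₗ ℝ u).prodMap (innerₛₗ ℝ u) with hf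
  have hsurj : Function.Surjective f := by
    intro ⟨s, t⟩
    refine ⟨(s • u, t • u), ?_⟩
    simp [hf, hu]
  have h1 := f.finrank_range_add_finrank_ker
  rw [LinearMap.range_eq_top.mpr hsurj, finrank_top, Module.finrank_prod, Module.finrank_prod,
    Module.finrank_self] at h1
  omega

/-- stationarity with few points -/
lemma exists_weights {T : Finset V} {R : V → V → Prop} {l : V × V} (hl : IsLine l) {ρ : ℝ}
    (hρ : 0 < ρ) (htr : Tr l T ρ)
    (hstrict : ∀ a ∈ T, ∀ b ∈ T, R a b → a ≠ b → ht l a < ht l b)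
    (hmin : ∀ l', IsLine l' → Cons R l' T → ∃ x ∈ T, ρ ≤ ‖cv l' x‖) :
    ∃ H ⊆ T, H.Nonempty ∧ H.card + 1 ≤ 2 * finrank ℝ V ∧ (∀ x ∈ H, ‖cv l x‖ = ρ) ∧
      ∃ w : V → ℝ, (∀ x ∈ H, 0 < w x) ∧ ∑ x ∈ H, w x • cv l x = 0 ∧
        ∑ x ∈ H, (w x * ht l x) • cv l x = 0 := by
  classical
  set T' := T.filter fun x => ‖cv l x‖ = ρ with hT'
  set z : V → V × V := fun x => (cv l x, ht l x • cv l x) with hz
  have h0 : (0 : V × V) ∈ convexHull ℝ (z '' (T' : Set V)) := by
    by_contra hcon
    have hfin : (z '' (T' : Set V)).Finite := (T'.finite_toSet).image z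
    have hclosed : IsClosed (convexHull ℝ (z '' (T' : Set V))) := hfin.isClosed_convexHull (𝕜 := ℝ)
    obtain ⟨f, c, hc0, hc⟩ := geometric_hahn_banach_point_closed (convex_convexHull ℝ _) hclosed hcon
    rw [map_zero] at hc0
    -- Riesz
    set f1 : StrongDual ℝ V := f.comp (ContinuousLinearMap.inl ℝ V V) with hf1
    set f2 : StrongDual ℝ V := f.comp (ContinuousLinearMap.inr ℝ V V) with hf2
    set a := (InnerProductSpace.toDual ℝ V).symm f1 with ha
    set b := (InnerProductSpace.toDual ℝ V).symm f2 with hb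
    have e1 : ∀ v, inner ℝ a v = f1 v := fun v => by
      rw [ha, InnerProductSpace.toDual_symm_apply]
    have e2 : ∀ v, inner ℝ b v = f2 v := fun v => by
      rw [hb, InnerProductSpace.toDual_symm_apply]
    refine no_improve hl hρ.le htr hstrict hmin a b ?_
    intro x hx hxρ
    have h1 : z x ∈ convexHull ℝ (z '' (T' : Set V)) :=
      subset_convexHull ℝ _ ⟨x, by simp [hT', hx, hxρ], rfl⟩
    have h2 := hc _ h1
    have h3 : f (z x) = f1 (cv l x) + f2 (ht l x • cv l x) := by
      rw [hf1, hf2]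
      simp only [ContinuousLinearMap.comp_apply, ContinuousLinearMap.inl_apply,
        ContinuousLinearMap.inr_apply]
      rw [← map_add]
      simp [hz]
    rw [h3, ← e1, ← e2, inner_smul_right] at h2
    rw [inner_add_right, inner_smul_right, real_inner_comm, real_inner_comm b]
    linarith
  obtain ⟨ι, hι, z', w, hrange, haff, hwpos, hwsum, hwz⟩ := eq_pos_convex_span_of_mem_convexHull h0
  have hch : ∀ i, ∃ x, x ∈ T' ∧ z x = z' i := by
    intro i
    obtain ⟨x, hx, hxz⟩ := hrange ⟨i, rfl⟩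
    exact ⟨x, by simpa using hx, hxz⟩
  choose X hX hXz using hch
  have hXinj : Function.Injective X := by
    intro i j hij
    apply haff.injective
    rw [← hXz i, ← hXz j, hij]
  have hcard : Fintype.card ι + 1 ≤ 2 * finrank ℝ V := by
    have h1 := haff.card_le_finrank_succ
    have h2 : vectorSpan ℝ (Set.range z') ≤
        LinearMap.ker (((innerₛₗ ℝ l.2).prodMap (innerₛₗ ℝ l.2)) : V × V →ₗ[ℝ] ℝ × ℝ) := by
      rw [vectorSpan_def, Submodule.span_le]
      rintro _ ⟨_, ⟨i, rfl⟩, _, ⟨j, rfl⟩, rfl⟩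
      have hmem : ∀ i, inner ℝ l.2 (z' i).1 = (0 : ℝ) ∧ inner ℝ l.2 (z' i).2 = (0 : ℝ) := by
        intro i
        rw [← hXz i]
        simp only [hz, inner_smul_right]
        rw [real_inner_comm, inner_cv hl]
        simp
      simp only [SetLike.mem_coe, LinearMap.mem_ker, vsub_eq_sub, LinearMap.prodMap_apply,
        innerₛₗ_apply_apply, Prod.fst_sub, Prod.snd_sub, inner_sub_right, (hmem i).1, (hmem i).2,
        (hmem j).1, (hmem j).2]
      simp
    have h3 := Submodule.finrank_mono h2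
    have h4 := finrank_perp (u := l.2) hl.1
    omega
  have hne : Nonempty ι := by
    by_contra h
    rw [not_nonempty_iff] at h
    simp at hwsum
  set W : V → ℝ := Function.extend X w 0 with hW
  have hWX : ∀ i, W (X i) = w i := fun i => hXinj.extend_apply _ _ _
  refine ⟨Finset.univ.image X, ?_, ?_, ?_, ?_, W, ?_, ?_, ?_⟩
  · intro x hx
    obtain ⟨i, _, rfl⟩ := Finset.mem_image.mp hx
    exact (Finset.mem_filter.mp (hX i)).1
  · exact (Finset.univ_nonempty).image X
  · rw [Finset.card_image_of_injective _ hXinj, Finset.card_univ]; exact hcard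
  · intro x hx
    obtain ⟨i, _, rfl⟩ := Finset.mem_image.mp hx
    exact (Finset.mem_filter.mp (hX i)).2
  · intro x hx
    obtain ⟨i, _, rfl⟩ := Finset.mem_image.mp hx
    rw [hWX]; exact hwpos i
  · rw [Finset.sum_image (fun i _ j _ h => hXinj h)]
    have h1 := congrArg Prod.fst hwz
    rw [Prod.fst_sum] at h1
    rw [← Prod.fst_zero (M := V) (N := V), ← h1]
    refine Finset.sum_congr rfl fun i _ => ?_
    rw [hWX, ← hXz i]; rfl
  · rw [Finset.sum_image (fun i _ j _ h => hXinj h)]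
    have h1 := congrArg Prod.snd hwz
    rw [Prod.snd_sum] at h1
    rw [← Prod.snd_zero (M := V) (N := V), ← h1]
    refine Finset.sum_congr rfl fun i _ => ?_
    rw [hWX, ← hXz i, mul_smul]; rfl

/-- **Pinning lemma.** -/
theorem pin {T : Finset V} (hT : 2 ≤ T.card) (hd : 2 ≤ finrank ℝ V) {R : V → V → Prop}
    (hR : ∀ a ∈ T, ∀ b ∈ T, a ≠ b → R a b ∨ R b a) {l : V × V} (hl : IsLine l)
    (hcons : Cons R l T) {ρ : ℝ} (hρ : 0 ≤ ρ) (htr : Tr l T ρ)
    (hdist : ∀ a ∈ T, ∀ b ∈ T, a ≠ b → 2 * ρ < dist a b)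
    (hmin : ∀ l', IsLine l' → Cons R l' T → ∃ x ∈ T, ρ ≤ ‖cv l' x‖) :
    ∃ H ⊆ T, H.card + 1 ≤ 2 * finrank ℝ V ∧
      ∀ l', IsLine l' → Cons R l' H → Tr l' H ρ → l' = l := by
  classical
  have hstrict : ∀ a ∈ T, ∀ b ∈ T, R a b → a ≠ b → ht l a < ht l b := fun a ha b hb h hab =>
    lt_of_le_of_ne (hcons a ha b hb h) (ht_ne hl hρ (htr a ha) (htr b hb) (hdist a ha b hb hab))
  rcases hρ.lt_or_eq with hρ' | hρ'
  · obtain ⟨H, hHT, hne, hcard, hHρ, w, hw, hs0, hs1⟩ := exists_weights hl hρ' htr hstrict hmin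
    refine ⟨H, hHT, hcard, fun l' hl' hc' htr' => ?_⟩
    refine uniq H w hρ' (fun x hx y hy => hdist x (hHT hx) y (hHT hy)) hl hl' hw hne hHρ hs0 hs1
      htr' ?_
    intro x hx y hy hxy
    have hxyne : x ≠ y := by rintro rfl; exact lt_irrefl _ hxy
    rcases hR x (hHT hx) y (hHT hy) hxyne with h | h
    · exact lt_of_le_of_ne (hc' x hx y hy h)
        (ht_ne hl' hρ (htr' x hx) (htr' y hy) (hdist x (hHT hx) y (hHT hy) hxyne))
    · exact absurd (hcons y (hHT hy) x (hHT hx) h) (not_le.mpr hxy)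
  · -- ρ = 0
    subst hρ'
    obtain ⟨a, ha, b, hb, hab⟩ := Finset.one_lt_card.mp (by omega : 1 < T.card)
    -- choose the order
    have hex : ∃ a ∈ T, ∃ b ∈ T, a ≠ b ∧ R a b := by
      rcases hR a ha b hb hab with h | h
      · exact ⟨a, ha, b, hb, hab, h⟩
      · exact ⟨b, hb, a, ha, hab.symm, h⟩
    obtain ⟨a, ha, b, hb, hab, hRab⟩ := hex
    refine ⟨{a, b}, ?_, ?_, fun l' hl' hc' htr' => ?_⟩
    · intro x hx
      rw [Finset.mem_insert, Finset.mem_singleton] at hx
      rcases hx with rfl | rfl <;> assumption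
    · have : ({a, b} : Finset V).card = 2 := Finset.card_pair hab
      omega
    · have ma : a ∈ ({a, b} : Finset V) := by simp
      have mb : b ∈ ({a, b} : Finset V) := by simp
      have h1 : cv l a = 0 := norm_le_zero_iff.mp (htr a ha)
      have h2 : cv l b = 0 := norm_le_zero_iff.mp (htr b hb)
      have h3 : cv l' a = 0 := norm_le_zero_iff.mp (htr' a ma)
      have h4 : cv l' b = 0 := norm_le_zero_iff.mp (htr' b mb)
      have hlt := hstrict a ha b hb hRab hab
      have hle' := hc' a ma b mb hRab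
      have e1 : b - a = (ht l b - ht l a) • l.2 := by
        have := cv_sub l b a
        rw [h1, h2, sub_zero] at this
        exact (sub_eq_zero.mp this.symm)
      have e2 : b - a = (ht l' b - ht l' a) • l'.2 := by
        have := cv_sub l' b a
        rw [h3, h4, sub_zero] at this
        exact (sub_eq_zero.mp this.symm)
      have n1 : ‖b - a‖ = ht l b - ht l a := by
        rw [e1, norm_smul, hl.1, mul_one, Real.norm_eq_abs, abs_of_pos (by linarith)]
      have n2 : ‖b - a‖ = ht l' b - ht l' a := by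
        rw [e2, norm_smul, hl'.1, mul_one, Real.norm_eq_abs, abs_of_nonneg (by linarith)]
      have hu : l'.2 = l.2 := by
        have h5 : (ht l b - ht l a) • l'.2 = (ht l b - ht l a) • l.2 := by
          rw [← e1, ← n1, n2, ← e2]
        exact smul_right_injective V (by linarith : ht l b - ht l a ≠ 0) h5
      refine Prod.ext ?_ hu
      unfold cv ht at h1 h3
      rw [hu] at h3
      have h6 : l'.1 = l.1 := by
        have h7 : a - l'.1 - inner ℝ a l.2 • l.2 = a - l.1 - inner ℝ a l.2 • l.2 := by rw [h3, h1]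
        have h8 := sub_left_inj.mp h7
        exact sub_right_inj.mp h8
      exact h6

end Pool.Agent.H90Dz
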