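import Pool.Agent.H90Dz.Perm
import Pool.Agent.H90Dz.Hadwiger

/-!
The star lemma: one point can be removed from a critical family of `4 d - 1` points without
changing the set of its line transversals.
-/

set_option autoImplicit false

namespace Pool.Agent.H90Dz

open Module

variable {V : Type*} [NormedAddCommGroup V] [InnerProductSpace ℝ V]

/-- the reversed line -/
def rev (l : V × V) : V × V := (l.1, -l.2)

lemma rev_isLine {l : V × V} (hl : IsLine l) : IsLine (rev l) :=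
  ⟨by unfold rev; simp only [norm_neg]; exact hl.1, by unfold rev; simp only [inner_neg_right]; rw [hl.2, neg_zero]⟩

lemma ht_rev (l : V × V) (x : V) : ht (rev l) x = -ht l x := by
  unfold ht rev; simp only [inner_neg_right]

lemma cv_rev (l : V × V) (x : V) : cv (rev l) x = cv l x := by
  have h := ht_rev l x
  unfold cv
  rw [h]
  unfold rev
  simp

lemma Tr_rev {l : V × V} {T : Finset V} {r : ℝ} : Tr (rev l) T r ↔ Tr l T r := by
  unfold Tr; simp only [cv_rev]

variable [FiniteDimensional ℝ V] [DecidableEq V]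

theorem star {G : Finset V} (hd : 2 ≤ finrank ℝ V) (hcard : G.card + 1 = 4 * finrank ℝ V)
    (hdist : ∀ x ∈ G, ∀ y ∈ G, x ≠ y → 2 < dist x y) (hne : ∃ l, IsLine l ∧ Tr l G 1)
    (hmin : ∀ l, IsLine l → ∃ x ∈ G, 1 ≤ ‖cv l x‖) :
    ∃ C ∈ G, ∀ l, IsLine l → Tr l (G.erase C) 1 → Tr l G 1 := by
  by_contra hcon
  push Not at hcon
  obtain ⟨l₁, hl₁, htr₁⟩ := hne
  have hdist' : ∀ x ∈ G, ∀ y ∈ G, x ≠ y → 2 * (1 : ℝ) < dist x y := fun x hx y hy h => by
    have := hdist x hx y hy h; linarith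
  have hne1 : ∀ x ∈ G, ∀ y ∈ G, x ≠ y → ht l₁ x ≠ ht l₁ y := fun x hx y hy hxy =>
    ht_ne hl₁ zero_le_one (htr₁ x hx) (htr₁ y hy) (hdist' x hx y hy hxy)
  obtain ⟨H₁, hH₁, hH₁c, hH₁u⟩ := pin (T := G) (by omega) hd (R := fun a b => ht l₁ a < ht l₁ b)
    (fun a ha b hb hab => lt_or_gt_of_ne (hne1 a ha b hb hab)) hl₁
    (fun a _ b _ hab => le_of_lt hab) zero_le_one htr₁ hdist' (fun l' h _ => hmin l' h)
  -- choose the lines
  have hch : ∀ C : V, ∃ l : V × V, C ∈ G → IsLine l ∧ Tr l (G.erase C) 1 ∧ ¬ Tr l G 1 ∧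
      0 ≤ inner ℝ l₁.2 l.2 := by
    intro C
    by_cases hC : C ∈ G
    · obtain ⟨l, h1, h2, h3⟩ := hcon C hC
      rcases le_total 0 (inner ℝ l₁.2 l.2) with h | h
      · exact ⟨l, fun _ => ⟨h1, h2, h3, h⟩⟩
      · refine ⟨rev l, fun _ => ⟨rev_isLine h1, Tr_rev.mpr h2, fun h4 => h3 (Tr_rev.mp h4), ?_⟩⟩
        unfold rev
        simp only [inner_neg_right]
        linarith
    · exact ⟨(0, 0), fun h => absurd h hC⟩
  choose L hL using hch
  set D := G \ H₁ with hD
  have hDcard : 2 * finrank ℝ V ≤ D.card := by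
    have h5 : G.card - H₁.card ≤ D.card := Finset.le_card_sdiff H₁ G
    omega
  have hDG : ∀ C ∈ D, C ∈ G := fun C hC => (Finset.mem_sdiff.mp hC).1
  have hDH : ∀ C ∈ D, C ∉ H₁ := fun C hC => (Finset.mem_sdiff.mp hC).2
  have hH₁e : ∀ C ∈ D, H₁ ⊆ G.erase C := fun C hC x hx =>
    Finset.mem_erase.mpr ⟨fun h => hDH C hC (h ▸ hx), hH₁ hx⟩
  have hneL : ∀ C ∈ G, ∀ x ∈ G.erase C, ∀ y ∈ G.erase C, x ≠ y → ht (L C) x ≠ ht (L C) y :=
    fun C hC x hx y hy hxy => ht_ne (hL C hC).1 zero_le_one ((hL C hC).2.1 x hx)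
      ((hL C hC).2.1 y hy) (hdist' x (Finset.mem_of_mem_erase hx) y (Finset.mem_of_mem_erase hy) hxy)
  -- swapped pairs
  have hsw : ∀ C ∈ D, ∃ a ∈ H₁, ∃ b ∈ H₁, ht l₁ a < ht l₁ b ∧ ht (L C) b < ht (L C) a := by
    intro C hC
    by_contra hno
    push Not at hno
    have := hH₁u (L C) (hL C (hDG C hC)).1 (fun a ha b hb hab => hno a ha b hb hab)
      ((hL C (hDG C hC)).2.1.mono (hH₁e C hC))
    apply (hL C (hDG C hC)).2.2.1
    rw [this]; exact htr₁
  have hcardM : ∀ M : Finset V, G.card ≤ M.card + 2 →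
      (9 ≤ M.card ∨ (finrank ℝ V = 2 ∧ 5 ≤ M.card)) := by
    intro M hM
    rcases Nat.lt_or_ge 2 (finrank ℝ V) with h | h
    · left; omega
    · right; constructor <;> omega
  -- uniqueness of the swapped pair on G \ C
  have huniq : ∀ C ∈ D, ∀ a ∈ G.erase C, ∀ b ∈ G.erase C, ∀ a' ∈ G.erase C, ∀ b' ∈ G.erase C,
      ht l₁ a < ht l₁ b → ht (L C) b < ht (L C) a → ht l₁ a' < ht l₁ b' →
      ht (L C) b' < ht (L C) a' → a = a' ∧ b = b' := by
    intro C hC a ha b hb a' ha' b' hb' h1 h2 h3 h4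
    have hCG := hDG C hC
    refine gp hl₁ (hL C hCG).1 (hL C hCG).2.2.2 (M := G.erase C) ?_ (htr₁.mono (Finset.erase_subset _ _))
      (hL C hCG).2.1 ?_ ha hb ha' hb' h1 h2 h3 h4
    · apply hcardM; rw [Finset.card_erase_of_mem hCG]; omega
    · intro x hx y hy; exact hdist x (Finset.mem_of_mem_erase hx) y (Finset.mem_of_mem_erase hy)
  obtain ⟨C₀, hC₀⟩ : D.Nonempty := by rw [← Finset.card_pos]; omega
  obtain ⟨a, ha, b, hb, hab1, hab2⟩ := hsw C₀ hC₀
  have hsame : ∀ C ∈ D, ht (L C) b < ht (L C) a := by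
    intro C hC
    by_cases hCC : C = C₀
    · rw [hCC]; exact hab2
    obtain ⟨a', ha', b', hb', hab1', hab2'⟩ := hsw C hC
    by_contra hno
    have hCG := hDG C hC
    have hC₀G := hDG C₀ hC₀
    have hne_ab : a ≠ b := by rintro rfl; exact lt_irrefl _ hab1
    have hne_ab' : a' ≠ b' := by rintro rfl; exact lt_irrefl _ hab1'
    have hlt : ht (L C) a < ht (L C) b := by
      rcases lt_or_gt_of_ne (hneL C hCG a (hH₁e C hC ha) b (hH₁e C hC hb) hne_ab) with h | h
      · exact h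
      · exact absurd h hno
    -- (a', b') is not swapped by L C₀
    have hlt' : ht (L C₀) a' < ht (L C₀) b' := by
      rcases lt_or_gt_of_ne (hneL C₀ hC₀G a' (hH₁e C₀ hC₀ ha') b' (hH₁e C₀ hC₀ hb') hne_ab') with h | h
      · exact h
      · exfalso
        obtain ⟨e1, e2⟩ := huniq C₀ hC₀ a (hH₁e C₀ hC₀ ha) b (hH₁e C₀ hC₀ hb) a' (hH₁e C₀ hC₀ ha')
          b' (hH₁e C₀ hC₀ hb') hab1 hab2 hab1' h
        rw [← e1, ← e2] at hab2'
        exact hno hab2'
    set M := (G.erase C).erase C₀ with hM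
    have hMsub1 : M ⊆ G.erase C := Finset.erase_subset _ _
    have hMsub2 : M ⊆ G.erase C₀ := by
      intro x hx
      rw [hM, Finset.mem_erase, Finset.mem_erase] at hx
      exact Finset.mem_erase.mpr ⟨hx.1, hx.2.2⟩
    have hMG : M ⊆ G := hMsub1.trans (Finset.erase_subset _ _)
    have hMcard : G.card ≤ M.card + 2 := by
      rw [hM, Finset.card_erase_of_mem (Finset.mem_erase.mpr ⟨fun h => hCC h.symm, hC₀G⟩),
        Finset.card_erase_of_mem hCG]; omega
    have hH₁M : ∀ x ∈ H₁, x ∈ M := fun x hx =>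
      Finset.mem_erase.mpr ⟨fun h => hDH C₀ hC₀ (h ▸ hx), hH₁e C hC hx⟩
    have hMdist : ∀ x ∈ M, ∀ y ∈ M, x ≠ y → 2 < dist x y := fun x hx y hy =>
      hdist x (hMG hx) y (hMG hy)
    rcases le_total 0 (inner ℝ (L C₀).2 (L C).2) with hin | hin
    · obtain ⟨e1, e2⟩ := gp (hL C₀ hC₀G).1 (hL C hCG).1 hin (hcardM M hMcard)
        ((hL C₀ hC₀G).2.1.mono hMsub2) ((hL C hCG).2.1.mono hMsub1) hMdist
        (hH₁M a' ha') (hH₁M b' hb') (hH₁M b hb) (hH₁M a ha) hlt' hab2' hab2 hlt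
      rw [e1, e2] at hab1'
      exact lt_asymm hab1 hab1'
    · -- opposite directions: all other pairs are swapped
      have hin' : 0 ≤ inner ℝ (L C₀).2 (rev (L C)).2 := by
        unfold rev; simp only [inner_neg_right]; linarith
      -- a point x outside the pairs
      have hx : (M \ {a, b, a', b'}).Nonempty := by
        rw [← Finset.card_pos]
        have h1 := Finset.le_card_sdiff ({a, b, a', b'} : Finset V) M
        have h2 : ({a, b, a', b'} : Finset V).card ≤ 4 := Finset.card_le_four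
        have h3 := hcardM M hMcard
        omega
      obtain ⟨x, hx⟩ := hx
      rw [Finset.mem_sdiff] at hx
      obtain ⟨hxM, hx4⟩ := hx
      simp only [Finset.mem_insert, Finset.mem_singleton, not_or] at hx4
      obtain ⟨hxa, hxb, hxa', hxb'⟩ := hx4
      have hagree : ∀ y ∈ M, y ≠ x → (ht l₁ x < ht l₁ y → ht (L C₀) x < ht (L C₀) y ∧
          ht (L C) x < ht (L C) y) ∧ (ht l₁ y < ht l₁ x → ht (L C₀) y < ht (L C₀) x ∧
          ht (L C) y < ht (L C) x) := by
        intro y hy hyx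
        refine ⟨fun h => ⟨?_, ?_⟩, fun h => ⟨?_, ?_⟩⟩
        · rcases lt_or_gt_of_ne (hneL C₀ hC₀G x (hMsub2 hxM) y (hMsub2 hy) hyx.symm) with g | g
          · exact g
          · exfalso
            exact hxa (huniq C₀ hC₀ x (hMsub2 hxM) y (hMsub2 hy) a (hH₁e C₀ hC₀ ha) b
              (hH₁e C₀ hC₀ hb) h g hab1 hab2).1
        · rcases lt_or_gt_of_ne (hneL C hCG x (hMsub1 hxM) y (hMsub1 hy) hyx.symm) with g | g
          · exact g
          · exfalso
            exact hxa' (huniq C hC x (hMsub1 hxM) y (hMsub1 hy) a' (hH₁e C hC ha') b'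
              (hH₁e C hC hb') h g hab1' hab2').1
        · rcases lt_or_gt_of_ne (hneL C₀ hC₀G y (hMsub2 hy) x (hMsub2 hxM) hyx) with g | g
          · exact g
          · exfalso
            exact hxb (huniq C₀ hC₀ y (hMsub2 hy) x (hMsub2 hxM) a (hH₁e C₀ hC₀ ha) b
              (hH₁e C₀ hC₀ hb) h g hab1 hab2).2
        · rcases lt_or_gt_of_ne (hneL C hCG y (hMsub1 hy) x (hMsub1 hxM) hyx) with g | g
          · exact g
          · exfalso
            exact hxb' (huniq C hC y (hMsub1 hy) x (hMsub1 hxM) a' (hH₁e C hC ha') b'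
              (hH₁e C hC hb') h g hab1' hab2').2
      -- two further points
      have h2 : 1 < (M.erase x).card := by
        have h3 := hcardM M hMcard
        rw [Finset.card_erase_of_mem hxM]; omega
      obtain ⟨y, hy, y', hy', hyy⟩ := Finset.one_lt_card.mp h2
      obtain ⟨hyx, hyM⟩ := Finset.mem_erase.mp hy
      obtain ⟨hyx', hyM'⟩ := Finset.mem_erase.mp hy'
      have hg := fun {p q p' q' : V} (hp : p ∈ M) (hq : q ∈ M) (hp' : p' ∈ M) (hq' : q' ∈ M)
          (h1 : ht (L C₀) p < ht (L C₀) q) (h2 : ht (L C) p < ht (L C) q)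
          (h3 : ht (L C₀) p' < ht (L C₀) q') (h4 : ht (L C) p' < ht (L C) q') =>
        gp (hL C₀ hC₀G).1 (rev_isLine (hL C hCG).1) hin' (hcardM M hMcard)
          ((hL C₀ hC₀G).2.1.mono hMsub2) (Tr_rev.mpr ((hL C hCG).2.1.mono hMsub1)) hMdist
          hp hq hp' hq' h1 (by rw [ht_rev, ht_rev]; linarith) h3 (by rw [ht_rev, ht_rev]; linarith)
      rcases lt_or_gt_of_ne (hne1 x (hMG hxM) y (hMG hyM) hyx.symm) with g1 | g1 <;>
        rcases lt_or_gt_of_ne (hne1 x (hMG hxM) y' (hMG hyM') hyx'.symm) with g2 | g2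
      · have k1 := (hagree y hyM hyx).1 g1
        have k2 := (hagree y' hyM' hyx').1 g2
        exact hyy (hg hxM hyM hxM hyM' k1.1 k1.2 k2.1 k2.2).2
      · have k1 := (hagree y hyM hyx).1 g1
        have k2 := (hagree y' hyM' hyx').2 g2
        exact hyx' (hg hxM hyM hyM' hxM k1.1 k1.2 k2.1 k2.2).1.symm
      · have k1 := (hagree y hyM hyx).2 g1
        have k2 := (hagree y' hyM' hyx').1 g2
        exact hyx (hg hyM hxM hxM hyM' k1.1 k1.2 k2.1 k2.2).1
      · have k1 := (hagree y hyM hyx).2 g1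
        have k2 := (hagree y' hyM' hyx').2 g2
        exact hyy (hg hyM hxM hyM' hxM k1.1 k1.2 k2.1 k2.2).1
  -- the second order
  set R₂ : V → V → Prop := fun x y => (x = b ∧ y = a) ∨ (ht l₁ x < ht l₁ y ∧ ¬ (x = a ∧ y = b)) with hR₂
  have hR₂tot : ∀ x ∈ G, ∀ y ∈ G, x ≠ y → R₂ x y ∨ R₂ y x := by
    intro x hx y hy hxy
    rcases lt_or_gt_of_ne (hne1 x hx y hy hxy) with h | h
    · by_cases h2 : x = a ∧ y = b
      · exact Or.inr (Or.inl ⟨h2.2, h2.1⟩)
      · exact Or.inl (Or.inr ⟨h, h2⟩)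
    · by_cases h2 : y = a ∧ x = b
      · exact Or.inl (Or.inl ⟨h2.2, h2.1⟩)
      · exact Or.inr (Or.inr ⟨h, h2⟩)
  have hconsL : ∀ C ∈ D, Cons R₂ (L C) (G.erase C) := by
    intro C hC x hx y hy hR
    rcases hR with ⟨rfl, rfl⟩ | ⟨h1, h2⟩
    · exact (hsame C hC).le
    · have hxy : x ≠ y := by rintro rfl; exact lt_irrefl _ h1
      rcases lt_or_gt_of_ne (hneL C (hDG C hC) x hx y hy hxy) with g | g
      · exact g.le
      · exfalso
        have := huniq C hC x hx y hy a (hH₁e C hC ha) b (hH₁e C hC hb) h1 g hab1 (hsame C hC)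
        exact h2 this
  have hcons1 : ∀ T : Finset V, ¬ (a ∈ T ∧ b ∈ T) → Cons R₂ l₁ T := by
    intro T hT x hx y hy hR
    rcases hR with ⟨rfl, rfl⟩ | ⟨h1, _⟩
    · exact absurd ⟨hy, hx⟩ hT
    · exact h1.le
  have hne_ab : a ≠ b := by rintro rfl; exact lt_irrefl _ hab1
  by_cases hcase : ∃ l, IsLine l ∧ Cons R₂ l G ∧ Tr l G 1
  · -- Case B
    obtain ⟨l₂, hl₂, hc₂, htr₂⟩ := hcase
    obtain ⟨H₂, hH₂, hH₂c, hH₂u⟩ := pin (T := G) (by omega) hd hR₂tot hl₂ hc₂ zero_le_one htr₂ hdist'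
      (fun l' h _ => hmin l' h)
    have hab2' : a ∈ H₂ ∧ b ∈ H₂ := by
      by_contra hno
      have := hH₂u l₁ hl₁ (hcons1 H₂ hno) (htr₁.mono hH₂)
      have h1 := hc₂ b (hH₁ hb) a (hH₁ ha) (Or.inl ⟨rfl, rfl⟩)
      rw [← this] at h1
      linarith
    have hinter : 2 ≤ (H₁ ∩ H₂).card := by
      have h1 : ({a, b} : Finset V) ⊆ H₁ ∩ H₂ := by
        intro x hx
        rw [Finset.mem_insert, Finset.mem_singleton] at hx
        rcases hx with rfl | rfl
        · exact Finset.mem_inter.mpr ⟨ha, hab2'.1⟩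
        · exact Finset.mem_inter.mpr ⟨hb, hab2'.2⟩
      have h2 := Finset.card_le_card h1
      rwa [Finset.card_pair hne_ab] at h2
    have hunion := Finset.card_union_add_card_inter H₁ H₂
    have hnon : (G \ (H₁ ∪ H₂)).Nonempty := by
      rw [← Finset.card_pos]
      have := Finset.le_card_sdiff (H₁ ∪ H₂) G
      omega
    obtain ⟨C, hC⟩ := hnon
    rw [Finset.mem_sdiff, Finset.mem_union] at hC
    push Not at hC
    have hCD : C ∈ D := Finset.mem_sdiff.mpr ⟨hC.1, hC.2.1⟩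
    have hsub : H₂ ⊆ G.erase C := fun x hx => Finset.mem_erase.mpr ⟨fun h => hC.2.2 (h ▸ hx), hH₂ hx⟩
    have := hH₂u (L C) (hL C hC.1).1 ((hconsL C hCD).mono hsub) ((hL C hC.1).2.1.mono hsub)
    apply (hL C hC.1).2.2.1
    rw [this]; exact htr₂
  · -- Case A
    classical
    set Pf := G.powerset.filter fun T => ¬ ∃ l, IsLine l ∧ Cons R₂ l T ∧ Tr l T 1 with hPf
    have hGP : G ∈ Pf := by
      rw [hPf, Finset.mem_filter, Finset.mem_powerset]
      exact ⟨Finset.Subset.refl _, hcase⟩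
    obtain ⟨T, hT, hTmin⟩ := Finset.exists_min_image Pf Finset.card ⟨G, hGP⟩
    rw [hPf, Finset.mem_filter, Finset.mem_powerset] at hT
    obtain ⟨hTG, hTno⟩ := hT
    have hTerase : ∀ C ∈ T, ∃ l, IsLine l ∧ Cons R₂ l (T.erase C) ∧ Tr l (T.erase C) 1 := by
      intro C hC
      by_contra hno
      have hmem : T.erase C ∈ Pf := by
        rw [hPf, Finset.mem_filter, Finset.mem_powerset]
        exact ⟨(Finset.erase_subset _ _).trans hTG, hno⟩
      have h1 := hTmin _ hmem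
      have h2 := Finset.card_erase_lt_of_mem hC
      omega
    have hTcard := hadwiger hd (fun x hx y hy => hR₂tot x (hTG hx) y (hTG hy))
      (fun x hx y hy => hdist' x (hTG hx) y (hTG hy)) hTno hTerase
    have hDT : D ⊆ T := by
      intro C hC
      by_contra hCT
      apply hTno
      have hsub : T ⊆ G.erase C := fun x hx => Finset.mem_erase.mpr ⟨fun h => hCT (h ▸ hx), hTG hx⟩
      exact ⟨L C, (hL C (hDG C hC)).1, (hconsL C hC).mono hsub, (hL C (hDG C hC)).2.1.mono hsub⟩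
    have habT : a ∈ T ∧ b ∈ T := by
      by_contra hno
      exact hTno ⟨l₁, hl₁, hcons1 T hno, htr₁.mono hTG⟩
    have hins : insert a (insert b D) ⊆ T := by
      intro x hx
      rw [Finset.mem_insert, Finset.mem_insert] at hx
      rcases hx with rfl | rfl | hx
      · exact habT.1
      · exact habT.2
      · exact hDT hx
    have haD : a ∉ D := fun h => hDH a h ha
    have hbD : b ∉ D := fun h => hDH b h hb
    have hcard2 : (insert a (insert b D)).card = D.card + 2 := by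
      rw [Finset.card_insert_of_notMem (by
        rw [Finset.mem_insert]; push Not; exact ⟨hne_ab, haD⟩), Finset.card_insert_of_notMem hbD]
    have := Finset.card_le_card hins
    omega

end Pool.Agent.H90Dz
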