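import Pool.Agent.H90Dz.Basic
import Pool.Agent.H90Dz.PairReal

/-!
Uniqueness: a line that is stationary for a family of disjoint balls of radius `r` is the only
line transversal of the family in its order.
-/

set_option autoImplicit false

namespace Pool.Agent.H90Dz

open Real

variable {V : Type*} [NormedAddCommGroup V] [InnerProductSpace ℝ V]

/-- two lines at the same height: no pair of the first type -/
lemma pair_zero {w H φ : ℝ} (hw : 0 < w) (hφ0 : 0 < φ) (hφ1 : φ < π) (hH : 0 < H)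
    (htr : H * sin φ + w * cos φ ≤ w) (hord : 0 < H * cos φ - w * sin φ) : False := by
  have hs : 0 < sin φ := Real.sin_pos_of_pos_of_lt_pi hφ0 hφ1
  have hc : 0 < cos φ := by
    by_contra h
    push Not at h
    nlinarith [mul_nonneg hH.le (neg_nonneg.mpr h), mul_pos hw hs]
  have h1 := Real.sin_sq_add_cos_sq φ
  have hc1 : cos φ < 1 := by nlinarith
  -- H cos φ > w sin φ, so H sin φ cos φ > w sin² φ
  have h2 : w * sin φ ^ 2 < H * sin φ * cos φ := by nlinarith
  have h3 : H * sin φ * cos φ ≤ w * (1 - cos φ) * cos φ := by nlinarith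
  have h4 : w * sin φ ^ 2 = w * (1 - cos φ) * (1 + cos φ) := by
    have : sin φ ^ 2 = (1 - cos φ) * (1 + cos φ) := by linarith [h1, (by ring : (1 - cos φ) * (1 + cos φ) = 1 - cos φ ^ 2)]
    rw [this]; ring
  have h5 : 0 < w * (1 - cos φ) := mul_pos hw (by linarith)
  nlinarith

/-- Bessel for two orthogonal vectors. -/
lemma bessel2 {c q N : V} (hq : ‖q‖ = 1) (hqN : inner ℝ q N = 0) (hN : N ≠ 0) :
    ‖N‖ ^ 2 * (inner ℝ c q) ^ 2 + (inner ℝ c N) ^ 2 ≤ ‖N‖ ^ 2 * ‖c‖ ^ 2 := by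
  set a : ℝ := inner ℝ c q with ha
  set b : ℝ := inner ℝ c N with hb
  have hN2 : 0 < ‖N‖ ^ 2 := by positivity
  have h0 : 0 ≤ ‖c - a • q - (b / ‖N‖ ^ 2) • N‖ ^ 2 := by positivity
  have h1 : ‖c - a • q - (b / ‖N‖ ^ 2) • N‖ ^ 2 = ‖c‖ ^ 2 - a ^ 2 - b ^ 2 / ‖N‖ ^ 2 := by
    rw [norm_sub_sq_real, norm_sub_sq_real]
    rw [inner_sub_left, inner_smul_right, inner_smul_right, inner_smul_right, inner_smul_left,
      ← ha, ← hb, hqN, norm_smul, norm_smul, hq]
    simp only [Real.norm_eq_abs, mul_pow, sq_abs, div_pow, mul_zero, sub_zero]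
    field_simp
    ring
  rw [h1] at h0
  have h2 : ‖N‖ ^ 2 * (b ^ 2 / ‖N‖ ^ 2) = b ^ 2 := by field_simp
  nlinarith [mul_nonneg hN2.le h0]

/-- the non-parallel case -/
lemma uniq_core (H : Finset V) (w : V → ℝ) {r : ℝ} (hr : 0 < r)
    (hdist : ∀ x ∈ H, ∀ y ∈ H, x ≠ y → 2 * r < dist x y)
    {l l' : V × V} (hl : IsLine l) (hl' : IsLine l')
    (hw : ∀ x ∈ H, 0 < w x) (hc : ∀ x ∈ H, ‖cv l x‖ = r)
    (hsin : ∀ v : V, ∑ x ∈ H, w x * inner ℝ (cv l x) v = 0)
    (hsin1 : ∀ v : V, ∑ x ∈ H, w x * (ht l x * inner ℝ (cv l x) v) = 0)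
    (htr : Tr l' H r) (hord : ∀ x ∈ H, ∀ y ∈ H, ht l x < ht l y → ht l' x < ht l' y)
    {φ : ℝ} {q : V} (hφ0 : 0 < φ) (hφ1 : φ < π) (hqn : ‖q‖ = 1) (hqu : inner ℝ q l.2 = 0)
    (hu' : l'.2 = cos φ • l.2 + sin φ • q) {x₀ y₀ : V} (hx₀ : x₀ ∈ H) (hy₀ : y₀ ∈ H)
    (hxy₀ : y₀ ≠ x₀) : False := by
  classical
  have hhne : ∀ x ∈ H, ∀ y ∈ H, x ≠ y → ht l x ≠ ht l y := fun x hx y hy hxy =>
    ht_ne hl hr.le (hc x hx).le (hc y hy).le (hdist x hx y hy hxy)
  have hsinφ : 0 < sin φ := Real.sin_pos_of_pos_of_lt_pi hφ0 hφ1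
  have hsc := Real.sin_sq_add_cos_sq φ
  have hl2 : inner ℝ l.2 l.2 = (1 : ℝ) := by rw [real_inner_self_eq_norm_sq, hl.1]; norm_num
  have hqq : inner ℝ q q = (1 : ℝ) := by rw [real_inner_self_eq_norm_sq, hqn]; norm_num
  have huq : inner ℝ l.2 q = (0 : ℝ) := by rw [real_inner_comm]; exact hqu
  set D := l'.1 - l.1 with hD
  set α : ℝ := inner ℝ D l.2 with hα
  set β : ℝ := inner ℝ D q with hβ
  set N : V := D - α • l.2 - β • q with hN
  have hNu : inner ℝ N l.2 = 0 := by
    rw [hN]; simp only [inner_sub_left, inner_smul_left, hqu, hl2]; simp [hα]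
  have hNq : inner ℝ N q = 0 := by
    rw [hN]; simp only [inner_sub_left, inner_smul_left, hqq, huq]; simp [hβ]
  have hqN : inner ℝ q N = (0 : ℝ) := by rw [real_inner_comm]; exact hNq
  set q' : V := (-sin φ) • l.2 + cos φ • q with hq'
  set y : V → ℝ := fun x => inner ℝ (cv l x) q with hy
  set ν : V → ℝ := fun x => inner ℝ (cv l x) N with hν
  set g : V → ℝ := fun x => inner ℝ (x - l'.1) q' with hg
  set e : ℝ := ‖N‖ ^ 2 with he
  have he0 : 0 ≤ e := by positivity
  have hcu : ∀ x, inner ℝ (cv l x) l.2 = 0 := inner_cv hl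
  -- decomposition
  have hdec : ∀ x, x - l'.1 = (ht l x - α) • l.2 + (y x - β) • q + (cv l x - y x • q - N) := by
    intro x
    have : cv l x = x - l.1 - ht l x • l.2 := rfl
    rw [hN, this, hD]
    module
  have hZu : ∀ x, inner ℝ (cv l x - y x • q - N) l.2 = 0 := by
    intro x
    simp only [inner_sub_left, inner_smul_left, hcu, hqu, hNu]; simp
  have hZq : ∀ x, inner ℝ (cv l x - y x • q - N) q = 0 := by
    intro x
    simp only [inner_sub_left, inner_smul_left, hqq, hNq]; simp [hy]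
  have hgx : ∀ x, g x = -(ht l x - α) * sin φ + (y x - β) * cos φ := by
    intro x
    have h1 := hZu x
    have h2 := hZq x
    simp only [hg, hq']
    rw [hdec x]
    simp only [inner_add_left, inner_add_right, inner_smul_left, inner_smul_right, hl2, hqq, huq, hqu,
      h1, h2]
    simp
    ring
  have hhx : ∀ x, ht l' x = (ht l x - α) * cos φ + (y x - β) * sin φ := by
    intro x
    have h1 := hZu x
    have h2 := hZq x
    have h3 : ht l' x = inner ℝ (x - l'.1) l'.2 := by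
      unfold ht; rw [inner_sub_left, hl'.2]; simp
    rw [h3, hdec x]
    conv_lhs => rw [hu']
    simp only [inner_add_left, inner_add_right, inner_smul_left, inner_smul_right, hl2, hqq, huq, hqu,
      h1, h2]
    simp
    ring
  have hnsq : ∀ x, ‖x - l'.1‖ ^ 2 = (ht l x - α) ^ 2 + (y x - β) ^ 2 + ‖cv l x - y x • q - N‖ ^ 2 := by
    intro x
    have h1 := hZu x
    have h2 := hZq x
    rw [hdec x, norm_add_sq_real, norm_add_sq_real]
    rw [norm_smul, norm_smul, hl.1, hqn]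
    rw [inner_add_left, inner_smul_left, inner_smul_left, inner_smul_left, inner_smul_right, huq,
      real_inner_comm, h1, real_inner_comm, h2]
    simp [sq_abs]
  have hZn : ∀ x ∈ H, ‖cv l x - y x • q - N‖ ^ 2 = r ^ 2 - y x ^ 2 - 2 * ν x + e := by
    intro x hx
    rw [norm_sub_sq_real, norm_sub_sq_real, hc x hx, norm_smul, hqn, inner_sub_left,
      inner_smul_left, inner_smul_right, hqN]
    simp only [hy, hν, he, Real.norm_eq_abs, mul_pow, sq_abs]
    simp
    ring
  have hM : ∀ x ∈ H, g x ^ 2 ≤ y x ^ 2 + 2 * ν x - e := by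
    intro x hx
    have h1 := cv_norm_sq hl' x
    have h2 : ‖cv l' x‖ ^ 2 ≤ r ^ 2 := pow_le_pow_left₀ (norm_nonneg _) (htr x hx) 2
    rw [h1, hnsq x, hZn x hx, hhx x] at h2
    rw [hgx x]
    have h3 : (ht l x - α) ^ 2 + (y x - β) ^ 2 - ((ht l x - α) * cos φ + (y x - β) * sin φ) ^ 2 =
        (-(ht l x - α) * sin φ + (y x - β) * cos φ) ^ 2 := by
      have h4 : cos φ ^ 2 = 1 - sin φ ^ 2 := by linarith
      ring_nf
      rw [h4]
      ring
    linarith
  -- the pair inequality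
  have hpair : ∀ x ∈ H, ∀ z ∈ H, 0 < y x → y z < 0 →
      φ * (ht l z - ht l x) < ν x / y x + ν z / (-y z) := by
    intro x hx z hz hyx hyz
    have hxz : x ≠ z := by rintro rfl; linarith
    have hHne : ht l z - ht l x ≠ 0 := sub_ne_zero.mpr (hhne z hz x hx hxz.symm)
    have hgd : (ht l z - ht l x) * sin φ + (y x + (-y z)) * cos φ = g x - g z := by
      rw [hgx, hgx]; ring
    have h1 : 0 ≤ y x ^ 2 + 2 * ν x - e := (sq_nonneg _).trans (hM x hx)
    have h2 : 0 ≤ (-y z) ^ 2 + 2 * ν z - e := by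
      rw [neg_sq]; exact (sq_nonneg _).trans (hM z hz)
    have htr' : (ht l z - ht l x) * sin φ + (y x + (-y z)) * cos φ ≤
        √(y x ^ 2 + 2 * ν x - e) + √((-y z) ^ 2 + 2 * ν z - e) := by
      rw [hgd]
      have h3 : |g x| ≤ √(y x ^ 2 + 2 * ν x - e) := Real.abs_le_sqrt (hM x hx)
      have h4 : |g z| ≤ √((-y z) ^ 2 + 2 * ν z - e) := Real.abs_le_sqrt (by rw [neg_sq]; exact hM z hz)
      linarith [le_abs_self (g x), neg_abs_le (g z)]
    have hord' : 0 < ht l z - ht l x →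
        0 < (ht l z - ht l x) * cos φ - (y x + (-y z)) * sin φ := by
      intro h
      have := hord x hx z hz (by linarith)
      rw [hhx, hhx] at this
      linarith
    have hdd := ht_sq_gt hl hr.le (hc x hx).le (hc z hz).le (hdist x hx z hz hxz)
    by_cases hN0 : N = 0
    · have hν0 : ∀ v, ν v = 0 := by intro v; simp [hν, hN0]
      have he00 : e = 0 := by rw [he, hN0]; simp
      rw [hν0, hν0]
      simp only [zero_div, add_zero]
      rcases lt_or_gt_of_ne hHne with h | h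
      · exact mul_neg_of_pos_of_neg hφ0 h
      · exfalso
        rw [hν0, hν0, he00, mul_zero, add_zero, add_zero, sub_zero, sub_zero,
          Real.sqrt_sq hyx.le, Real.sqrt_sq (by linarith)] at htr'
        exact pair_zero (by linarith) hφ0 hφ1 h htr' (hord' h)
    · have hepos : 0 < e := by rw [he]; positivity
      have hdis : e * (y x - (-y z)) ^ 2 + (ν x + ν z) ^ 2 < e * (ht l z - ht l x) ^ 2 := by
        have h3 := bessel2 (c := cv l x + cv l z) hqn hqN hN0
        rw [inner_add_left, inner_add_left] at h3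
        have h4 : e * ‖cv l x + cv l z‖ ^ 2 < e * (ht l x - ht l z) ^ 2 :=
          mul_lt_mul_of_pos_left hdd hepos
        have h5 : (ht l x - ht l z) ^ 2 = (ht l z - ht l x) ^ 2 := by ring
        rw [h5] at h4
        have h6 : y x - (-y z) = y x + y z := by ring
        rw [h6]
        simp only [hy, hν]
        exact lt_of_le_of_lt h3 h4
      exact pair_lemma hyx (by linarith) hepos hHne h1 h2 hdis hφ0 hφ1 htr' hord'
  have hνnn : ∀ x ∈ H, y x = 0 → e ≤ 2 * ν x := by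
    intro x hx h0
    have := (sq_nonneg _).trans (hM x hx)
    rw [h0] at this; linarith
  have hsy : ∑ x ∈ H, w x * y x = 0 := hsin q
  have hsA : ∑ x ∈ H, w x * (ν x + φ * (ht l x * y x)) = 0 := by
    have h1 := hsin N
    have h2 := hsin1 q
    have : ∑ x ∈ H, w x * (ν x + φ * (ht l x * y x)) =
        ∑ x ∈ H, w x * inner ℝ (cv l x) N + φ * ∑ x ∈ H, w x * (ht l x * inner ℝ (cv l x) q) := by
      rw [Finset.mul_sum, ← Finset.sum_add_distrib]
      exact Finset.sum_congr rfl fun x _ => by simp only [hν, hy]; ring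
    rw [this, h1, h2]; simp
  -- no positive y
  have hPos : ∀ x ∈ H, ¬ 0 < y x := by
    intro x₁ hx₁ hyx₁
    -- there is a negative one
    have hneg : ∃ z ∈ H, y z < 0 := by
      by_contra hcon
      push Not at hcon
      have : 0 < ∑ x ∈ H, w x * y x :=
        Finset.sum_pos' (fun x hx => mul_nonneg (hw x hx).le (hcon x hx))
          ⟨x₁, hx₁, mul_pos (hw x₁ hx₁) hyx₁⟩
      linarith
    obtain ⟨z₁, hz₁, hyz₁⟩ := hneg
    obtain ⟨x₂, hx₂, hmin⟩ := Finset.exists_min_image (H.filter fun x => 0 < y x)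
      (fun x => ν x / y x + φ * ht l x) ⟨x₁, Finset.mem_filter.mpr ⟨hx₁, hyx₁⟩⟩
    rw [Finset.mem_filter] at hx₂
    set m := ν x₂ / y x₂ + φ * ht l x₂ with hm
    have hall : ∀ x ∈ H, m * y x ≤ ν x + φ * (ht l x * y x) := by
      intro x hx
      rcases lt_trichotomy (y x) 0 with h | h | h
      · have h1 := hpair x₂ hx₂.1 x hx hx₂.2 h
        have h2 : φ * ht l x - ν x / (-y x) < m := by rw [hm]; linarith
        have h3 : (φ * ht l x - ν x / (-y x)) * (-y x) < m * (-y x) :=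
          mul_lt_mul_of_pos_right h2 (by linarith)
        have h4 : (φ * ht l x - ν x / (-y x)) * (-y x) = -(φ * (ht l x * y x)) - ν x := by
          have : -y x ≠ 0 := by linarith
          rw [sub_mul, div_mul_cancel₀ _ this]; ring
        rw [h4] at h3
        linarith
      · rw [h]; have := hνnn x hx h; simp; linarith
      · have h1 := hmin x (Finset.mem_filter.mpr ⟨hx, h⟩)
        have h2 : m * y x ≤ (ν x / y x + φ * ht l x) * y x := mul_le_mul_of_nonneg_right h1 h.le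
        have h3 : (ν x / y x + φ * ht l x) * y x = ν x + φ * (ht l x * y x) := by
          rw [add_mul, div_mul_cancel₀ _ h.ne']; ring
        linarith
    have hstrict : m * y z₁ < ν z₁ + φ * (ht l z₁ * y z₁) := by
      have h1 := hpair x₂ hx₂.1 z₁ hz₁ hx₂.2 hyz₁
      have h2 : φ * ht l z₁ - ν z₁ / (-y z₁) < m := by rw [hm]; linarith
      have h3 : (φ * ht l z₁ - ν z₁ / (-y z₁)) * (-y z₁) < m * (-y z₁) :=
        mul_lt_mul_of_pos_right h2 (by linarith)
      have h4 : (φ * ht l z₁ - ν z₁ / (-y z₁)) * (-y z₁) = -(φ * (ht l z₁ * y z₁)) - ν z₁ := by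
        have : -y z₁ ≠ 0 := by linarith
        rw [sub_mul, div_mul_cancel₀ _ this]; ring
      rw [h4] at h3
      linarith
    have hlt : ∑ x ∈ H, w x * (m * y x) < ∑ x ∈ H, w x * (ν x + φ * (ht l x * y x)) :=
      Finset.sum_lt_sum (fun x hx => mul_le_mul_of_nonneg_left (hall x hx) (hw x hx).le)
        ⟨z₁, hz₁, mul_lt_mul_of_pos_left hstrict (hw z₁ hz₁)⟩
    have h0 : ∑ x ∈ H, w x * (m * y x) = m * ∑ x ∈ H, w x * y x := by
      rw [Finset.mul_sum]; exact Finset.sum_congr rfl fun x _ => by ring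
    rw [h0, hsy, hsA] at hlt
    simp at hlt
  have hZero : ∀ x ∈ H, y x = 0 := by
    by_contra hcon
    push Not at hcon
    obtain ⟨x₁, hx₁, h1⟩ := hcon
    have h2 : y x₁ < 0 := lt_of_le_of_ne (not_lt.mp (hPos x₁ hx₁)) h1
    have : ∑ x ∈ H, w x * y x < 0 :=
      Finset.sum_neg' (fun x hx => mul_nonpos_of_nonneg_of_nonpos (hw x hx).le
        (not_lt.mp (hPos x hx))) ⟨x₁, hx₁, mul_neg_of_pos_of_neg (hw x₁ hx₁) h2⟩
    linarith
  have hsν : ∑ x ∈ H, w x * ν x = 0 := hsin N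
  have he00 : e = 0 := by
    by_contra hne
    have hepos : 0 < e := lt_of_le_of_ne he0 (Ne.symm hne)
    have : 0 < ∑ x ∈ H, w x * ν x :=
      Finset.sum_pos (fun x hx => mul_pos (hw x hx) (by have := hνnn x hx (hZero x hx); linarith))
        ⟨x₀, hx₀⟩
    linarith
  have hN0 : N = 0 := by
    have : ‖N‖ = 0 := by
      have h := he00; rw [he] at h
      exact pow_eq_zero_iff (n := 2) (by norm_num) |>.mp h
    exact norm_eq_zero.mp this
  have hg0 : ∀ x ∈ H, g x = 0 := by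
    intro x hx
    have h1 := hM x hx
    have h2 : ν x = 0 := by simp [hν, hN0]
    rw [hZero x hx, h2, he00] at h1
    have h3 : g x ^ 2 = 0 := le_antisymm (by linarith) (sq_nonneg _)
    exact pow_eq_zero_iff (n := 2) (by norm_num) |>.mp h3
  have h1 := hg0 x₀ hx₀
  have h2 := hg0 y₀ hy₀
  rw [hgx, hZero x₀ hx₀] at h1
  rw [hgx, hZero y₀ hy₀] at h2
  have h3 : (ht l y₀ - ht l x₀) * sin φ = 0 := by linarith
  rcases mul_eq_zero.mp h3 with h | h
  · exact hhne y₀ hy₀ x₀ hx₀ hxy₀ (by linarith)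
  · exact absurd h hsinφ.ne'

/-- **Uniqueness theorem.** -/
theorem uniq (H : Finset V) (w : V → ℝ) {r : ℝ} (hr : 0 < r)
    (hdist : ∀ x ∈ H, ∀ y ∈ H, x ≠ y → 2 * r < dist x y)
    {l l' : V × V} (hl : IsLine l) (hl' : IsLine l')
    (hw : ∀ x ∈ H, 0 < w x) (hne : H.Nonempty) (hc : ∀ x ∈ H, ‖cv l x‖ = r)
    (hs0 : ∑ x ∈ H, w x • cv l x = 0) (hs1 : ∑ x ∈ H, (w x * ht l x) • cv l x = 0)
    (htr : Tr l' H r) (hord : ∀ x ∈ H, ∀ y ∈ H, ht l x < ht l y → ht l' x < ht l' y) :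
    l' = l := by
  classical
  -- two elements with different heights
  obtain ⟨x₀, hx₀⟩ := hne
  have hy₀ : ∃ y₀ ∈ H, y₀ ≠ x₀ := by
    by_contra hcon
    push Not at hcon
    have : H = {x₀} := by
      ext z; simp only [Finset.mem_singleton]
      exact ⟨fun hz => hcon z hz, fun hz => hz ▸ hx₀⟩
    rw [this, Finset.sum_singleton] at hs0
    have h1 := hw x₀ hx₀
    have h2 : cv l x₀ = 0 := by
      rcases smul_eq_zero.mp hs0 with h | h
      · exact absurd h h1.ne'
      · exact h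
    have h3 := hc x₀ hx₀
    rw [h2, norm_zero] at h3
    linarith
  obtain ⟨y₀, hy₀, hxy₀⟩ := hy₀
  have hhne : ∀ x ∈ H, ∀ y ∈ H, x ≠ y → ht l x ≠ ht l y := fun x hx y hy hxy =>
    ht_ne hl hr.le (hc x hx).le (hc y hy).le (hdist x hx y hy hxy)
  set D := l'.1 - l.1 with hD
  have hsum : 0 < ∑ x ∈ H, w x := Finset.sum_pos hw ⟨x₀, hx₀⟩
  have hsin : ∀ v : V, ∑ x ∈ H, w x * inner ℝ (cv l x) v = 0 := by
    intro v
    have : inner ℝ (∑ x ∈ H, w x • cv l x) v = (0 : ℝ) := by rw [hs0, inner_zero_left]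
    rw [sum_inner] at this
    simpa [inner_smul_left] using this
  have hsin1 : ∀ v : V, ∑ x ∈ H, w x * (ht l x * inner ℝ (cv l x) v) = 0 := by
    intro v
    have : inner ℝ (∑ x ∈ H, (w x * ht l x) • cv l x) v = (0 : ℝ) := by rw [hs1, inner_zero_left]
    rw [sum_inner] at this
    simpa [inner_smul_left, mul_assoc] using this
  set κ : ℝ := inner ℝ l.2 l'.2 with hκ
  have hκle : |κ| ≤ 1 := by
    have := abs_real_inner_le_norm l.2 l'.2
    rw [hl.1, hl'.1, one_mul] at this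
    exact this
  have hκ' := abs_le.mp hκle
  by_cases hκ1 : κ = 1
  · -- parallel
    have hu : l.2 = l'.2 := (inner_eq_one_iff_of_norm_eq_one hl.1 hl'.1).mp hκ1
    have hDu : inner ℝ D l.2 = 0 := by
      rw [hD, inner_sub_left, hl.2, hu, hl'.2]; simp
    have h1 : ∀ x ∈ H, ‖D‖ ^ 2 ≤ 2 * inner ℝ (cv l x) D := by
      intro x hx
      have e1 : cv l' x = cv l x - D := by
        unfold cv ht; rw [← hu, hD]; abel
      have h2 := htr x hx
      rw [e1] at h2
      have h3 : ‖cv l x - D‖ ^ 2 ≤ r ^ 2 := pow_le_pow_left₀ (norm_nonneg _) h2 2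
      rw [norm_sub_sq_real, hc x hx] at h3
      linarith
    have h2 : (∑ x ∈ H, w x) * ‖D‖ ^ 2 ≤ 0 := by
      calc (∑ x ∈ H, w x) * ‖D‖ ^ 2 = ∑ x ∈ H, w x * ‖D‖ ^ 2 := Finset.sum_mul _ _ _
        _ ≤ ∑ x ∈ H, w x * (2 * inner ℝ (cv l x) D) :=
            Finset.sum_le_sum fun x hx => mul_le_mul_of_nonneg_left (h1 x hx) (hw x hx).le
        _ = 2 * ∑ x ∈ H, w x * inner ℝ (cv l x) D := by
            rw [Finset.mul_sum]; exact Finset.sum_congr rfl fun x _ => by ring
        _ = 0 := by rw [hsin]; simp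
    have h3 : ‖D‖ ^ 2 = 0 := by
      have : 0 ≤ ‖D‖ ^ 2 := by positivity
      nlinarith
    have h4 : D = 0 := by
      have := pow_eq_zero_iff (n := 2) (by norm_num) |>.mp h3
      exact norm_eq_zero.mp this
    refine Prod.ext ?_ hu.symm
    rw [hD] at h4
    exact sub_eq_zero.mp h4
  by_cases hκ2 : κ = -1
  · exfalso
    have hu : l.2 = -l'.2 := by
      have : inner ℝ l.2 (-l'.2) = (1 : ℝ) := by rw [inner_neg_right, ← hκ, hκ2]; norm_num
      exact (inner_eq_one_iff_of_norm_eq_one hl.1 (by rw [norm_neg]; exact hl'.1)).mp this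
    have h1 : ∀ x, ht l x = - ht l' x := by
      intro x; unfold ht; rw [hu, inner_neg_right]
    rcases lt_or_gt_of_ne (hhne y₀ hy₀ x₀ hx₀ hxy₀) with h | h
    · have := hord _ hy₀ _ hx₀ h
      rw [h1, h1] at h; linarith
    · have := hord _ hx₀ _ hy₀ h
      rw [h1, h1] at h; linarith
  exfalso
  have hκlt1 : κ < 1 := lt_of_le_of_ne hκ'.2 hκ1
  have hκgt : -1 < κ := lt_of_le_of_ne hκ'.1 (Ne.symm hκ2)
  set φ := arccos κ with hφ
  have hcosφ : cos φ = κ := Real.cos_arccos hκ'.1 hκ'.2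
  have hφ0 : 0 < φ := Real.arccos_pos.mpr hκlt1
  have hφ1 : φ < π := by
    rcases lt_or_eq_of_le (Real.arccos_le_pi κ) with h | h
    · exact h
    · exfalso; rw [← hφ] at h
      rw [h, Real.cos_pi] at hcosφ; linarith
  have hsinφ : 0 < sin φ := Real.sin_pos_of_pos_of_lt_pi hφ0 hφ1
  have hsc := Real.sin_sq_add_cos_sq φ
  set q : V := (1 / sin φ) • (l'.2 - cos φ • l.2) with hq
  have hl2 : inner ℝ l.2 l.2 = (1 : ℝ) := by rw [real_inner_self_eq_norm_sq, hl.1]; norm_num
  have hl'2 : inner ℝ l'.2 l'.2 = (1 : ℝ) := by rw [real_inner_self_eq_norm_sq, hl'.1]; norm_num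
  have hqu : inner ℝ q l.2 = 0 := by
    rw [hq, inner_smul_left, inner_sub_left, inner_smul_left, real_inner_comm, ← hκ, hl2, hcosφ]
    simp
  have hu' : l'.2 = cos φ • l.2 + sin φ • q := by
    rw [hq, smul_smul, mul_one_div_cancel hsinφ.ne', one_smul]; abel
  have hqq : inner ℝ q q = (1 : ℝ) := by
    have h1 : inner ℝ l'.2 l'.2 = cos φ ^ 2 + sin φ ^ 2 * inner ℝ q q := by
      conv_lhs => rw [hu']
      have h0 : inner ℝ l.2 q = (0 : ℝ) := by rw [real_inner_comm]; exact hqu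
      simp only [inner_add_left, inner_add_right, inner_smul_left, inner_smul_right, hl2, hqu, h0]
      simp
      ring
    rw [hl'2] at h1
    have h2 : sin φ ^ 2 * (inner ℝ q q - 1) = 0 := by linarith
    rcases mul_eq_zero.mp h2 with h3 | h3
    · exact absurd h3 (by positivity)
    · linarith
  have hqn : ‖q‖ = 1 := by
    rw [real_inner_self_eq_norm_sq] at hqq
    nlinarith [norm_nonneg q]
  exact uniq_core H w hr hdist hl hl' hw hc hsin hsin1 htr hord hφ0 hφ1 hqn hqu hu' hx₀ hy₀ hxy₀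

end Pool.Agent.H90Dz
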